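import Pool.Agent.Lib.KP.SpecF
import Pool.Agent.Lib.KP.G.Asc
import Pool.Agent.Lib.KP.L.Tay
import Pool.Agent.Lib.KP.L.NoMax
import Pool.Agent.Lib.KP.L.D2N
import Pool.Agent.Lib.KP.L.LvO
import Pool.Agent.Lib.KP.L.D2A
import Pool.Agent.Lib.KP.L.PkOf
import Pool.Agent.Lib.KP.L.LvC
import Pool.Agent.Lib.KP.L.LvH
import Pool.Agent.Lib.KP.L.BdMax
import Pool.Agent.Lib.KP.T.BihT
import Pool.Agent.Lib.KP.G.Bnd
import Pool.Agent.Lib.KP.T.BsdP
import Pool.Agent.Lib.KP.T.SymS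
import Pool.Agent.Lib.KP.T.SymB
import Pool.Agent.Lib.KP.T.CayS
import Pool.Agent.Lib.KP.T.BsdS
import Pool.Agent.Lib.KP.S.Cplx
import Pool.Agent.Lib.KP.S.C1
import Pool.Agent.Lib.KP.S.CC
import Pool.Agent.Lib.KP.T.CayH
import Pool.Agent.Lib.KP.G.Coc
import Pool.Agent.Lib.KP.G.CovF
import Pool.Agent.Lib.KP.W.QD
import Pool.Agent.Lib.KP.W.LLq
import Pool.Agent.Lib.KP.W.Cusp
import Pool.Agent.Lib.KP.W.DefE
import Pool.Agent.Lib.KP.W.DefT
import Pool.Agent.Lib.KP.L.Dim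
import Pool.Agent.Lib.KP.L.DimC
import Pool.Agent.Lib.KP.W.DirS
import Pool.Agent.Lib.KP.W.Fac
import Pool.Agent.Lib.KP.W.Hank
import Pool.Agent.Lib.KP.W.PSh
import Pool.Agent.Lib.KP.W.Disc
import Pool.Agent.Lib.KP.S.Div1
import Pool.Agent.Lib.KP.S.DivN
import Pool.Agent.Lib.KP.T.HP
import Pool.Agent.Lib.KP.T.NorS
import Pool.Agent.Lib.KP.T.MinP
import Pool.Agent.Lib.KP.T.PkS
import Pool.Agent.Lib.KP.T.ScA1
import Pool.Agent.Lib.KP.G.Lip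
import Pool.Agent.Lib.KP.G.HLim
import Pool.Agent.Lib.KP.G.Mon
import Pool.Agent.Lib.KP.G.Exh
import Pool.Agent.Lib.KP.G.Ident
import Pool.Agent.Lib.KP.G.PeakL
import Pool.Agent.Lib.KP.G.Step
import Pool.Agent.Lib.KP.G.Taut
import Pool.Agent.Lib.KP.G.Scale
import Pool.Agent.Lib.KP.T.End1
import Pool.Agent.Lib.KP.T.ScA2
import Pool.Agent.Lib.KP.T.ScD
import Pool.Agent.Lib.KP.T.End2
import Pool.Agent.Lib.KP.T.Hart
import Pool.Agent.Lib.KP.G.LemH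
import Pool.Agent.Lib.KP.T.EndB
import Pool.Agent.Lib.KP.W.ExA
import Pool.Agent.Lib.KP.W.ExO
import Pool.Agent.Lib.KP.W.ExB
import Pool.Agent.Lib.KP.W.ExC
import Pool.Agent.Lib.KP.W.Ext
import Pool.Agent.Lib.KP.L.VRank
import Pool.Agent.Lib.KP.L.VImp
import Pool.Agent.Lib.KP.L.VFlat
import Pool.Agent.Lib.KP.L.VSing
import Pool.Agent.Lib.KP.L.SA
import Pool.Agent.Lib.KP.L.SgU
import Pool.Agent.Lib.KP.S.Sel
import Pool.Agent.Lib.KP.L.PkD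
import Pool.Agent.Lib.KP.S.K0
import Pool.Agent.Lib.KP.S.SgQ
import Pool.Agent.Lib.KP.S.KF
import Pool.Agent.Lib.KP.S.RDiv
import Pool.Agent.Lib.KP.S.OneS
import Pool.Agent.Lib.KP.S.NF1
import Pool.Agent.Lib.KP.S.LT1
import Pool.Agent.Lib.KP.F.F1
import Pool.Agent.Lib.KP.S.K1
import Pool.Agent.Lib.KP.S.TRc
import Pool.Agent.Lib.KP.L.PkC
import Pool.Agent.Lib.KP.S.KC
import Pool.Agent.Lib.KP.S.LevP
import Pool.Agent.Lib.KP.S.NF2
import Pool.Agent.Lib.KP.S.Mv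
import Pool.Agent.Lib.KP.S.LTE
import Pool.Agent.Lib.KP.W.Ord
import Pool.Agent.Lib.KP.W.PT
import Pool.Agent.Lib.KP.W.StA
import Pool.Agent.Lib.KP.W.StB
import Pool.Agent.Lib.KP.W.LocB
import Pool.Agent.Lib.KP.W.GlobB
import Pool.Agent.Lib.KP.W.MoP
import Pool.Agent.Lib.KP.W.Rem
import Pool.Agent.Lib.KP.W.MoE
import Pool.Agent.Lib.KP.W.Puis
import Pool.Agent.Lib.KP.W.StdT
import Pool.Agent.Lib.KP.W.W1
import Pool.Agent.Lib.KP.W.W2
import Pool.Agent.Lib.KP.W.WR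
import Pool.Agent.Lib.KP.W.PosD
import Pool.Agent.Lib.KP.W.RId
import Pool.Agent.Lib.KP.W.RSa
import Pool.Agent.Lib.KP.W.RSw
import Pool.Agent.Lib.KP.W.RS
import Pool.Agent.Lib.KP.W.TDw
import Pool.Agent.Lib.KP.W.WP0
import Pool.Agent.Lib.KP.W.LvG
import Pool.Agent.Lib.KP.W.WPt
import Pool.Agent.Lib.KP.W.TRa
import Pool.Agent.Lib.KP.S.LT2
import Pool.Agent.Lib.KP.F.F2
import Pool.Agent.Lib.KP.T.Pt

/-!
# KP (MP_64edc4_ag), assembly
-/

set_option autoImplicit false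

namespace KP

theorem a_Asc : S_Asc := tAsc 

theorem a_Tay : S_Tay := tTay 

theorem a_NoMax : S_NoMax := tNoMax a_Tay

theorem a_D2N : S_D2N := tD2N 

theorem a_LvO : S_LvO := tLvO a_D2N

theorem a_D2A : S_D2A := tD2A 

theorem a_PkOf : S_PkOf := tPkOf a_NoMax a_LvO a_D2A a_D2N

theorem a_LvC : S_LvC := tLvC 

theorem a_LvH : S_LvH := tLvH 

theorem a_BdMax : S_BdMax := tBdMax a_PkOf a_LvC a_LvH a_D2A a_D2N

theorem a_BihT : S_BihT := tBihT 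

theorem a_Bnd : S_Bnd := tBnd 

theorem a_BsdP : S_BsdP := tBsdP 

theorem a_SymS : S_SymS := tSymS 

theorem a_SymB : S_SymB := tSymB 

theorem a_CayS : S_CayS := tCayS 

theorem a_BsdS : S_BsdS := tBsdS a_SymS a_SymB a_CayS

theorem a_Cplx : S_Cplx := pCplx 

theorem a_C1 : S_C1 := pC1 a_Cplx

theorem a_CC : S_CC := tCC 

theorem a_CayH : S_CayH := tCayH 

theorem a_Coc : S_Coc := tCoc 

theorem a_CovF : S_CovF := tCovF 

theorem a_QD : S_QD := tQD 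

theorem a_LLq : S_LLq := tLLq a_QD

theorem a_Cusp : S_Cusp := tCusp a_QD a_LLq

theorem a_DefE : S_DefE := tDefE a_Cplx

theorem a_DefT : S_DefT := tDefT 

theorem a_Dim : S_Dim := tDim 

theorem a_DimC : S_DimC := tDimC a_Dim

theorem a_DirS : S_DirS := tDirS 

theorem a_Fac : S_Fac := tFac 

theorem a_Hank : S_Hank := tHank 

theorem a_PSh : S_PSh := tPSh 

theorem a_Disc : S_Disc := tDisc a_Fac a_Hank a_PSh

theorem a_Div1 : S_Div1 := tDiv1 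

theorem a_DivN : S_DivN := tDivN a_Div1

theorem a_HP : S_HP := tHP 

theorem a_NorS : S_NorS := tNorS a_HP

theorem a_MinP : S_MinP := tMinP 

theorem a_PkS : S_PkS := tPkS 

theorem a_ScA1 : S_ScA1 := tScA1 a_NorS a_MinP a_PkS

theorem a_Lip : S_Lip := tLip 

theorem a_HLim : S_HLim := tHLim 

theorem a_Mon : S_Mon := tMon a_Asc a_Lip a_HLim

theorem a_Exh : S_Exh := tExh 

theorem a_Ident : S_Ident := tIdent 

theorem a_PeakL : S_PeakL := tPeakL a_Mon a_Exh a_Ident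

theorem a_Step : S_Step := tStep a_CovF

theorem a_Taut : S_Taut := tTaut a_Step a_Mon

theorem a_Scale : S_Scale := tScale a_PeakL a_Bnd a_Mon a_Taut a_Exh

theorem a_End1 : S_End1 := tEnd1 a_ScA1 a_Scale a_CayH a_BsdP a_BihT

theorem a_ScA2 : S_ScA2 := tScA2 a_NorS a_MinP a_PkS

theorem a_ScD : S_ScD := tScD a_HP a_MinP

theorem a_End2 : S_End2 := tEnd2 a_ScA2 a_ScD a_Scale a_CayH a_CayS a_BsdP a_BsdS a_BihT

theorem a_Hart : S_Hart := tHart 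

theorem a_LemH : S_LemH := tLemH a_Mon a_Ident

theorem a_EndB : S_EndB := tEndB a_Hart a_LemH

theorem a_ExA : S_ExA := tExA 

theorem a_ExO : S_ExO := tExO 

theorem a_ExB : S_ExB := tExB a_ExO

theorem a_ExC : S_ExC := tExC 

theorem a_Ext : S_Ext := tExt a_ExO a_ExA a_ExB a_ExC

theorem a_VRank : S_VRank := tVRank 

theorem a_VImp : S_VImp := tVImp 

theorem a_VFlat : S_VFlat := tVFlat 

theorem a_VSing : S_VSing := tVSing a_VRank a_VImp a_VFlat a_Dim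

theorem a_SA : S_SA := tSA 

theorem a_SgU : S_SgU := tSgU a_SA

theorem a_Sel : S_Sel := tSel 

theorem a_PkD : S_PkD := tPkD a_PkOf a_LvO a_LvH a_D2A a_D2N

theorem a_K0 : S_K0 := tK0 a_PkD

theorem a_SgQ : S_SgQ := pSgQ 

theorem a_KF : S_KF := tKF a_SgQ

theorem a_RDiv : S_RDiv := tRDiv a_Cplx a_DivN

theorem a_OneS : S_OneS := tOneS a_SgQ a_RDiv a_NoMax

theorem a_NF1 : S_NF1 := tNF1 

theorem a_LT1 : S_LT1 := tLT1 a_Sel a_K0 a_KF a_OneS a_NF1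

theorem a_F1 : S_F1 := tF1 a_VSing a_BdMax a_SgU a_LT1 a_End1

theorem a_K1 : S_K1 := tK1 a_PkD a_C1

theorem a_TRc : S_TRc := pTRc a_Cplx

theorem a_PkC : S_PkC := tPkC a_LvC a_LvO

theorem a_KC : S_KC := tKC a_PkD a_CC a_TRc a_PkC

theorem a_LevP : S_LevP := tLevP a_Tay

theorem a_NF2 : S_NF2 := tNF2 a_Tay

theorem a_Mv : S_Mv := tMv a_PkC

theorem a_LTE : S_LTE := tLTE 

theorem a_Ord : S_Ord := tOrd a_DivN

theorem a_PT : S_PT := tPT a_PkOf a_LvO a_LvH a_D2A a_D2N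

theorem a_StA : S_StA := tStA a_DefE a_Ord a_PT a_DirS a_PkD

theorem a_StB : S_StB := tStB a_DefT a_PkC

theorem a_LocB : S_LocB := tLocB a_Fac a_PSh

theorem a_GlobB : S_GlobB := tGlobB 

theorem a_MoP : S_MoP := tMoP 

theorem a_Rem : S_Rem := tRem 

theorem a_MoE : S_MoE := tMoE a_Rem

theorem a_Puis : S_Puis := tPuis a_Disc a_LocB a_GlobB a_MoP a_MoE a_DivN

theorem a_StdT : S_StdT := tStdT a_DefT a_PkC

theorem a_W1 : S_W1 := tW1 a_Puis a_PkD a_StdT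

theorem a_W2 : S_W2 := tW2 a_DivN a_PkD a_StdT

theorem a_WR : S_WR := tWR a_PkC

theorem a_PosD : S_PosD := tPosD 

theorem a_RId : S_RId := tRId 

theorem a_RSa : S_RSa := tRSa a_RId

theorem a_RSw : S_RSw := tRSw 

theorem a_RS : S_RS := tRS a_RSa a_RSw

theorem a_TDw : S_TDw := tTDw 

theorem a_WP0 : S_WP0 := tWP0 a_NF2

theorem a_LvG : S_LvG := tLvG 

theorem a_WPt : S_WPt := tWPt a_WP0 a_LvG a_LLq a_D2A

theorem a_TR : S_TR :=
  tTRa a_StA a_StB a_W1 a_W2 a_WR a_PosD a_RS a_Ext a_TDw a_Cusp a_WPt a_LTE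

theorem a_LT2 : S_LT2 := tLT2 a_Sel a_K0 a_K1 a_KC a_KF a_OneS a_LevP a_NF2 a_Mv a_LTE a_TR

theorem a_F2 : S_F2 := tF2 a_VSing a_BdMax a_SgU a_LT2 a_End2 a_EndB

theorem a_Pt : S_Pt := tPt a_BsdP

theorem a_Main : S_Main := tMain a_DimC a_Coc a_Pt a_F1 a_F2

end KP
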