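import Mathlib
import Pool.Agent.Lib.Osgood

/-!
# KP (MP_64edc4_ag): bounded semialgebraic domains with compact quotients, definitions
-/

set_option autoImplicit false

open Set Filter Topology Metric

namespace KP

/-- The complex coordinate space, with the maximum norm. -/
abbrev Cn (n : ℕ) := Fin n → ℂ

/-- The square of the Euclidean norm. -/
noncomputable def nsq {n : ℕ} (z : Cn n) : ℝ := ∑ i, Complex.normSq (z i)

/-- The affine variety defined by a set of polynomials. -/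
def zeroSet {N : ℕ} (I : Set (MvPolynomial (Fin N) ℂ)) : Set (Cn N) :=
  {z | ∀ p ∈ I, MvPolynomial.eval z p = 0}

/-- A local holomorphic parametrization `psi : W → V ∩ O` of `V`, `W` open in `ℂⁿ`, with the
holomorphic left inverse `pi : O → ℂⁿ`. -/
structure Chart {N : ℕ} (V : Set (Cn N)) (n : ℕ) where
  W : Set (Cn n)
  O : Set (Cn N)
  psi : Cn n → Cn N
  pi : Cn N → Cn n
  hW : IsOpen W
  hO : IsOpen O
  hpsi : DifferentiableOn ℂ psi W
  hpi : DifferentiableOn ℂ pi O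
  img : psi '' W = V ∩ O
  left : ∀ w ∈ W, pi (psi w) = w

/-- Near its point `z` the set `V` is a complex submanifold of dimension `n`. -/
def SmoothAt {N : ℕ} (V : Set (Cn N)) (n : ℕ) (z : Cn N) : Prop :=
  z ∈ V ∧ ∃ c : Chart V n, z ∈ c.O

/-- `f` is holomorphic on the set `U`: locally the restriction of a holomorphic map which is
defined on an open set. -/
def HolOn {N : ℕ} {F : Type} [NormedAddCommGroup F] [NormedSpace ℂ F] (f : Cn N → F)
    (U : Set (Cn N)) : Prop :=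
  ∀ z ∈ U, ∃ O : Set (Cn N), IsOpen O ∧ z ∈ O ∧ ∃ g : Cn N → F, DifferentiableOn ℂ g O ∧
    ∀ x ∈ O ∩ U, f x = g x

/-- `U` and `D` are biholomorphic. -/
def Biholo {N m : ℕ} (U : Set (Cn N)) (D : Set (Cn m)) : Prop :=
  ∃ (f : Cn N → Cn m) (g : Cn m → Cn N), HolOn f U ∧ HolOn g D ∧ MapsTo f U D ∧ MapsTo g D U ∧
    (∀ x ∈ U, g (f x) = x) ∧ ∀ y ∈ D, f (g y) = y

/-- Bounded symmetric domains. -/
def IsBSD {n : ℕ} (D : Set (Cn n)) : Prop :=
  IsOpen D ∧ IsConnected D ∧ Bornology.IsBounded D ∧ ∀ p ∈ D, ∃ s : Cn n → Cn n, HolOn s D ∧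
    MapsTo s D D ∧ (∀ x ∈ D, s (s x) = x) ∧ s p = p ∧ ∃ O ∈ 𝓝 p, ∀ x ∈ O ∩ D, s x = x → x = p

/-- The real coordinates of `z`. -/
def reim {N : ℕ} (z : Cn N) : Fin N ⊕ Fin N → ℝ :=
  Sum.elim (fun i => (z i).re) (fun i => (z i).im)

/-- Semialgebraic sets: finite Boolean combinations of sets `p > 0` and `p = 0`. -/
inductive SemiAlg {N : ℕ} : Set (Cn N) → Prop
  | pos (p : MvPolynomial (Fin N ⊕ Fin N) ℝ) : SemiAlg {z | 0 < MvPolynomial.eval (reim z) p}
  | zero (p : MvPolynomial (Fin N ⊕ Fin N) ℝ) : SemiAlg {z | MvPolynomial.eval (reim z) p = 0}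
  | compl {A : Set (Cn N)} : SemiAlg A → SemiAlg Aᶜ
  | inter {A B : Set (Cn N)} : SemiAlg A → SemiAlg B → SemiAlg (A ∩ B)

/-- `U` is a connected bounded open subset of the affine variety `V`, contained in the set of the
points where `V` is a submanifold of dimension `n`. -/
structure IsDom {N : ℕ} (I : Set (MvPolynomial (Fin N) ℂ)) (n : ℕ) (U : Set (Cn N)) : Prop where
  opn : ∃ O : Set (Cn N), IsOpen O ∧ U = zeroSet I ∩ O
  smooth : ∀ z ∈ U, SmoothAt (zeroSet I) n z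
  conn : IsConnected U
  bdd : Bornology.IsBounded U

/-- `G` is a set of automorphisms of `U`, closed under inverses, and every point of `U` has a
neighbourhood which some element of `G` maps into the compact set `K`. -/
structure CoCpt {N : ℕ} (U : Set (Cn N)) (G : Set (Cn N → Cn N)) (K : Set (Cn N)) : Prop where
  hol : ∀ g ∈ G, HolOn g U
  maps : ∀ g ∈ G, MapsTo g U U
  inv : ∀ g ∈ G, ∃ h ∈ G, (∀ x ∈ U, h (g x) = x) ∧ ∀ x ∈ U, g (h x) = x
  cpt : IsCompact K
  sub : K ⊆ U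
  cov : ∀ x ∈ U, ∃ g ∈ G, ∀ᶠ y in 𝓝 x, y ∈ U → g y ∈ K

/-- The part of `W` which the parametrization maps into `U`. -/
def Chart.pre {N n : ℕ} {V : Set (Cn N)} (c : Chart V n) (U : Set (Cn N)) : Set (Cn n) :=
  {w | w ∈ c.W ∧ c.psi w ∈ U}

/-! ## Basic properties -/

variable {N n m : ℕ} {F : Type} [NormedAddCommGroup F] [NormedSpace ℂ F]

theorem HolOn.mono {f : Cn N → F} {U U' : Set (Cn N)} (hf : HolOn f U) (h : U' ⊆ U) :
    HolOn f U' := by
  intro z hz
  obtain ⟨O, hO, hzO, g, hg, hfg⟩ := hf z (h hz)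
  exact ⟨O, hO, hzO, g, hg, fun x hx => hfg x ⟨hx.1, h hx.2⟩⟩

theorem HolOn.congr {f f' : Cn N → F} {U : Set (Cn N)} (hf : HolOn f U)
    (h : ∀ x ∈ U, f' x = f x) : HolOn f' U := by
  intro z hz
  obtain ⟨O, hO, hzO, g, hg, hfg⟩ := hf z hz
  exact ⟨O, hO, hzO, g, hg, fun x hx => (h x hx.2).trans (hfg x hx)⟩

theorem HolOn.continuousOn {f : Cn N → F} {U : Set (Cn N)} (hf : HolOn f U) :
    ContinuousOn f U := by
  intro z hz
  obtain ⟨O, hO, hzO, g, hg, hfg⟩ := hf z hz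
  have h1 : ContinuousWithinAt g U z :=
    (hg.continuousOn.continuousAt (hO.mem_nhds hzO)).continuousWithinAt
  refine h1.congr_of_eventuallyEq ?_ (hfg z ⟨hzO, hz⟩)
  filter_upwards [mem_nhdsWithin_of_mem_nhds (hO.mem_nhds hzO), self_mem_nhdsWithin] with x h2 h3
  exact hfg x ⟨h2, h3⟩

theorem HolOn.comp {f : Cn N → Cn m} {g : Cn m → F} {U : Set (Cn N)} {U' : Set (Cn m)}
    (hg : HolOn g U') (hf : HolOn f U) (h : MapsTo f U U') : HolOn (fun x => g (f x)) U := by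
  intro z hz
  obtain ⟨O, hO, hzO, f1, hf1, hff⟩ := hf z hz
  obtain ⟨O', hO', hzO', g1, hg1, hgg⟩ := hg (f z) (h hz)
  refine ⟨O ∩ f1 ⁻¹' O', hf1.continuousOn.isOpen_inter_preimage hO hO',
    ⟨hzO, by rw [mem_preimage, ← hff z ⟨hzO, hz⟩]; exact hzO'⟩, fun x => g1 (f1 x), ?_, ?_⟩
  · exact hg1.comp (hf1.mono inter_subset_left) (fun x hx => hx.2)
  · rintro x ⟨⟨hx1, hx2⟩, hxU⟩
    have h1 := hff x ⟨hx1, hxU⟩
    change g (f x) = g1 (f1 x)
    rw [h1]
    exact (hgg (f1 x) ⟨hx2, h1 ▸ h hxU⟩)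

theorem holOn_iff {f : Cn N → F} {U : Set (Cn N)} (hU : IsOpen U) :
    HolOn f U ↔ DifferentiableOn ℂ f U := by
  constructor
  · intro hf z hz
    obtain ⟨O, hO, hzO, g, hg, hfg⟩ := hf z hz
    have h1 : DifferentiableAt ℂ g z := (hg z hzO).differentiableAt (hO.mem_nhds hzO)
    refine (h1.congr_of_eventuallyEq ?_).differentiableWithinAt
    filter_upwards [hO.mem_nhds hzO, hU.mem_nhds hz] with x h2 h3
    exact hfg x ⟨h2, h3⟩
  · intro hf z hz
    exact ⟨U, hU, hz, f, hf, fun _ _ => rfl⟩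

theorem Chart.psi_mem {V : Set (Cn N)} (c : Chart V n) {w : Cn n} (hw : w ∈ c.W) :
    c.psi w ∈ V ∩ c.O := c.img ▸ mem_image_of_mem c.psi hw

theorem Chart.right {V : Set (Cn N)} (c : Chart V n) {z : Cn N} (hz : z ∈ V) (hO : z ∈ c.O) :
    c.pi z ∈ c.W ∧ c.psi (c.pi z) = z := by
  have : z ∈ c.psi '' c.W := by rw [c.img]; exact ⟨hz, hO⟩
  obtain ⟨w, hw, rfl⟩ := this
  rw [c.left w hw]
  exact ⟨hw, rfl⟩

/-- The identity as a chart of an open subset of `ℂⁿ`. -/
def Chart.idc (O : Set (Cn n)) (hO : IsOpen O) : Chart (univ : Set (Cn n)) n where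
  W := O
  O := O
  psi := id
  pi := id
  hW := hO
  hO := hO
  hpsi := differentiableOn_id
  hpi := differentiableOn_id
  img := by simp
  left := fun _ _ => rfl

/-- Composition of a chart with a change of coordinates. -/
def Chart.comp {V : Set (Cn N)} (c : Chart V n) (e : Chart (univ : Set (Cn n)) n) :
    Chart V n where
  W := e.W ∩ e.psi ⁻¹' c.W
  O := c.O ∩ c.pi ⁻¹' e.O
  psi := fun w => c.psi (e.psi w)
  pi := fun z => e.pi (c.pi z)
  hW := e.hpsi.continuousOn.isOpen_inter_preimage e.hW c.hW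
  hO := c.hpi.continuousOn.isOpen_inter_preimage c.hO e.hO
  hpsi := c.hpsi.comp (e.hpsi.mono inter_subset_left) (fun _ hx => hx.2)
  hpi := e.hpi.comp (c.hpi.mono inter_subset_left) (fun _ hx => hx.2)
  img := by
    ext z
    constructor
    · rintro ⟨w, ⟨hw, hw'⟩, rfl⟩
      have h1 := c.psi_mem hw'
      refine ⟨h1.1, h1.2, ?_⟩
      rw [mem_preimage, c.left _ hw']
      exact (e.psi_mem hw).2
    · rintro ⟨hV, hO, hO'⟩
      obtain ⟨h1, h2⟩ := c.right hV hO
      obtain ⟨h3, h4⟩ := e.right (mem_univ _) hO'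
      refine ⟨e.pi (c.pi z), ⟨h3, ?_⟩, ?_⟩
      · rw [mem_preimage, h4]; exact h1
      · dsimp only
        rw [h4, h2]
  left := by
    rintro w ⟨hw, hw'⟩
    rw [c.left _ hw', e.left _ hw]

theorem Chart.comp_pre {V : Set (Cn N)} (c : Chart V n) (e : Chart (univ : Set (Cn n)) n)
    (U : Set (Cn N)) : (c.comp e).pre U = e.pre (c.pre U) := by
  ext w
  simp [Chart.pre, Chart.comp, and_assoc]

theorem IsDom.isOpen_pre {I : Set (MvPolynomial (Fin N) ℂ)} {U : Set (Cn N)} (hU : IsDom I n U)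
    (c : Chart (zeroSet I) n) : IsOpen (c.pre U) := by
  obtain ⟨O, hO, rfl⟩ := hU.opn
  have : c.pre (zeroSet I ∩ O) = c.W ∩ c.psi ⁻¹' O := by
    ext w
    constructor
    · rintro ⟨h1, h2⟩
      exact ⟨h1, h2.2⟩
    · rintro ⟨h1, h2⟩
      exact ⟨h1, (c.psi_mem h1).1, h2⟩
  rw [this]
  exact c.hpsi.continuousOn.isOpen_inter_preimage c.hW hO

theorem isClosed_zeroSet (I : Set (MvPolynomial (Fin N) ℂ)) : IsClosed (zeroSet I) := by
  have : zeroSet I = ⋂ p ∈ I, {z : Cn N | MvPolynomial.eval z p = 0} := by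
    ext z; simp [zeroSet]
  rw [this]
  refine isClosed_biInter fun p _ => isClosed_eq ?_ continuous_const
  exact MvPolynomial.continuous_eval p

end KP
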