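import Pool.Agent.Lib.KP.SpecF

/-!
# KP (MP_64edc4_ag), the theorem for groups in an arbitrary universe
-/

set_option autoImplicit false

open Set Filter Topology Metric

namespace KP

universe u

theorem main_univ (hM : S_Main) (N : ℕ) (I : Set (MvPolynomial (Fin N) ℂ)) (U : Set (Cn N))
    (hopen : ∃ O : Set (Cn N), IsOpen O ∧ U = zeroSet I ∩ O) (hconn : IsConnected U)
    (hbdd : Bornology.IsBounded U) (hsemi : SemiAlg U)
    (hreg : ∀ z ∈ U, ∃ n ≤ 2, SmoothAt (zeroSet I) n z)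
    (Γ : Type u) [Group Γ] [MulAction Γ U]
    (hhol : ∀ γ : Γ, ∃ f : Cn N → Cn N, HolOn f U ∧ ∀ u : U, f u = ((γ • u : U) : Cn N))
    (hcpt : CompactSpace (Quotient (MulAction.orbitRel Γ U))) :
    ∃ n ≤ 2, (∀ z ∈ U, SmoothAt (zeroSet I) n z) ∧
      ∃ D : Set (Cn n), IsBSD D ∧ Biholo U D := by
  let φ : Γ →* Equiv.Perm U := MulAction.toPermHom Γ U
  have hφ : ∀ (γ : Γ) (u : U), φ γ u = γ • u := fun γ u => rfl
  have h1 : ∀ γ : φ.range, ∃ f : Cn N → Cn N, HolOn f U ∧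
      ∀ u : U, f u = ((γ • u : U) : Cn N) := by
    rintro ⟨g, γ, rfl⟩
    obtain ⟨f, hf, hf'⟩ := hhol γ
    exact ⟨f, hf, fun u => hf' u⟩
  have h2 : MulAction.orbitRel φ.range U = MulAction.orbitRel Γ U := by
    ext x y
    rw [MulAction.orbitRel_apply, MulAction.orbitRel_apply]
    constructor
    · rintro ⟨⟨g, γ, rfl⟩, h⟩
      exact ⟨γ, h⟩
    · rintro ⟨γ, h⟩
      exact ⟨⟨φ γ, γ, rfl⟩, h⟩
  have h3 : CompactSpace (Quotient (MulAction.orbitRel φ.range U)) := by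
    rw [h2]; exact hcpt
  obtain ⟨n, D, hn, hn', hD, hD'⟩ := hM N I U hopen hconn hbdd hsemi hreg φ.range h1 h3
  exact ⟨n, hn, hn', D, hD, hD'⟩

end KP
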