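import Pool.Agent.Lib.KP.SpecW

/-!
# KP (MP_64edc4_ag), block F: conclusion
-/

set_option autoImplicit false

open Set Filter Topology Metric

namespace KP

/-- **F1.** Dimension one. Uses `VSing`, `BdMax`, `SgU`, `LT1`, `End1`.

PROOF. `VSing`: `J`, `g`; `BdMax`: a chart `c` of `zeroSet J` with `0 ∈ c.W`, `0 ∈ Pk (c.pre U)`. `ball 0 r ⊆ c.W`; `Sgn (c.pre U) (ball 0 r)` (restriction of `SgU`), `c.pre U` is open (`IsDom.isOpen_pre`). `LT1`: `e, R, ρ`. The chart `c.comp e` has `W = e.W ∩ e.psi ⁻¹' c.W = e.W` (`e.psi '' e.W ⊆ ball 0 r`), `(c.comp e).pre U = e.pre (c.pre U)` (`Chart.comp_pre`), so `BdR (c.comp e) U R`; `End1` with `J`. -/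
def S_F1 : Prop := ∀ (N : ℕ) (I : Set (MvPolynomial (Fin N) ℂ)) (U : Set (Cn N))
  (G : Set (Cn N → Cn N)) (K : Set (Cn N)), IsDom I 1 U → CoCpt U G K → SemiAlg U →
    ∃ D : Set (Cn 1), IsBSD D ∧ Biholo U D

/-- **F2.** Dimension two. Uses `VSing`, `BdMax`, `SgU`, `LT2`, `End2`, `EndB`.

PROOF. As `F1` with `LT2`: if `TypeA2 R` or `TypeD R`: `End2`. If `TypeB2 R`: `EndB` with the chart `c.comp e`: `(c.comp e).psi 0 = c.psi (e.psi 0) ∉ U` because `e.psi 0 ∉ c.pre U` and `e.psi 0 ∈ c.W`. -/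
def S_F2 : Prop := ∀ (N : ℕ) (I : Set (MvPolynomial (Fin N) ℂ)) (U : Set (Cn N))
  (G : Set (Cn N → Cn N)) (K : Set (Cn N)), IsDom I 2 U → CoCpt U G K → SemiAlg U →
    ∃ D : Set (Cn 2), IsBSD D ∧ Biholo U D

/-- **Main.** The theorem. Uses `DimC`, `Coc`, `Pt`, `F1`, `F2`. -/
def S_Main : Prop := ∀ (N : ℕ) (I : Set (MvPolynomial (Fin N) ℂ)) (U : Set (Cn N)),
  (∃ O : Set (Cn N), IsOpen O ∧ U = zeroSet I ∩ O) → IsConnected U → Bornology.IsBounded U →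
  SemiAlg U → (∀ z ∈ U, ∃ n ≤ 2, SmoothAt (zeroSet I) n z) →
  ∀ (Γ : Type) [Group Γ] [MulAction Γ U],
    (∀ γ : Γ, ∃ f : Cn N → Cn N, HolOn f U ∧ ∀ u : U, f u = ((γ • u : U) : Cn N)) →
    CompactSpace (Quotient (MulAction.orbitRel Γ U)) →
    ∃ (n : ℕ) (D : Set (Cn n)), n ≤ 2 ∧ (∀ z ∈ U, SmoothAt (zeroSet I) n z) ∧ IsBSD D ∧ Biholo U D

theorem tMain (h1 : S_DimC) (h2 : S_Coc) (h3 : S_Pt) (h4 : S_F1) (h5 : S_F2) : S_Main := by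
  intro N I U hO hc hb hs hd Γ _ _ hG hq
  have hUV : U ⊆ zeroSet I := by
    obtain ⟨O, -, h⟩ := hO
    rw [h]; exact inter_subset_left
  obtain ⟨n, hn, hn'⟩ := h1 N 2 (zeroSet I) U hUV hc hd
  have hU : IsDom I n U := ⟨hO, hn', hc, hb⟩
  obtain ⟨G, K, hGK⟩ := h2 N n I U hU Γ hG hq
  interval_cases n
  · obtain ⟨D, hD, hD'⟩ := h3 N I U hU
    exact ⟨0, D, hn, hn', hD, hD'⟩
  · obtain ⟨D, hD, hD'⟩ := h4 N I U G K hU hGK hs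
    exact ⟨1, D, hn, hn', hD, hD'⟩
  · obtain ⟨D, hD, hD'⟩ := h5 N I U G K hU hGK hs
    exact ⟨2, D, hn, hn', hD, hD'⟩

end KP
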