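import Pool.Agent.Lib.KP.Defs

/-!
# KP (MP_64edc4_ag), block G: normal families, tautness, scaling, extension
-/

set_option autoImplicit false

open Set Filter Topology Metric

namespace KP

/-- `U'` is a relatively open subset of `U`. -/
def ROpen {N : ℕ} (U' U : Set (Cn N)) : Prop := ∃ O : Set (Cn N), IsOpen O ∧ U' = U ∩ O

/-- **Ident.** Identity theorem on submanifolds.

PROOF. `A = {z ∈ U | ∀ᶠ y in 𝓝 z, y ∈ U → f y = g y}` is relatively open in `U`, `z0 ∈ A`. It is relatively closed: let `z ∈ U` be in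
the closure of `A`, `c` a chart at `z`, `w0 = c.pi z`. `c.pre U` is open (as in `IsDom.isOpen_pre`; `U = V ∩ O`), let `B = ball w0 r ⊆ c.pre U`. The maps `f ∘ c.psi`,
`g ∘ c.psi` are `DifferentiableOn ℂ` on `B` (`HolOn.comp`, `holOn_iff`), hence analytic there (`Osgood.analyticOnNhd`). Points `a ∈ A` close to `z` have `c.pi a ∈ B`
(`c.pi` is continuous at `z`), and the two maps agree near `c.pi a` (`c.psi` is continuous). By `AnalyticOnNhd.eqOn_of_preconnected_of_eventuallyEq` they agree on `B`; so `f = g` at all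
points `y ∈ U` near `z` (`y = c.psi (c.pi y)`). Conclude with `IsPreconnected` (e.g. `IsPreconnected.subset_of_closure_inter_subset`). -/
def S_Ident : Prop := ∀ (N n m : ℕ) (V U : Set (Cn N)), ROpen U V → (∀ z ∈ U, SmoothAt V n z) →
  IsPreconnected U → ∀ f g : Cn N → Cn m, HolOn f U → HolOn g U → ∀ z0 ∈ U,
    (∀ᶠ y in 𝓝 z0, y ∈ U → f y = g y) → ∀ y ∈ U, f y = g y

/-- **Asc.** Arzela-Ascoli for locally equi-Lipschitz sequences.

PROOF. Let `S ⊆ U` be countable and dense in `U` (`TopologicalSpace.exists_countable_dense`-like for subsets of a second countable space). For `s ∈ S` the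
sequence `f j s` is bounded (by `C` for `j ≥ k`, finitely many others), so `j ↦ (s ↦ f j s)` lies in a product of closed balls, compact (`isCompact_univ_pi`) in the first countable space
`S → Cn m`; `IsCompact.tendsto_subseq` gives `φ` such that `f (φ j) s` converges for all `s ∈ S`. Let `x ∈ U`, `r, C, k` as in the hypothesis (wlog `C > 0`), `ε > 0`,
`r' = min r (ε / (8 C))`, `s ∈ S ∩ ball x r'`. For `y ∈ ball x r' ∩ U` and `i, j` large `‖f (φ i) y - f (φ j) y‖ ≤ 4 C r' + ‖f (φ i) s - f (φ j) s‖ < ε`. So for every `ε` every point of `U` has a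
neighbourhood on which the sequence is eventually `ε`-Cauchy; by compactness `UniformCauchySeqOn` on every compact `Q ⊆ U`. `F y =` the limit at `y` (`limUnder` or choice),
`UniformCauchySeqOn.tendstoUniformlyOn_of_tendsto`. -/
def S_Asc : Prop := ∀ (N m : ℕ) (U : Set (Cn N)) (f : ℕ → Cn N → Cn m),
  (∀ x ∈ U, ∃ r > 0, ∃ (C : ℝ) (k : ℕ), ∀ j ≥ k, ∀ y ∈ ball x r ∩ U, ‖f j y‖ ≤ C ∧
    ∀ y' ∈ ball x r ∩ U, ‖f j y - f j y'‖ ≤ C * ‖y - y'‖) →
  ∃ φ : ℕ → ℕ, StrictMono φ ∧ ∃ F : Cn N → Cn m, ∀ Q ⊆ U, IsCompact Q →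
    TendstoUniformlyOn (fun j => f (φ j)) F atTop Q

/-- **Lip.** Cauchy estimates on submanifolds.

PROOF. `c` a chart at `z`, `w0 = c.pi z`; `c.pre U'` is open, `ball w0 (2 ρ) ⊆ c.pre U'`. For `f` as in the statement `h = f ∘ c.psi` is `DifferentiableOn ℂ` and
bounded by `M` on `ball w0 (2 ρ)`, so `‖fderiv ℂ h‖ ≤ M / ρ` on `ball w0 ρ` (`Osgood.norm_fderiv_le`), so `h` is Lipschitz with constant `M / ρ` there (`Convex.norm_image_sub_le_of_norm_fderiv_le`). In the same way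
`c.pi` is Lipschitz on a ball `ball z r` (it is continuous at `z`, hence bounded on a ball). For `r` small `c.pi (ball z r) ⊆ ball w0 ρ`, and `f y = h (c.pi y)` for `y ∈ ball z r ∩ U`. -/
def S_Lip : Prop := ∀ (N n m : ℕ) (V U U' : Set (Cn N)), ROpen U V → ROpen U' U → ∀ z ∈ U',
  SmoothAt V n z → ∀ M : ℝ, ∃ r > 0, ∃ C : ℝ, ∀ f : Cn N → Cn m, HolOn f U' →
    (∀ x ∈ U', ‖f x‖ ≤ M) → ∀ y ∈ ball z r ∩ U, ∀ y' ∈ ball z r ∩ U, ‖f y - f y'‖ ≤ C * ‖y - y'‖

/-- **HLim.** Locally uniform limits of holomorphic maps are holomorphic.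

PROOF. `z ∈ U`, `c` a chart at `z`, `w0 = c.pi z`, `B` a closed ball around `w0` in `c.pre U'`. The image `c.psi '' B` is compact in `U`, so `f j ∘ c.psi → F ∘ c.psi` uniformly on `B`;
the limit is `DifferentiableOn ℂ` on the interior of `B` (for several variables: the derivatives are uniformly Cauchy by `Osgood.norm_fderiv_le`, `hasFDerivAt_of_tendstoUniformlyOn`; a complete proof
is in `Pool/Agent/Lib/MP_c2a04f_an/HolLim.lean`, copy it). Near `z`, on `U`: `F = (F ∘ c.psi) ∘ c.pi`. -/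
def S_HLim : Prop := ∀ (N n m : ℕ) (V U : Set (Cn N)), ROpen U V → (∀ z ∈ U, SmoothAt V n z) →
  ∀ (f : ℕ → Cn N → Cn m) (F : Cn N → Cn m),
    (∀ z ∈ U, ∃ U', z ∈ U' ∧ ROpen U' U ∧ ∀ᶠ j in atTop, HolOn (f j) U') →
    (∀ Q ⊆ U, IsCompact Q → TendstoUniformlyOn f F atTop Q) → HolOn F U

/-- **Mon.** Montel's theorem. Follows from `Asc`, `Lip`, `HLim`.

PROOF. Let `x ∈ U`, `x ∈ Um k`, `M` the bound; `Lip` (`U' = Um k`) gives `r, C`; decrease `r` such that `ball x r ∩ U ⊆ Um k`. So the hypothesis of `Asc` holds with `max C M`. `HLim` for the subsequence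
(`U' = Um k`). -/
def S_Mon : Prop := ∀ (N n m : ℕ) (V U : Set (Cn N)), ROpen U V → (∀ z ∈ U, SmoothAt V n z) →
  ∀ (f : ℕ → Cn N → Cn m) (Um : ℕ → Set (Cn N)), (∀ k, ROpen (Um k) U) → (⋃ k, Um k) = U →
    (∀ k, ∃ M : ℝ, ∀ᶠ j in atTop, HolOn (f j) (Um k) ∧ ∀ x ∈ Um k, ‖f j x‖ ≤ M) →
    ∃ φ : ℕ → ℕ, StrictMono φ ∧ ∃ F : Cn N → Cn m, HolOn F U ∧ ∀ Q ⊆ U, IsCompact Q →
      TendstoUniformlyOn (fun j => f (φ j)) F atTop Q

/-- **CovF.** PROOF. `CoCpt.cov` and compactness (`IsCompact.elim_nhds_subcover`). -/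
def S_CovF : Prop := ∀ (N : ℕ) (U : Set (Cn N)) (G : Set (Cn N → Cn N)) (K : Set (Cn N)),
  CoCpt U G K → ∀ Q ⊆ U, IsCompact Q → ∃ S : Finset (Cn N → Cn N), (∀ g ∈ S, g ∈ G) ∧
    ∀ x ∈ Q, ∃ g ∈ S, g x ∈ K

/-- **Step.** Discs of a fixed small size stay in compact sets. Uses `CovF`.

PROOF. Let `U = zeroSet I ∩ O`. `K` is compact in the open set `O`, so there is `r > 0` with `Metric.cthickening r K ⊆ O`; `K' = Metric.cthickening r K ∩ zeroSet I` is compact, `K' ⊆ U`. `U` is bounded, `‖x‖ ≤ M` on `U`, `M > 0`. A disc `f`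
(holomorphic on `ball 0 1` with values in `U`) satisfies `‖f t - f 0‖ ≤ 4 M ‖t‖` for `‖t‖ ≤ 1/2` (Cauchy estimate for the derivative on `ball 0 (1/2)`, mean value inequality). Let
`δ = min (1/2) (r / (4 M))`. So `f 0 ∈ K` implies `f t ∈ K'` for `‖t‖ ≤ δ` (`‖f t - f 0‖ ≤ r`). Now let `Q ⊆ U` be compact, `S` from `CovF`, `h_g ∈ G` the inverse of `g ∈ S` (`CoCpt.inv`).
`Q' = Q ∪ ⋃_{g ∈ S} h_g '' K'`, compact in `U` (`h_g` is continuous on `U`, `HolOn.continuousOn`). If `f 0 ∈ Q`, `g (f 0) ∈ K`, `g ∈ S`, then `g ∘ f` is a disc in `U` (`HolOn.comp`, `holOn_iff`; use `Cn 1` or directly a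
local extension of `g`), so `g (f t) ∈ K'` and `f t = h_g (g (f t)) ∈ Q'`. -/
def S_Step : Prop := ∀ (N n : ℕ) (I : Set (MvPolynomial (Fin N) ℂ)) (U : Set (Cn N))
  (G : Set (Cn N → Cn N)) (K : Set (Cn N)), IsDom I n U → CoCpt U G K →
    ∃ δ : ℝ, 0 < δ ∧ δ < 1 ∧ ∀ Q ⊆ U, IsCompact Q → ∃ Q' ⊆ U, IsCompact Q' ∧ Q ⊆ Q' ∧
      ∀ f : ℂ → Cn N, DifferentiableOn ℂ f (ball 0 1) → MapsTo f (ball 0 1) U → f 0 ∈ Q →
        ∀ t : ℂ, ‖t‖ ≤ δ → f t ∈ Q'

/-- **Taut.** Uses `Step`, `Mon`.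

PROOF. Let `A` be the set of all `x ∈ D` such that there are a neighbourhood `B` of `x` and a compact `Q' ⊆ U` with `F j '' B ⊆ Q'` for `j` large. `A` is open. Claim: if `closedBall y r ⊆ D`, `r > 0`, `δ` from `Step`, and there is a
compact `Q ⊆ U` with `F j y ∈ Q` for `j` large, then `ball y (δ r) ⊆ A`, more precisely `F j '' ball y (δ r) ⊆ Q'` for `j` large: for `‖x - y‖ < δ r` write `x = y + t • v` with `‖v‖ < r`, `‖t‖ ≤ δ` (`t = δ`, `v = (x - y)/δ`) and apply `Step` to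
`f t = F j (y + t • v)` (`F j` is holomorphic on an open set containing `closedBall y r` and maps it into `U`, `j` large). So `x0 ∈ A` (`Q = K`), and `A` is closed in `D`: if `x ∈ D ∩ closure A`, `closedBall x (2 r) ⊆ D`, take
`y ∈ A` with `dist x y < δ r`, then `x ∈ ball y (δ r)`, `closedBall y r ⊆ D`. So `A = D` (`IsPreconnected`), and by compactness for every compact `Q ⊆ D` there is a compact `Q' ⊆ U` with `F j '' Q ⊆ Q'` for `j` large.
Exhaust `D` by the open sets `Um k = {x ∈ D | ‖x‖ < k, infDist x Dᶜ > 1/k}` (or `D ∩ ball` if `D = univ`); their closures are compact in `D` (for `Dᶜ = ∅` just the balls), so `F j` is holomorphic on `Um k` and bounded for `j` large. `Mon` with `V = univ`, `U = D`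
(charts `Chart.idc`). The limit maps `x` into the compact set `Q'` of its neighbourhood, a subset of `U`. -/
def S_Taut : Prop := ∀ (N n m : ℕ) (I : Set (MvPolynomial (Fin N) ℂ)) (U : Set (Cn N))
  (G : Set (Cn N → Cn N)) (K : Set (Cn N)), IsDom I n U → CoCpt U G K →
    ∀ (D : Set (Cn m)) (x0 : Cn m), IsOpen D → IsPreconnected D → x0 ∈ D →
    ∀ F : ℕ → Cn m → Cn N, (∀ Q ⊆ D, IsCompact Q → ∀ᶠ j in atTop, ∃ O : Set (Cn m), IsOpen O ∧
      Q ⊆ O ∧ DifferentiableOn ℂ (F j) O ∧ MapsTo (F j) O U) → (∀ j, F j x0 ∈ K) →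
    ∃ φ : ℕ → ℕ, StrictMono φ ∧ ∃ F' : Cn m → Cn N, DifferentiableOn ℂ F' D ∧ MapsTo F' D U ∧
      ∀ Q ⊆ D, IsCompact Q → TendstoUniformlyOn (fun j => F (φ j)) F' atTop Q

/-- **Exh.** Exhaustion by connected sets.

PROOF. `U = zeroSet I ∩ O`. Every `x ∈ U` has a connected relatively open neighbourhood `B_x ∋ x` whose closure is compact and contained in `U`: a chart `c` at `x`, a closed ball `closedBall (c.pi x) r ⊆ c.pre U`,
`B_x = c.psi '' ball (c.pi x) r = {y ∈ U ∩ O' | c.pi y ∈ ball (c.pi x) r}` (`O' = c.O`; relatively open), its closure lies in the compact set `c.psi '' closedBall (c.pi x) r ⊆ U`. `U` is second countable, so countably many `B_i`, `i : ℕ`, cover `U` (Lindelof), `k0 ∈ B_0`.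
Call `i` reachable in `k` steps within `{0..k}`... Define `S_0 = {0}`, `S_{k+1} = S_k ∪ {i ≤ k + 1 | B_i ∩ ⋃_{j ∈ S_k} B_j ≠ ∅}`, `Um k = ⋃_{j ∈ S_k} B_j`: finite unions, connected by induction, increasing. The union `A` of all `Um k` is relatively open; if `x ∈ U` is in the closure of `A`, `x ∈ B_i`, then
`B_i` meets `A`, so it meets `Um k` for all large `k`, and `i ∈ S_{k+1}` for `k + 1 ≥ i`; so `x ∈ A`. `U` is connected, `A = U`. -/
def S_Exh : Prop := ∀ (N n : ℕ) (I : Set (MvPolynomial (Fin N) ℂ)) (U : Set (Cn N)),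
  IsDom I n U → ∀ k0 ∈ U, ∃ Um : ℕ → Set (Cn N), Monotone Um ∧ (⋃ k, Um k) = U ∧
    ∀ k, ROpen (Um k) U ∧ k0 ∈ Um k ∧ IsConnected (Um k) ∧ IsCompact (closure (Um k)) ∧
      closure (Um k) ⊆ U

/-- `R` is a union of connected components of the part of `c.pre U` in a small ball (at a boundary
point of `U`, which has the coordinate `0`). -/
structure BdR {N n : ℕ} {V : Set (Cn N)} (c : Chart V n) (U : Set (Cn N)) (R : Set (Cn n)) :
    Prop where
  zero : (0 : Cn n) ∈ c.W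
  rad : ∃ ρ > 0, ball (0 : Cn n) ρ ⊆ c.W ∧ R ⊆ c.pre U ∩ ball 0 ρ ∧ IsOpen R ∧
    IsOpen ((c.pre U ∩ ball 0 ρ) \ R)

/-- There is no holomorphic disc through `0` in the closure of `R`. -/
def Peak {n : ℕ} (R : Set (Cn n)) : Prop :=
  ∀ f : ℂ → Cn n, DifferentiableOn ℂ f (ball 0 1) → (∀ t ∈ ball (0 : ℂ) 1, f t ∈ closure R) →
    f 0 = 0 → ∀ t ∈ ball (0 : ℂ) 1, f t = 0

/-- **PeakL.** Uses `Mon`, `Exh`, `Ident`.

PROOF. `K` is compact: pass to a subsequence with `k j → k0 ∈ K`; `U` is bounded, `Mon` (`Um k = U`) gives a further subsequence with `g j → F` uniformly on compact subsets of `U`, `F` holomorphic on `U`. Let `b = c.psi 0`. `F k0 = lim g j (k j) = lim c.psi (q j) = b`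
(uniform convergence on the compact set `{k j} ∪ {k0}`). Let `ρ` be as in `BdR.rad`. `b ∈ V ∩ c.O`; let `O'` be an open neighbourhood of `b`, `O' ⊆ c.O`, `c.pi '' O' ⊆ ball 0 ρ`. (*) If `B` is a connected relatively open subset of `U` with compact closure in `U`, if `g j '' B ⊆ O'` for some `j`, `k j ∈ B`,
then `c.pi ∘ g j` maps `B` into `c.pre U ∩ ball 0 ρ` continuously, and `k j` to `q j ∈ R`; so it maps `B` into `R` (`R` is open and closed in `c.pre U ∩ ball 0 ρ`). Take a chart `e` at `k0` and `B = e.psi '' ball (e.pi k0) r`, `r` small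
such that the closure of `F '' B` lies in `O'`; for `j` large `g j '' B ⊆ O'`, `k j ∈ B`; so `c.pi (F x) ∈ closure R` for `x ∈ B`. For `‖v‖ < r` the disc `t ↦ c.pi (F (e.psi (e.pi k0 + t • v)))` lies in `closure R`, with value `0` at `0`; by `Peak` it is `0` on `ball 0 1`; letting `v` vary, `c.pi ∘ F = 0` on
`B`, `F = b` on `B`, and by `Ident` `F = b` on `U`. Now let `Q ⊆ U` be compact, `ρ' > 0`. By `Exh` (with `k0`) `Q ⊆ Um k` for some `k` (compactness, monotone), `k j ∈ Um k` for `j` large. `g j → b` uniformly on `closure (Um k)`: for `j` large `g j '' Um k ⊆ O''`, `O''` a neighbourhood of `b` in `O'` with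
`c.pi '' O'' ⊆ ball 0 (min ρ ρ')`. By (*) `c.pi (g j x) ∈ R` for `x ∈ Um k`. -/
def S_PeakL : Prop := ∀ (N n : ℕ) (I : Set (MvPolynomial (Fin N) ℂ)) (U : Set (Cn N))
  (G : Set (Cn N → Cn N)) (K : Set (Cn N)), IsDom I n U → CoCpt U G K →
    ∀ (c : Chart (zeroSet I) n) (R : Set (Cn n)), BdR c U R → Peak R →
    ∀ (q : ℕ → Cn n) (g : ℕ → Cn N → Cn N) (k : ℕ → Cn N), (∀ j, q j ∈ R) →
      Tendsto q atTop (𝓝 0) → (∀ j, g j ∈ G) → (∀ j, k j ∈ K) → (∀ j, g j (k j) = c.psi (q j)) →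
      ∃ φ : ℕ → ℕ, StrictMono φ ∧ ∃ k0 ∈ K, Tendsto (fun j => k (φ j)) atTop (𝓝 k0) ∧
        ∀ Q ⊆ U, IsCompact Q → ∀ ρ' > 0, ∀ᶠ j in atTop, ∀ x ∈ Q,
          c.pi (g (φ j) x) ∈ R ∧ ‖c.pi (g (φ j) x)‖ < ρ' ∧
            c.psi (c.pi (g (φ j) x)) = g (φ j) x

/-- The properties of the scalings `A j : D → R` (with the inverses `B j`) which are used. -/
structure Scaling {n : ℕ} (R D : Set (Cn n)) (x0 : Cn n) (A B : ℕ → Cn n → Cn n) : Prop where
  opn : IsOpen D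
  conn : IsPreconnected D
  mem : x0 ∈ D
  difA : ∀ j, Differentiable ℂ (A j)
  difB : ∀ j, Differentiable ℂ (B j)
  AB : ∀ j x, A j (B j x) = x
  BA : ∀ j x, B j (A j x) = x
  inside : ∀ Q ⊆ D, IsCompact Q → ∀ ρ' > 0, ∀ᶠ j in atTop, ∀ x ∈ Q, A j x ∈ R ∧ ‖A j x‖ < ρ'
  start : ∀ j, A j x0 ∈ R
  normal : ∀ M : ℝ, ∃ (M' ρ' : ℝ) (J : ℕ), 0 < ρ' ∧ ∀ j ≥ J, ∀ f : ℂ → Cn n,
    DifferentiableOn ℂ f (ball 0 1) → (∀ t ∈ ball (0 : ℂ) 1, A j (f t) ∈ R ∧ ‖A j (f t)‖ < ρ') →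
    ‖f 0‖ ≤ M → ∀ t : ℂ, ‖t‖ ≤ 1 / 2 → ‖f t‖ ≤ M'
  limit : ∀ (φ : ℕ → ℕ) (ρ : ℕ → ℝ) (f : ℕ → ℂ → Cn n) (f' : ℂ → Cn n),
    Tendsto φ atTop atTop → Tendsto ρ atTop (𝓝 0) →
    (∀ j, DifferentiableOn ℂ (f j) (ball 0 1)) → DifferentiableOn ℂ f' (ball 0 1) →
    (∀ t ∈ ball (0 : ℂ) 1, Tendsto (fun j => f j t) atTop (𝓝 (f' t))) →
    (∀ j, ∀ t ∈ ball (0 : ℂ) 1, A (φ j) (f j t) ∈ R ∧ ‖A (φ j) (f j t)‖ < ρ j) →
    f' 0 ∈ D → ∀ t ∈ ball (0 : ℂ) 1, f' t ∈ D
  peak : Peak R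

/-- **Bnd.** The rescaled automorphisms are locally bounded.

PROOF. Let `A'` be the set of all `x ∈ U` such that there are a relatively open neighbourhood `U' ∋ x` in `U` and `M`, with `‖B (ψ j) (c.pi (g j y))‖ ≤ M` for all `y ∈ U'` and all large `j`. It is relatively open. Write
`G_j y = B (ψ j) (c.pi (g j y))`, so `A (ψ j) (G_j y) = c.pi (g j y)`. Let `e` be a chart at `x ∈ U`, `ball (e.pi x) (4 r) ⊆ e.pre U` with `e.psi '' closedBall (e.pi x) (3 r) ⊆ U` compact. Claim: if `y_j ∈ e.psi '' ball (e.pi x) r` and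
`‖G_j (y_j)‖ ≤ M` for large `j`, then `‖G_j‖ ≤ M'` on `e.psi '' ball (e.pi y_j) (r/2)` for large `j` (`M'` depends only on `M`): by the hypothesis `hQ` for `Q = e.psi '' closedBall (e.pi x) (3 r)` and `ρ'` from `Scaling.normal`, `f t = G_j (e.psi (e.pi y_j + t • v))`, `‖v‖ < r`, is a disc
as in `Scaling.normal` for `j` large. Hence: (i) `k0 ∈ A'`: `x = k0`, `y_j = k j`, `G_j (k j) = B (ψ j) (q j) = x0` (bounded), and `e.psi '' ball (e.pi k0) (r/4) ⊆ e.psi '' ball (e.pi (k j)) (r/2)` for `j` large. (ii) `A'` is closed in `U`: `y ∈ A'` close to `x`, `y_j = y`. So `A' = U`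
(`U` is connected), and compactness gives the claim. (The holomorphy of `f` : `c.pi ∘ g j` is `HolOn` near `Q`: it is the composition of `HolOn` maps, `g j` maps `Q` into `c.O`... use `HolOn.comp` on the relatively open set `{y ∈ U | g j y ∈ c.O}`.) -/
def S_Bnd : Prop := ∀ (N n : ℕ) (I : Set (MvPolynomial (Fin N) ℂ)) (U : Set (Cn N))
  (G : Set (Cn N → Cn N)) (K : Set (Cn N)), IsDom I n U → CoCpt U G K →
    ∀ (c : Chart (zeroSet I) n) (R D : Set (Cn n)) (x0 : Cn n) (A B : ℕ → Cn n → Cn n),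
    Scaling R D x0 A B → R ⊆ c.pre U → ∀ (ψ : ℕ → ℕ) (g : ℕ → Cn N → Cn N) (k : ℕ → Cn N) (k0 : Cn N),
      Tendsto ψ atTop atTop → (∀ j, g j ∈ G) → k0 ∈ U → (∀ j, k j ∈ U) →
      Tendsto k atTop (𝓝 k0) → (∀ j, c.pi (g j (k j)) = A (ψ j) x0) →
      (∀ Q ⊆ U, IsCompact Q → ∀ ρ' > 0, ∀ᶠ j in atTop, ∀ x ∈ Q,
          c.pi (g j x) ∈ R ∧ ‖c.pi (g j x)‖ < ρ' ∧ c.psi (c.pi (g j x)) = g j x) →
      ∀ Q ⊆ U, IsCompact Q → ∃ M : ℝ, ∀ᶠ j in atTop, ∀ x ∈ Q, ‖B (ψ j) (c.pi (g j x))‖ ≤ M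

/-- **Scale.** The scaling theorem. Uses `PeakL`, `Bnd`, `Mon`, `Taut`, `Exh`.

PROOF. `q j = A j x0 ∈ R` (`start`), `q j → 0` (`inside` for `Q = {x0}`). `c.psi (q j) ∈ U`; `CoCpt.cov`, `inv` give `g j ∈ G` with inverse `h j ∈ G` on `U` and `k j = h j (c.psi (q j)) ∈ K`, `g j (k j) = c.psi (q j)`. `PeakL`: pass to a subsequence (call the indices `ψ j`, rename `g j := g (ψ j)`, ...): `k j → k0 ∈ K`
and `hQ`: for compact `Q ⊆ U`, `ρ' > 0` and `j` large `c.pi (g j x) ∈ R ∩ ball 0 ρ'` on `Q`. `G_j = B (ψ j) ∘ c.pi ∘ g j`. `Exh` gives `Um`; on `Um k` (compact closure in `U`) `G_j` is `HolOn` for large `j` and bounded (`Bnd`), so by `Mon` a subsequence converges to `G'`, `HolOn U`. `G_j (k j) = x0`, so `G' k0 = x0 ∈ D`.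
`{x ∈ U | G' x ∈ D}` is relatively open; it is relatively closed and contains `k0`: for a chart `e` at `x`, `closedBall (e.pi x) (3 r) ⊆ e.pre U`, and `y = e.psi (e.pi x + v)`, `‖v‖ < r`, `G' y ∈ D`, apply `Scaling.limit` to the discs `t ↦ G_j (e.psi (e.pi y + t • (2 (e.pi x - e.pi y))))` (for `j` large; `ρ j → 0` is a sequence
with `‖c.pi (g j z)‖ < ρ j` on the compact set, it exists by `hQ` along a subsequence) and `t = 1/2`. So `G' '' U ⊆ D`. `F_j = h j ∘ c.psi ∘ A (ψ j)`: for compact `Q ⊆ D` and `j` large it is holomorphic on an open set containing `Q` with values in `U` (`inside`, for a compact neighbourhood of `Q` in `D`; `R ⊆ c.pre U`), and `F_j x0 = k j ∈ K`. `Taut`: a subsequence converges to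
`F' : D → U`. For `x ∈ D`: `G_j (F_j x) = x` for `j` large, and `F_j x → F' x ∈ U`; uniform convergence of `G_j` on the compact set `{F_j x} ∪ {F' x}` gives `G' (F' x) = x`. For `x ∈ U`: `F_j (G_j x) = x`, `G_j x → G' x ∈ D`, so `F' (G' x) = x`. -/
def S_Scale : Prop := ∀ (N n : ℕ) (I : Set (MvPolynomial (Fin N) ℂ)) (U : Set (Cn N))
  (G : Set (Cn N → Cn N)) (K : Set (Cn N)), IsDom I n U → CoCpt U G K →
    ∀ (c : Chart (zeroSet I) n) (R D : Set (Cn n)) (x0 : Cn n) (A B : ℕ → Cn n → Cn n),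
    BdR c U R → Scaling R D x0 A B → Biholo U D

/-- **LemH.** A boundary point across which all bounded holomorphic maps extend does not exist. Uses `Mon`, `Ident` (for `V = univ`).

PROOF. Let `q j ∈ R'`, `q j → 0`. As in `Scale` there are `g j ∈ G` with inverse `h j ∈ G` and `k j = h j (c.psi (q j)) ∈ K`, wlog `k j → k0 ∈ K`. `‖x‖ ≤ M` on `U`. `f_j = h j ∘ c.psi` is `DifferentiableOn ℂ` on `R` (`R ⊆ c.pre U`) with values in `U`, so bounded by `M`; let `E_j` be the extension to `ball 0 ρ`, bounded by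
`M`, `E_j = f_j` on `R'`. For a polynomial `p ∈ I` the function `eval (E_j w) p` is holomorphic on the ball and vanishes on the non-empty open set `R'`, so it vanishes on `ball 0 ρ` (identity theorem, `AnalyticOnNhd.eqOn_zero_of_preconnected_of_eventuallyEq_zero`): `E_j` maps the ball into `zeroSet I`. `E_j (q j) = k j`. Cauchy estimates: on `ball 0 (ρ/2)`
`E_j` is Lipschitz with constant `2 M / ρ`, so for every `r > 0` there is `ρ'` such that for `j` large `‖E_j w - k0‖ < r` for `‖w‖ < ρ'`. `U = zeroSet I ∩ O`, `ball k0 r ⊆ O`: so `E_j` maps `ball 0 ρ'` into `U`. Fix such a large `j`, also with `q j ∈ ball 0 ρ'`. Then `g j ∘ E_j` is holomorphic on `ball 0 ρ'` (`HolOn.comp`), and equal to `c.psi` on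
`R' ∩ ball 0 ρ'` (open, contains `q j`), so it is equal to `c.psi` on `ball 0 ρ'` (decrease `ρ'` such that `ball 0 ρ' ⊆ c.W`). Hence `c.psi 0 = g j (E_j 0) ∈ U`, a contradiction. -/
def S_LemH : Prop := ∀ (N n : ℕ) (I : Set (MvPolynomial (Fin N) ℂ)) (U : Set (Cn N))
  (G : Set (Cn N → Cn N)) (K : Set (Cn N)), IsDom I n U → CoCpt U G K →
    ∀ (c : Chart (zeroSet I) n) (R R' : Set (Cn n)) (ρ : ℝ), (0 : Cn n) ∈ c.W → c.psi 0 ∉ U →
    IsOpen R → IsOpen R' → R ⊆ c.pre U → R' ⊆ R → (0 : Cn n) ∈ closure R' → 0 < ρ →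
    ¬ (∀ (M : ℝ) (f : Cn n → Cn N), DifferentiableOn ℂ f R → (∀ w ∈ R, ‖f w‖ ≤ M) →
      ∃ g : Cn n → Cn N, DifferentiableOn ℂ g (ball 0 ρ) ∧ (∀ w ∈ ball (0 : Cn n) ρ, ‖g w‖ ≤ M) ∧
        ∀ w ∈ R' ∩ ball 0 ρ, g w = f w)

/-- **Coc.** From the group action to `CoCpt`.

PROOF. Let `G` be the set of the maps `f γ`, `γ ∈ Γ` (chosen with `HolOn`, `f γ u = γ • u`). `hol`, `maps`, `inv` (`γ⁻¹`) are clear. The action maps `u ↦ γ • u` of the subtype `U` are homeomorphisms (restrictions of the continuous `f γ`, `f γ⁻¹`). `U` is locally compact (`U = zeroSet I ∩ O`, closed in open): every `u : U` has a compact neighbourhood `C_u`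
in `U`. The quotient map `π` is open (`isOpenMap_quotient_mk'_mul` needs `ContinuousConstSMul Γ U`, which holds), so the sets `π '' interior C_u` form an open cover of the compact quotient; finitely many suffice, `K = ⋃ C_u` (as a subset of `Cn N`). `cov`: for `x ∈ U` there is `γ` with `γ • x ∈ interior C_u` for one of them, and by continuity `γ • y ∈ C_u` for `y` near `x`. -/
def S_Coc : Prop := ∀ (N n : ℕ) (I : Set (MvPolynomial (Fin N) ℂ)) (U : Set (Cn N)),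
  IsDom I n U → ∀ (Γ : Type) [Group Γ] [MulAction Γ U],
    (∀ γ : Γ, ∃ f : Cn N → Cn N, HolOn f U ∧ ∀ u : U, f u = ((γ • u : U) : Cn N)) →
    CompactSpace (Quotient (MulAction.orbitRel Γ U)) →
    ∃ (G : Set (Cn N → Cn N)) (K : Set (Cn N)), CoCpt U G K

end KP
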