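import Pool.Agent.Lib.KP.SpecT

/-!
# KP (MP_64edc4_ag), block L: Levi forms, peak points, the variety, maxima
-/

set_option autoImplicit false

open Set Filter Topology Metric

namespace KP

/-- The second derivative of `Φ` at `c` in the direction `v`. -/
noncomputable def D2 {n : ℕ} (Φ : Cn n → ℝ) (c v : Cn n) : ℝ := fderiv ℝ (fderiv ℝ Φ) c v v

/-- The Levi form (4 times). -/
noncomputable def Lv {n : ℕ} (Φ : Cn n → ℝ) (c v : Cn n) : ℝ := D2 Φ c v + D2 Φ c (Complex.I • v)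

/-- The points `c` in the boundary of `A` such that a function which is strictly plurisubharmonic
at `c` has a strict (quadratic) local maximum over `A` at `c`. -/
def Pk {n : ℕ} (A : Set (Cn n)) : Set (Cn n) :=
  {c | c ∉ A ∧ c ∈ closure A ∧ ∃ Φ : Cn n → ℝ, ContDiffAt ℝ 2 Φ c ∧ (∀ v ≠ 0, 0 < Lv Φ c v) ∧
    ∃ η > 0, ∀ᶠ z in 𝓝 c, z ∈ A → Φ z + η * nsq (z - c) ≤ Φ c}

/-- **D2A.** Linearity of the second derivative. PROOF. `fderiv_add`, `fderiv_const_mul` hold near `c` (`ContDiffAt ℝ 2` gives differentiability near `c` and of `fderiv` at `c`: `ContDiffAt.eventually`, `ContDiffAt.fderiv_right`), `Filter.EventuallyEq.fderiv_eq`. -/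
def S_D2A : Prop := ∀ (n : ℕ) (Φ Ψ : Cn n → ℝ) (c : Cn n), ContDiffAt ℝ 2 Φ c →
  ContDiffAt ℝ 2 Ψ c → ∀ (a b : ℝ) (v : Cn n),
    D2 (fun z => a * Φ z + b * Ψ z) c v = a * D2 Φ c v + b * D2 Ψ c v

/-- **Tay.** Second order Taylor formula.

PROOF. `f v = Φ (c + v) - Φ c - dΦ v - D2 Φ c v / 2` has near `0` the derivative `fderiv Φ (c + v) - fderiv Φ c - fderiv (fderiv Φ) c v` (the second derivative is symmetric: `second_derivative_symmetric` or `ContDiffAt.isSymmSndFDerivAt`), of norm `≤ η ‖v‖` for `‖v‖ < r` (`fderiv Φ` is differentiable at `c`); mean value inequality on the ball. -/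
def S_Tay : Prop := ∀ (n : ℕ) (Φ : Cn n → ℝ) (c : Cn n), ContDiffAt ℝ 2 Φ c → ∀ η > 0, ∃ r > 0,
  ∀ v : Cn n, ‖v‖ < r →
    |Φ (c + v) - Φ c - fderiv ℝ Φ c v - 1 / 2 * D2 Φ c v| ≤ η * ‖v‖ ^ 2

/-- **NoMax.** Uses `Tay`. PROOF. `fderiv ℝ Φ c = 0` (`IsLocalMax.fderiv_eq_zero`). For small real `t`: `0 ≥ Φ (c + t v) - Φ c ≥ t² D2 Φ c v / 2 - η t² ‖v‖²` (`D2 Φ c (t • v) = t² D2 Φ c v`), so `D2 Φ c v ≤ 2 η ‖v‖²` for all `η > 0`. -/
def S_NoMax : Prop := ∀ (n : ℕ) (Φ : Cn n → ℝ) (c : Cn n), ContDiffAt ℝ 2 Φ c →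
  IsLocalMax Φ c → ∀ v, D2 Φ c v ≤ 0

/-- **D2N.** PROOF. `nsq` is a quadratic polynomial in the real coordinates: `nsq z = ∑ (re z_i)² + (im z_i)²`; its first derivative at `z` is `v ↦ 2 ∑ (re z_i re v_i + im z_i im v_i)`, linear in `z`. -/
def S_D2N : Prop := ∀ (n : ℕ) (a c v : Cn n), ContDiffAt ℝ 2 (fun z => nsq (z - a)) c ∧
  D2 (fun z => nsq (z - a)) c v = 2 * nsq v ∧ nsq (Complex.I • v) = nsq v ∧ ‖v‖ ^ 2 ≤ nsq v ∧
  nsq v ≤ n * ‖v‖ ^ 2

/-- **LvC.** The Levi form of a composition with a holomorphic map.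

PROOF. `ψ` is analytic on `O` (`Osgood.analyticOnNhd`), so smooth over `ℝ` too. Near `w`: `fderiv (Φ ∘ ψ) x = (fderiv Φ (ψ x)).comp (fderiv ψ x)` (`fderiv ℝ ψ = (fderiv ℂ ψ).restrictScalars`). Differentiate in the direction `v` and evaluate at `v`: `D2 (Φ ∘ ψ) w v = D2 Φ (ψ w) (dψ v) + dΦ (d²ψ (v, v))` (`HasFDerivAt.clm_comp`, or work with `x ↦ fderiv Φ (ψ x) (fderiv ψ x v)`).
`d²ψ = fderiv ℂ (fderiv ℂ ψ) w` is complex bilinear: `d²ψ (I v, I v) = - d²ψ (v, v)`, and `dψ (I v) = I dψ v`. Add. -/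
def S_LvC : Prop := ∀ (n m : ℕ) (ψ : Cn m → Cn n) (Φ : Cn n → ℝ) (w : Cn m) (O : Set (Cn m)),
  IsOpen O → w ∈ O → DifferentiableOn ℂ ψ O → ContDiffAt ℝ 2 Φ (ψ w) →
    ContDiffAt ℝ 2 (fun x => Φ (ψ x)) w ∧
      ∀ v, Lv (fun x => Φ (ψ x)) w v = Lv Φ (ψ w) (fderiv ℂ ψ w v)

/-- **LvH.** PROOF. First part: `h` is analytic on `O`; `D2 (Re h) c v = Re (d²h (v, v))` with `d²h = fderiv ℂ (fderiv ℂ h) c` complex bilinear, so `v` and `I v` cancel. Second part: near `c` choose a holomorphic logarithm: `h z / h c` is in the slit plane for `z` near `c`, `log ‖h z‖ = log ‖h c‖ + Re (Complex.log (h z / h c))`; apply the first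
part (`Complex.log_re`), `Filter.EventuallyEq.fderiv`. -/
def S_LvH : Prop := ∀ (n : ℕ) (h : Cn n → ℂ) (c : Cn n) (O : Set (Cn n)), IsOpen O → c ∈ O →
  DifferentiableOn ℂ h O →
    (ContDiffAt ℝ 2 (fun z => (h z).re) c ∧ ∀ v, Lv (fun z => (h z).re) c v = 0) ∧
    (h c ≠ 0 → ContDiffAt ℝ 2 (fun z => Real.log ‖h z‖) c ∧
      ∀ v, Lv (fun z => Real.log ‖h z‖) c v = 0)

/-- **LvO.** Uses `D2N`. PROOF. `Φ` is `C²` on a ball (`ContDiffAt.eventually`), `(z, v) ↦ Lv Φ z v` is continuous there and positive on the compact set `{c} × {nsq v = 1}`, so `≥ m > 0` for `z ∈ ball c r`, `nsq v = 1` (tube lemma or `IsCompact` argument); homogeneity (`Lv Φ z (t • v) = t² Lv Φ z v`, `nsq (t • v) = t² nsq v`). -/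
def S_LvO : Prop := ∀ (n : ℕ) (Φ : Cn n → ℝ) (c : Cn n), ContDiffAt ℝ 2 Φ c →
  (∀ v ≠ 0, 0 < Lv Φ c v) → ∃ r > 0, ∃ m > 0, ∀ z ∈ ball c r, ContDiffAt ℝ 2 Φ z ∧
    ∀ v, m * nsq v ≤ Lv Φ z v

/-- **PkOf.** Uses `NoMax`, `LvO`, `D2A`, `D2N`.

PROOF. If `c ∈ A`, `A` open, then `Ψ` has a local maximum at `c`, so `Lv Ψ c v ≤ 0` for all `v` (`NoMax` for `v` and `I • v`), a contradiction for `v = 1` (constant vector, `0 < n`). Let `m` be from `LvO`, `η = m / 8`, `Φ z = Ψ z - η nsq (z - c)`: `Lv Φ c v = Lv Ψ c v - 4 η nsq v ≥ (m / 2) nsq v > 0`,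
and `Φ z + η nsq (z - c) = Ψ z ≤ Ψ c = Φ c` for `z ∈ A` near `c`. -/
def S_PkOf : Prop := ∀ (n : ℕ) (A : Set (Cn n)) (Ψ : Cn n → ℝ) (c : Cn n), 0 < n → IsOpen A →
  ContDiffAt ℝ 2 Ψ c → (∀ v ≠ 0, 0 < Lv Ψ c v) → c ∈ closure A →
  (∀ᶠ z in 𝓝 c, z ∈ A → Ψ z ≤ Ψ c) → c ∈ Pk A

/-- **PkD.** The peak points are not contained in analytic sets. Uses `PkOf`, `LvO`, `LvH`, `D2A`, `D2N`.

PROOF. (If `n = 0` then `Cn 0` is a point and `Pk A` is empty.) `Φ, η` for `c`; decrease `r`: on `ball c r` `Φ` is `C²`, `Lv Φ z v > 0` for `v ≠ 0` (`LvO`), and the inequality holds for `z ∈ A ∩ ball c r`, hence (continuity) for `z ∈ closure A ∩ ball c r`. `h` is not identically zero on any non-empty open subset of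
the original ball (identity theorem). `0 < ρ < r`, `X = closure A ∩ closedBall c ρ` compact. For `z ∈ X` with `‖z - c‖ = ρ`: `Φ z ≤ Φ c - η ρ²` (`nsq ≥ ‖·‖²`). Choose `c1 ∈ A ∩ ball c ρ` with `h c1 ≠ 0` and `Φ c1 > Φ c - η ρ² / 2` (`A` is open, `c ∈ closure A`). For `t > 0` let `Θ z = ‖h z‖ ^ t * exp (Φ z)`
(`Real.rpow`, continuous on `X`), maximal on `X` at `c'`: `Θ c' ≥ Θ c1 > 0`, `h c' ≠ 0`. With `H ≥ ‖h‖` on `X`, `H ≥ ‖h c1‖`: on the sphere `Θ ≤ H ^ t exp (Φ c - η ρ²) < Θ c1` if `t` is small, so `‖c' - c‖ < ρ`. `Ψ = Φ + t log ‖h‖` is `C²` at `c'` with `Lv Ψ c' = Lv Φ c' > 0` (`LvH`) and `Ψ z ≤ Ψ c'` for `z ∈ A` near `c'`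
(where `h z ≠ 0`, `Ψ = log Θ`). `PkOf`. -/
def S_PkD : Prop := ∀ (n : ℕ) (A : Set (Cn n)), IsOpen A → ∀ c ∈ Pk A, ∀ (h : Cn n → ℂ) (r : ℝ),
  0 < r → DifferentiableOn ℂ h (ball c r) → (∃ z ∈ ball c r, h z ≠ 0) →
    ∀ r' > 0, ∃ c' ∈ Pk A, c' ∈ ball c r' ∧ h c' ≠ 0

/-- **PkC.** Invariance under holomorphic coordinate changes. Uses `LvC`, `LvO`.

PROOF. Let `w ∈ e.W`, `c = e.psi w`. `e.pi ∘ e.psi = id` on `e.W`, `e.psi ∘ e.pi = id` on `e.O` (`Chart.right` with `V = univ`), `e.psi` maps `e.W` onto the open set `e.O`; both are continuous; so the derivatives at `w`, `c` are inverse to each other and `c ∉ A`, `c ∈ closure A` correspond to `w ∉ e.pre A`, `w ∈ closure (e.pre A)`.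
If `c ∈ Pk A` with `Φ`, then `Φ ∘ e.psi` works at `w`: `LvC`, the derivative is injective, and `nsq (e.psi x - c) ≥ κ nsq (x - w)` for `x` near `w`, `κ > 0` (`e.pi` is Lipschitz near `c`; `nsq` and `‖·‖²` are comparable). Conversely, if `w ∈ Pk (e.pre A)` with `Φ`, then `Φ ∘ e.pi` works at `c`. -/
def S_PkC : Prop := ∀ (n : ℕ) (A : Set (Cn n)) (e : Chart (univ : Set (Cn n)) n), IsOpen A →
  ∀ w ∈ e.W, (w ∈ Pk (e.pre A) ↔ e.psi w ∈ Pk A)

/-! ## The variety -/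

/-- A minor of the Jacobian matrix. -/
noncomputable def minorP {N r : ℕ} (p : Fin r → MvPolynomial (Fin N) ℂ) (j : Fin r → Fin N) :
    MvPolynomial (Fin N) ℂ := (Matrix.of fun a b => MvPolynomial.pderiv (j b) (p a)).det

/-- The vanishing ideal. -/
def vanI {N : ℕ} (U : Set (Cn N)) : Set (MvPolynomial (Fin N) ℂ) :=
  {f | ∀ z ∈ U, MvPolynomial.eval z f = 0}

/-- **VRank.** PROOF. The numbers `r` for which there are `p`, `j` with `p i ∈ vanI U` and a point `z ∈ U` with `minorP p j` not zero at `z` contain `0` (the empty determinant is `1`) and are bounded by `N` (`j` must be injective, otherwise two columns agree: `Matrix.det_zero_of_column_eq`; `Fintype.card_le_of_injective`). Take the largest `r`. If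
`f ∈ vanI U`, then `vecCons f p`, `vecCons a j` are candidates for `r + 1`, so their minor vanishes at all points of `U`. -/
def S_VRank : Prop := ∀ (N : ℕ) (U : Set (Cn N)), U.Nonempty →
  ∃ (r : ℕ) (p : Fin r → MvPolynomial (Fin N) ℂ) (j : Fin r → Fin N), (∀ i, p i ∈ vanI U) ∧
    (∃ z ∈ U, MvPolynomial.eval z (minorP p j) ≠ 0) ∧
    ∀ f ∈ vanI U, ∀ a : Fin N, minorP (Matrix.vecCons f p) (Matrix.vecCons a j) ∈ vanI U

/-- **VImp.** Implicit function theorem.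

PROOF. `j` is injective (`det ≠ 0`), so `r ≤ N`; let `κ : Fin (N - r) → Fin N` enumerate the complement of its range. `Φ : Cn N → Cn (N - r) × Cn r`, `Φ z = (z ∘ κ, fun i => eval z (p i))` is holomorphic, its derivative at `z0` is injective (if `ξ ∘ κ = 0` and `dp_i ξ = 0` for all `i`, then the vector `ξ ∘ j` is in the kernel of the invertible matrix
`∂p_i/∂z_(j l)`), hence bijective (dimensions). Inverse function theorem (`HasStrictFDerivAt.toOpenPartialHomeomorph`, the inverse is holomorphic: `ContDiffAt.to_localInverse` or `OpenPartialHomeomorph.contDiffAt_symm`, over `ℂ`). Let `O1` be an open neighbourhood of `z0` on which `Φ` is injective with open image and holomorphic inverse `Ξ`, and the minor is not zero. `w0 = z0 ∘ κ`,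
`Φ z0 = (w0, 0)`; `W = ball w0 ρ` with `W × {0}` inside the image; `psi w = Ξ (w, 0)`, `pi z = z ∘ κ`, `O = O1 ∩ pi ⁻¹' W`. -/
def S_VImp : Prop := ∀ (N r : ℕ) (p : Fin r → MvPolynomial (Fin N) ℂ) (j : Fin r → Fin N)
  (z0 : Cn N), (∀ i, MvPolynomial.eval z0 (p i) = 0) → MvPolynomial.eval z0 (minorP p j) ≠ 0 →
    ∃ (c : Chart (zeroSet (range p)) (N - r)) (w0 : Cn (N - r)) (ρ : ℝ), 0 < ρ ∧ z0 ∈ c.O ∧
      c.W = ball w0 ρ ∧ c.psi w0 = z0 ∧ ∀ w ∈ c.W, MvPolynomial.eval (c.psi w) (minorP p j) ≠ 0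

/-- **VFlat.** PROOF. Fix `v : Cn m`; for `f ∈ vanI U` let `φ_f t = eval (c.psi (w0 + t • v)) f` (holomorphic for `t` in the disc where `w0 + t • v ∈ ball w0 ρ`; note `w0 + t v` for `‖v‖ < ρ`, `‖t‖ ≤ 1`). `ξ = (d c.psi)(w0 + t v) v` satisfies `dp_i ξ = 0` (`p_i ∘ c.psi = 0` on `c.W`), so, expanding the determinant along its first column
(linearity of the determinant in the first column, which becomes `(df ξ, 0, …, 0)`): `g(t) φ_f' t = ∑_a ξ_a(t) * eval (c.psi (w0 + t v)) (minorP (vecCons f p) (vecCons a j)) = ∑_a ξ_a(t) φ_(f_a) t`, where `g(t) = eval (…) (minorP p j) ≠ 0`, `f_a ∈ vanI U`. If some `φ_f`, `f ∈ vanI U`, is not identically `0` near `t = 0`, choose `f` such that its order `k` at `0` is minimal; `k ≥ 1` because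
`φ_f 0 = eval (c.psi w0) f = 0`. `g φ_f'` has order `k - 1` at `0`, but the right hand side has order `≥ k` (sum of products with terms `φ_(f_a)` of order `≥ k`), a contradiction (`analyticOrderAt`). So `φ_f = 0` near `0`, and `φ_f = 0` on the whole disc (identity theorem), in particular at `t = 1`. -/
def S_VFlat : Prop := ∀ (N r m : ℕ) (U : Set (Cn N)) (p : Fin r → MvPolynomial (Fin N) ℂ)
  (j : Fin r → Fin N),
  (∀ f ∈ vanI U, ∀ a : Fin N, minorP (Matrix.vecCons f p) (Matrix.vecCons a j) ∈ vanI U) →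
  ∀ (c : Chart (zeroSet (range p)) m) (w0 : Cn m) (ρ : ℝ), 0 < ρ → c.W = ball w0 ρ →
    c.psi w0 ∈ zeroSet (vanI U) →
    (∀ w ∈ c.W, MvPolynomial.eval (c.psi w) (minorP p j) ≠ 0) →
    ∀ f ∈ vanI U, ∀ w ∈ c.W, MvPolynomial.eval (c.psi w) f = 0

/-- **Dim.** PROOF. Charts `c`, `c'` at `z`, `w = c.pi z`, `w' = c'.pi z`. `a = c'.pi ∘ c.psi` is defined and holomorphic near `w`, `b = c.pi ∘ c'.psi` near `w'`, `b (a x) = x` for `x` near `w` (`c.psi x ∈ V ∩ c'.O`, so `c'.psi (a x) = c.psi x`) and `a (b y) = y` near `w'`. The derivatives are inverse linear maps between `ℂⁿ` and `ℂᵐ`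
(`LinearEquiv.finrank_eq`). -/
def S_Dim : Prop := ∀ (N n m : ℕ) (V : Set (Cn N)) (z : Cn N), SmoothAt V n z → SmoothAt V m z →
  n = m

/-- **DimC.** Uses `Dim`. PROOF. `{z ∈ U | SmoothAt V n z}` is relatively open in `U` (the same chart works at all points of `U ∩ c.O ⊆ V`); for different `n` these sets are disjoint (`Dim`); `U` is connected. -/
def S_DimC : Prop := ∀ (N d : ℕ) (V U : Set (Cn N)), U ⊆ V → IsConnected U →
  (∀ z ∈ U, ∃ n ≤ d, SmoothAt V n z) → ∃ n ≤ d, ∀ z ∈ U, SmoothAt V n z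

/-- **VSing.** Uses `VRank`, `VImp`, `VFlat`, `Dim`.

PROOF. `J = vanI U`, `r, p, j` from `VRank`, `g = minorP p j`. `U ⊆ zeroSet J ⊆ zeroSet I` (`I ⊆ vanI U`), `U = zeroSet I ∩ O`, so `U = zeroSet J ∩ O`. A chart `c` of `zeroSet I` at `z ∈ U` restricts to the chart of `zeroSet J` with `O' = c.O ∩ O`, `W' = c.W ∩ c.psi ⁻¹' O`: `zeroSet I ∩ (c.O ∩ O) = U ∩ c.O = zeroSet J ∩ (c.O ∩ O)`. So `IsDom J n U`. Let
`z0 ∈ zeroSet J`, `g z0 ≠ 0`: chart `c` from `VImp`; `VFlat`: `c.psi '' c.W ⊆ zeroSet J`; `zeroSet J ⊆ zeroSet (range p)`, so `zeroSet J ∩ c.O = zeroSet (range p) ∩ c.O` and `c` is a chart of `zeroSet J`: `SmoothAt (zeroSet J) (N - r) z0`. For a point `z1 ∈ U` with `g z1 ≠ 0`, `Dim` gives `N - r = n`. `closure U ⊆ zeroSet J` (`isClosed_zeroSet`). -/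
def S_VSing : Prop := ∀ (N n : ℕ) (I : Set (MvPolynomial (Fin N) ℂ)) (U : Set (Cn N)),
  IsDom I n U → ∃ J : Set (MvPolynomial (Fin N) ℂ), IsDom J n U ∧
    ∃ g : MvPolynomial (Fin N) ℂ,
      (∀ z ∈ closure U, MvPolynomial.eval z g ≠ 0 → SmoothAt (zeroSet J) n z) ∧
      ∃ z ∈ U, MvPolynomial.eval z g ≠ 0

/-- **BdMax.** Uses `PkOf`, `LvC`, `LvH`, `D2A`, `D2N`.

PROOF. `closure U` is compact (`U` is bounded); `Θ z = ‖g z‖² exp (nsq z)` is continuous, let `b` be its maximum point on `closure U`; `Θ b > 0`, so `g b ≠ 0` and there is a chart `c0` at `b`; compose with the translation (`Chart.comp` with the chart `w ↦ w + c0.pi b`): a chart `c` with `0 ∈ c.W`, `c.psi 0 = b`. `Ψ w = nsq (c.psi w) + 2 log ‖g (c.psi w)‖` is `C²`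
at `0`, `Lv Ψ 0 v = 4 nsq (dψ v) > 0` for `v ≠ 0` (`LvC`, `LvH` for the holomorphic function `g ∘ c.psi`, the derivative of `c.psi` is injective), `Ψ w ≤ Ψ 0` for `w ∈ c.pre U` near `0`. `0 ∈ closure (c.pre U)`: `b ∈ closure U`, points `u ∈ U` near `b` are in `c.O`, `c.pi u ∈ c.pre U` tends to `c.pi b = 0`. `c.pre U` is open (`IsDom.isOpen_pre`). `PkOf` gives
`0 ∈ Pk (c.pre U)`, in particular `0 ∉ c.pre U`, so `c.psi 0 ∉ U`. -/
def S_BdMax : Prop := ∀ (N n : ℕ) (J : Set (MvPolynomial (Fin N) ℂ)) (U : Set (Cn N)), 0 < n →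
  IsDom J n U → ∀ g : MvPolynomial (Fin N) ℂ,
    (∀ z ∈ closure U, MvPolynomial.eval z g ≠ 0 → SmoothAt (zeroSet J) n z) →
    (∃ z ∈ U, MvPolynomial.eval z g ≠ 0) →
    ∃ c : Chart (zeroSet J) n, (0 : Cn n) ∈ c.W ∧ c.psi 0 ∉ U ∧ (0 : Cn n) ∈ Pk (c.pre U)

/-! ## Semialgebraic sets in charts -/

/-- On `W` the membership in `A` is determined by the signs of finitely many real analytic
functions. -/
def Sgn {n : ℕ} (A W : Set (Cn n)) : Prop := ∃ (m : ℕ) (f : Fin m → Cn n → ℝ),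
  (∀ k, AnalyticOnNhd ℝ (f k) W) ∧ ∀ z ∈ W, ∀ z' ∈ W,
    (∀ k, SignType.sign (f k z) = SignType.sign (f k z')) → (z ∈ A ↔ z' ∈ A)

/-- **SA.** PROOF. Induction on `SemiAlg`: one polynomial for `pos`, `zero`; the same for `compl`; the union of the two lists for `inter` (`Fin.append` or `Fin (m + m')`, `finSumFinEquiv`). -/
def S_SA : Prop := ∀ (N : ℕ) (U : Set (Cn N)), SemiAlg U →
  ∃ (m : ℕ) (p : Fin m → MvPolynomial (Fin N ⊕ Fin N) ℝ), ∀ z z' : Cn N,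
    (∀ k, SignType.sign (MvPolynomial.eval (reim z) (p k)) =
      SignType.sign (MvPolynomial.eval (reim z') (p k))) → (z ∈ U ↔ z' ∈ U)

/-- **SgU.** Uses `SA`. PROOF. `f k w = eval (reim (c.psi w)) (p k)`: a polynomial in the real and imaginary parts of the components of `c.psi`, which are real analytic (`Osgood.analyticOnNhd`, `AnalyticAt.restrictScalars`, `MvPolynomial.induction_on`). -/
def S_SgU : Prop := ∀ (N n : ℕ) (V U : Set (Cn N)) (c : Chart V n), SemiAlg U → Sgn (c.pre U) c.W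

end KP
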