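import Pool.Agent.Lib.KP.SpecL

/-!
# KP (MP_64edc4_ag), block S: selection of a good boundary point, hypersurface case
-/

set_option autoImplicit false

open Set Filter Topology Metric

namespace KP

/-- The affine coordinate change `w ↦ c + L w`. -/
noncomputable def Chart.aff {n : ℕ} (c : Cn n) (L : Cn n ≃L[ℂ] Cn n) : Chart (univ : Set (Cn n)) n where
  W := univ
  O := univ
  psi := fun w => c + L w
  pi := fun z => L.symm (z - c)
  hW := isOpen_univ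
  hO := isOpen_univ
  hpsi := ((L.differentiable).const_add c).differentiableOn
  hpi := (L.symm.differentiable.comp (differentiable_id.sub_const c)).differentiableOn
  img := by
    ext z
    constructor
    · intro _; exact ⟨mem_univ _, mem_univ _⟩
    · intro _; exact ⟨L.symm (z - c), mem_univ _, by simp⟩
  left := by intro w _; simp

/-- Near a point `p` of the ball the set `A` has (in suitable coordinates) a local component `R` with
the property `P` (one of the boundary types), and `p ∉ A`. -/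
def LT {n : ℕ} (P : Set (Cn n) → Prop) (A : Set (Cn n)) (r : ℝ) : Prop :=
  ∃ (e : Chart (univ : Set (Cn n)) n) (R : Set (Cn n)) (ρ : ℝ), MapsTo e.psi e.W (ball 0 r) ∧
    (0 : Cn n) ∈ e.W ∧ e.psi 0 ∉ A ∧ 0 < ρ ∧ ball (0 : Cn n) ρ ⊆ e.W ∧ R ⊆ e.pre A ∩ ball 0 ρ ∧
    IsOpen R ∧ IsOpen ((e.pre A ∩ ball 0 ρ) \ R) ∧ P R

/-- The types in dimension two. -/
def P2 (R : Set (Cn 2)) : Prop := TypeA2 R ∨ TypeD R ∨ TypeB2 R

/-- **LTE.** PROOF. Let `e', R, ρ` be the data for `e.pre A`, `r'`. The chart `e.comp e'` has `W = e'.W ∩ e'.psi ⁻¹' e.W = e'.W` (`e'.psi '' e'.W ⊆ ball 0 r' ⊆ e.W`), `(e.comp e').pre A = e'.pre (e.pre A)` (`Chart.comp_pre`), `(e.comp e').psi 0 = e.psi (e'.psi 0) ∉ A` because `e'.psi 0 ∉ e.pre A` and `e'.psi 0 ∈ e.W`. -/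
def S_LTE : Prop := ∀ (n : ℕ) (P : Set (Cn n) → Prop) (A : Set (Cn n))
  (e : Chart (univ : Set (Cn n)) n) (r r' : ℝ), ball (0 : Cn n) r' ⊆ e.W →
  MapsTo e.psi (ball 0 r') (ball 0 r) → LT P (e.pre A) r' → LT P A r

/-- **Mv.** Uses `PkC`. PROOF. `e.pre A` is open (`e.psi` is continuous on the open set `e.W`). `0 ∈ Pk (e.pre A)` and the last property are `PkC`. `ρ`: continuity of `e.psi` at `0`. The functions for `Sgn` are `f k ∘ e.psi` (real analytic: `e.psi` is analytic by `Osgood.analyticOnNhd`); note that for `w ∈ ball 0 ρ ⊆ e.W`: `w ∈ e.pre A ↔ e.psi w ∈ A`. -/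
def S_Mv : Prop := ∀ (n : ℕ) (A : Set (Cn n)) (e : Chart (univ : Set (Cn n)) n) (r : ℝ),
  IsOpen A → Sgn A (ball 0 r) → (0 : Cn n) ∈ e.W → e.psi 0 ∈ Pk A → e.psi 0 ∈ ball (0 : Cn n) r →
  IsOpen (e.pre A) ∧ (0 : Cn n) ∈ Pk (e.pre A) ∧ ∃ ρ > 0, ball (0 : Cn n) ρ ⊆ e.W ∧
    MapsTo e.psi (ball 0 ρ) (ball 0 r) ∧ Sgn (e.pre A) (ball 0 ρ) ∧
    ∀ w ∈ ball (0 : Cn n) ρ, w ∈ Pk (e.pre A) → e.psi w ∈ Pk A

/-- Near `c` the set `T` is contained in the analytic submanifold `{b (0, t)}` of dimension `k`, and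
analytic functions which vanish on `T` vanish on the submanifold. -/
structure SelData {n : ℕ} (T : Set (Cn n)) (c : Cn n) (l k : ℕ)
    (a : Cn n → (Fin l → ℝ) × (Fin k → ℝ)) (b : (Fin l → ℝ) × (Fin k → ℝ) → Cn n)
    (O : Set (Cn n)) (δ : ℝ) : Prop where
  mem : c ∈ T
  hδ : 0 < δ
  dim : l + k = 2 * n
  hO : IsOpen O
  cO : c ∈ O
  a0 : a c = 0
  anA : AnalyticOnNhd ℝ a O
  anB : AnalyticOnNhd ℝ b (ball 0 δ)
  mapA : MapsTo a O (ball 0 δ)
  mapB : MapsTo b (ball 0 δ) O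
  ba : ∀ z ∈ O, b (a z) = z
  ab : ∀ x ∈ ball (0 : (Fin l → ℝ) × (Fin k → ℝ)) δ, a (b x) = x
  sub : ∀ z ∈ T ∩ O, (a z).1 = 0
  dens : ∀ c' ∈ T ∩ O, ∀ f : Cn n → ℝ, AnalyticAt ℝ f c' → (∀ᶠ z in 𝓝 c', z ∈ T → f z = 0) →
    ∀ᶠ t in 𝓝 (a c').2, f (b (0, t)) = 0

/-- **Sel.** Selection of a point of `T` at which the number of independent analytic equations is maximal.

PROOF. For `c ∈ T` call `l` admissible at `c` if there is `F : Cn n → (Fin l → ℝ)`, `AnalyticAt ℝ F c`, `F = 0` on `T` near `c`, with `fderiv ℝ F c` surjective; then `l ≤ 2 n` (real dimension), `0` is admissible. Choose `c ∈ T`, `l` admissible at `c` with `l` maximal over all points of `T`; `k = 2 n - l`. Let `L : Cn n → (Fin k → ℝ)` be linear such that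
`(fderiv F c, L)` is bijective (`L` = a projection onto `ker (fderiv F c)`, of dimension `k`, followed by coordinates). `a z = (F z, L (z - c))` is analytic at `c` with bijective derivative; the inverse function theorem (`HasStrictFDerivAt.toOpenPartialHomeomorph`, the inverse is analytic: `OpenPartialHomeomorph.analyticAt_symm'` or similar, or use `ContDiffAt` with `n = ω`) gives `O`, `δ`, `b`
(`O = ` the source intersected with the preimage of a small ball, such that `F` is analytic on `O`, `F = 0` on `T ∩ O`, `b` analytic on the ball). `dens`: let `c' ∈ T ∩ O`, `f` as in the statement, `φ t = f (b (0, t))`, analytic near `t' = (a c').2`, and suppose that it is not identically `0` near `t'`. Let `N ⊆ O` be a neighbourhood of `c'` and `β` a ball around `t'` on which `φ` is analytic, such that `f = 0` on `T ∩ N`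
and `(a z).2 ∈ β` for `z ∈ N`. For `z ∈ T ∩ N`: `b (0, (a z).2) = b (a z) = z`, so `φ (a z).2 = f z = 0`. By the identity theorem, for every `x ∈ β` some iterated derivative `iteratedFDeriv ℝ i φ x` is not zero; let `o x` be the smallest such `i`. Choose `z1 ∈ T ∩ N` with `m = o ((a z1).2)` minimal (`m ≥ 1`). So the derivatives of order `< m` vanish at `(a z).2` for all `z ∈ T ∩ N`, and there are vectors
`v_1 … v_(m-1)` such that `ψ x = iteratedFDeriv ℝ (m-1) φ x (v_1, …)` is analytic on `β`, `ψ ((a z).2) = 0` for `z ∈ T ∩ N`, `fderiv ψ ((a z1).2) ≠ 0`. The map `F' z = (ψ ((a z).2), F z)` with values in `ℝ^(l+1)` is analytic at `z1`, vanishes on `T` near `z1`, and its derivative at `z1` is surjective: the derivative of `a` at `z1` is bijective (chain rule for `b ∘ a = id`, `a ∘ b = id`), so `(x, t) ↦ (fderiv ψ _ t, x)` is surjective. So `l + 1` is admissible at `z1 ∈ T`, a contradiction. -/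
def S_Sel : Prop := ∀ (n : ℕ) (T : Set (Cn n)), T.Nonempty →
  ∃ (c : Cn n) (l k : ℕ) (a : Cn n → (Fin l → ℝ) × (Fin k → ℝ))
    (b : (Fin l → ℝ) × (Fin k → ℝ) → Cn n) (O : Set (Cn n)) (δ : ℝ), SelData T c l k a b O δ

/-- **Cplx.** Complexification of a real analytic map.

PROOF. Power series `p` of `f` at `a`, `‖p i‖ ≤ C r⁻ⁱ`. Define complex multilinear maps `q i (z_1, …, z_i) = ∑_{j : Fin i → Fin m} (∏_s (z_s) (j s)) • p i (e_{j 1}, …, e_{j i})` (the values in `Cn k`), `‖q i‖ ≤ C (m / r)ⁱ`, equal to `p i` on real vectors. The formal multilinear series `q` over `ℂ` has radius `≥ r / m > 0` (for `m = 0` everything is trivial), `q.hasFPowerSeriesOnBall`; `F z = q.sum (z - a)`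
is analytic, hence differentiable, on the ball, and for real `z` its sum is the sum of `p`, i.e. `f`. -/
def S_Cplx : Prop := ∀ (m k : ℕ) (f : (Fin m → ℝ) → Cn k) (a : Fin m → ℝ), AnalyticAt ℝ f a →
  ∃ ρ > 0, ∃ F : Cn m → Cn k, DifferentiableOn ℂ F (ball (fun i => (a i : ℂ)) ρ) ∧
    ∀ t ∈ ball a ρ, F (fun i => (t i : ℂ)) = f t

/-- **C1.** A real analytic curve lies in a complex curve. Uses `Cplx`.

PROOF. `S` = the complexification of `s` at `t0` (a map of `Cn 1`); its derivative at `t0` in the direction `1` is `fderiv ℝ s t0 1 ≠ 0`, so for some `i` the component `S_i` has a local holomorphic inverse `κ` near `s t0 i` (`HasStrictDerivAt.localInverse`), `κ (S_i ζ) = ζ` for `ζ` near `t0`. `h z = z (1 - i) - S_(1-i) (κ (z i))` is holomorphic near `s t0`,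
`h (s t) = 0` for real `t` near `t0`, and `h` is not identically zero (it is `z (1 - i)` plus a function of `z i`). -/
def S_C1 : Prop := ∀ (s : (Fin 1 → ℝ) → Cn 2) (t0 : Fin 1 → ℝ), AnalyticAt ℝ s t0 →
  Function.Injective (fderiv ℝ s t0) → ∃ ρ > 0, ∃ h : Cn 2 → ℂ,
    DifferentiableOn ℂ h (ball (s t0) ρ) ∧ (∃ z ∈ ball (s t0) ρ, h z ≠ 0) ∧
    ∀ᶠ t in 𝓝 t0, h (s t) = 0

/-- The complex determinant of the two partial derivatives. -/
noncomputable def kap (s : (Fin 2 → ℝ) → Cn 2) (t : Fin 2 → ℝ) : ℂ :=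
  fderiv ℝ s t (Pi.single 0 1) 0 * fderiv ℝ s t (Pi.single 1 1) 1 -
    fderiv ℝ s t (Pi.single 0 1) 1 * fderiv ℝ s t (Pi.single 1 1) 0

/-- **CC.** A real surface with complex tangent planes is a complex curve.

PROOF. `x_j t = fderiv ℝ s t (e_j) ∈ Cn 2`, `j = 0, 1`. At `t0` they are linearly independent over `ℝ` and dependent over `ℂ`, so both are complex multiples of one vector `x ≠ 0`; choose `i` with `x i ≠ 0`: the numbers `x_0 i`, `x_1 i` are `ℝ`-independent (`x_j = μ_j x`). So `t ↦ s t i ∈ ℂ` has an invertible real derivative at `t0`; by the inverse function theorem it has a `C¹` local inverse `κ : ℂ → ℝ²` near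
`s t0 i`. For `t` near `t0`: `kap s t = 0` and (`x_0 i`, `x_1 i`) not both `0` give `α(t) ∈ ℂ` with `x_j (1-i) = α(t) x_j i` for `j = 0, 1`. `φ ζ = s (κ ζ) (1 - i)` has the real derivative `dφ = α dζ` at `ζ` (chain rule: `dζ = d(s_i) ∘ dκ`), so it is complex differentiable near `s t0 i`. `h z = z (1 - i) - φ (z i)`: `h (s t) = 0` near `t0` (`κ (s t i) = t`), not identically zero. -/
def S_CC : Prop := ∀ (s : (Fin 2 → ℝ) → Cn 2) (t0 : Fin 2 → ℝ), AnalyticAt ℝ s t0 →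
  Function.Injective (fderiv ℝ s t0) → (∀ᶠ t in 𝓝 t0, kap s t = 0) →
  ∃ ρ > 0, ∃ h : Cn 2 → ℂ, DifferentiableOn ℂ h (ball (s t0) ρ) ∧
    (∃ z ∈ ball (s t0) ρ, h z ≠ 0) ∧ ∀ᶠ t in 𝓝 t0, h (s t) = 0

/-- **TRc.** Straightening of a totally real surface. Uses `Cplx`.

PROOF. `S` = the complexification of `s` at `t0`, `psi w = S (t0 + w)`: holomorphic near `0`, its derivative at `0` maps `e_j` to `fderiv ℝ s t0 e_j`, so it is invertible over `ℂ` (`kap ≠ 0`). Inverse function theorem over `ℂ`: a chart `e` with `W` an open neighbourhood of `0`, `O = psi '' W` open, `pi` the inverse (holomorphic; `img`: `V = univ`). -/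
def S_TRc : Prop := ∀ (s : (Fin 2 → ℝ) → Cn 2) (t0 : Fin 2 → ℝ), AnalyticAt ℝ s t0 →
  kap s t0 ≠ 0 → ∃ e : Chart (univ : Set (Cn 2)) 2, (0 : Cn 2) ∈ e.W ∧ e.psi 0 = s t0 ∧
    ∃ ρ > 0, ball (0 : Cn 2) ρ ⊆ e.W ∧
      ∀ t : Fin 2 → ℝ, ‖t‖ < ρ → e.psi (fun i => (t i : ℂ)) = s (t0 + t)

/-- **K0.** Uses `PkD`. PROOF. `Fin 0 → ℝ` is a point, so every `z ∈ Pk A ∩ ball 0 r ∩ O` satisfies `a z = 0` (`sub`), `z = b (a z) = b 0 = c`. `PkD` with `h z = z i0 - c i0` (`i0` an index) gives a peak point near `c`, in `ball 0 r ∩ O`, with `h ≠ 0`, so different from `c`. -/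
def S_K0 : Prop := ∀ (n : ℕ) (A : Set (Cn n)) (r : ℝ), 0 < n → IsOpen A →
  ∀ (c : Cn n) (l : ℕ) (a : Cn n → (Fin l → ℝ) × (Fin 0 → ℝ))
    (b : (Fin l → ℝ) × (Fin 0 → ℝ) → Cn n) (O : Set (Cn n)) (δ : ℝ),
    ¬ SelData (Pk A ∩ ball 0 r) c l 0 a b O δ

/-- **K1.** Uses `PkD`, `C1`. PROOF. `s t = b (0, t)` is analytic at `0`, its derivative is injective (`(a (s t)).2 = t` near `0`). `h` from `C1` vanishes at all points `z = s ((a z).2)` of `Pk A ∩ ball 0 r ∩ O` near `c = b 0`, which contradicts `PkD`. -/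
def S_K1 : Prop := ∀ (A : Set (Cn 2)) (r : ℝ), IsOpen A →
  ∀ (c : Cn 2) (l : ℕ) (a : Cn 2 → (Fin l → ℝ) × (Fin 1 → ℝ))
    (b : (Fin l → ℝ) × (Fin 1 → ℝ) → Cn 2) (O : Set (Cn 2)) (δ : ℝ),
    ¬ SelData (Pk A ∩ ball 0 r) c l 1 a b O δ

/-- **KC.** Uses `PkD`, `CC`, `TRc`, `PkC`.

PROOF. `s t = b (0, t)`, analytic near `0`, `(a (s t)).2 = t`, so its derivative is injective at all `t` near `0`. `f z = kap s ((a z).2)` (real and imaginary part) is analytic near `c`. If `f` vanishes on `Pk A ∩ ball 0 r` near `c` then by `dens` (for the real and for the imaginary part) `kap s t = 0` for `t` near `0`, and `CC` at `t0 = 0` gives `h`, which vanishes at all points `z = s ((a z).2)` of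
`Pk A` near `c`; this contradicts `PkD`. So there is `c' ∈ Pk A ∩ ball 0 r ∩ O`, near `c`, with `kap s t' ≠ 0`, `t' = (a c').2`, `s` analytic at `t'`. `e` from `TRc` at `t'`, `e.psi 0 = s t' = c'`. If `w` is near `0` and `w ∈ Pk (e.pre A)` then `z = e.psi w ∈ Pk A` (`PkC`) is near `c'`, so `z ∈ ball 0 r ∩ O`, `z = s ((a z).2) = e.psi (real vector (a z).2 - t')` and
`e.psi` is injective on `e.W`, so `w` is real. -/
def S_KC : Prop := ∀ (A : Set (Cn 2)) (r : ℝ), IsOpen A →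
  ∀ (c : Cn 2) (l : ℕ) (a : Cn 2 → (Fin l → ℝ) × (Fin 2 → ℝ))
    (b : (Fin l → ℝ) × (Fin 2 → ℝ) → Cn 2) (O : Set (Cn 2)) (δ : ℝ),
    SelData (Pk A ∩ ball 0 r) c l 2 a b O δ →
    ∃ e : Chart (univ : Set (Cn 2)) 2, (0 : Cn 2) ∈ e.W ∧ e.psi 0 ∈ Pk A ∧
      e.psi 0 ∈ ball (0 : Cn 2) r ∧ ∃ ρ > 0, ball (0 : Cn 2) ρ ⊆ e.W ∧
        ∀ w ∈ ball (0 : Cn 2) ρ, w ∈ Pk (e.pre A) → ∀ i, (w i).im = 0

/-- **SgQ.** PROOF. `f k` from `Sgn`. Let `S` be the set of the `k` for which `f k` is not identically zero on `ball 0 r`, `Q = ∏_{k ∈ S} f k`. `Q` is not identically zero: by induction on the finite set, an analytic function on the (connected) ball which is not identically zero is not identically zero on any non-empty open subset (`AnalyticOnNhd.eqOn_zero_of_preconnected_of_eventuallyEq_zero`), so one finds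
smaller and smaller open sets on which more and more factors have no zeros. If `Q z ≠ 0` then the signs of `f k`, `k ∈ S`, are constant near `z` and the other `f k` are zero on the ball. -/
def S_SgQ : Prop := ∀ (n : ℕ) (A : Set (Cn n)) (r : ℝ), 0 < r → Sgn A (ball 0 r) →
  ∃ Q : Cn n → ℝ, AnalyticOnNhd ℝ Q (ball 0 r) ∧ (∃ z ∈ ball (0 : Cn n) r, Q z ≠ 0) ∧
    ∀ z ∈ ball (0 : Cn n) r, Q z ≠ 0 → ∀ᶠ z' in 𝓝 z, (z' ∈ A ↔ z ∈ A)

/-- **KF.** Uses `SgQ`. PROOF. A point `z ∈ Pk A ∩ ball 0 r` is in `closure A` but not in `A`, so `Q z = 0`. By `dens` `Q (b (0, t)) = 0` for `t` near `0`; since `l = 0` the points `b (0, t)` are all the points `z = b (a z)` near `c`. So `Q = 0` near `c ∈ ball 0 r` and `Q = 0` on the ball (identity theorem), a contradiction. -/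
def S_KF : Prop := ∀ (n : ℕ) (A : Set (Cn n)) (r : ℝ), IsOpen A → Sgn A (ball 0 r) →
  ∀ (c : Cn n) (k : ℕ) (a : Cn n → (Fin 0 → ℝ) × (Fin k → ℝ))
    (b : (Fin 0 → ℝ) × (Fin k → ℝ) → Cn n) (O : Set (Cn n)) (δ : ℝ),
    ¬ SelData (Pk A ∩ ball 0 r) c 0 k a b O δ

/-- **Div1.** Division by a coordinate.

PROOF. `G' z = dslope (fun ζ => G (update z i ζ)) 0 (z i)`; for `z i ≠ 0` it is `G z / z i`, holomorphic near such `z`. Near a point of `{z i = 0}`: for `‖z i‖ < s`, `s` small, `G' z = (2 π I)⁻¹ ∮_{|ζ| = s} G (update z i ζ) / (ζ (ζ - z i)) dζ` (Cauchy's formula for the function `ζ ↦ dslope`), which is holomorphic in `z` (`Osgood.differentiableAt_circleIntegral`).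
(Other proof: `G' z = ∫_0^1 ∂_i G (update z i (θ z i)) dθ`.) -/
def S_Div1 : Prop := ∀ (k : ℕ) (i : Fin k) (c : Cn k) (ρ : ℝ) (G : Cn k → ℂ), c i = 0 →
  DifferentiableOn ℂ G (ball c ρ) → (∀ z ∈ ball c ρ, z i = 0 → G z = 0) →
  ∃ G' : Cn k → ℂ, DifferentiableOn ℂ G' (ball c ρ) ∧ ∀ z ∈ ball c ρ, G z = z i * G' z

/-- **DivN.** Uses `Div1`.

PROOF. Suppose that for every `κ` there is `G_κ`, `DifferentiableOn ℂ` on the ball, with `G z = z i ^ κ * G_κ z`. For fixed `z` in the ball the function `ζ ↦ G (update z i ζ)` is holomorphic on `‖ζ‖ < ρ` and has a zero of order `≥ κ` at `0` for all `κ`, so it is `0`, `G z = 0`: contradiction. So there is a largest `κ`, and if `G_κ` vanishes on `{z i = 0}`,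
`Div1` gives `G_(κ+1)`. -/
def S_DivN : Prop := ∀ (k : ℕ) (i : Fin k) (c : Cn k) (ρ : ℝ) (G : Cn k → ℂ), c i = 0 →
  DifferentiableOn ℂ G (ball c ρ) → (∃ z ∈ ball c ρ, G z ≠ 0) →
  ∃ (κ : ℕ) (G' : Cn k → ℂ), DifferentiableOn ℂ G' (ball c ρ) ∧
    (∀ z ∈ ball c ρ, G z = z i ^ κ * G' z) ∧ ∃ z ∈ ball c ρ, z i = 0 ∧ G' z ≠ 0

/-- **RDiv.** Uses `Cplx`, `DivN`.

PROOF. Identify `(Fin 1 → ℝ) × (Fin k → ℝ)` with `Fin (k + 1) → ℝ` (`Fin.cons`), complexify: `F` holomorphic on a ball of `Cn (k + 1)`, not identically zero, `DivN` with `i = 0`: `F z = z 0 ^ κ * F' z`, `F'` not identically zero on `{z 0 = 0}`. `φ' x = Re (F' x)` for real `x`. For `x 0 ≠ 0` real, `F' x = F x / x 0 ^ κ` is real, so by continuity `F'` is real at real points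
(`F = φ` real there). `φ' (0, ·)` is not identically zero near `0`: otherwise `F'` vanishes at all real points of `{z 0 = 0}` near `0`, hence on `{z 0 = 0}` (a holomorphic function which vanishes at the real points near `0` is zero near `0`: all its derivatives in real directions vanish; then on the ball). -/
def S_RDiv : Prop := ∀ (k : ℕ) (φ : (Fin 1 → ℝ) × (Fin k → ℝ) → ℝ), AnalyticAt ℝ φ 0 →
  (¬ ∀ᶠ x in 𝓝 0, φ x = 0) → ∃ (m : ℕ) (φ' : (Fin 1 → ℝ) × (Fin k → ℝ) → ℝ),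
    AnalyticAt ℝ φ' 0 ∧ (∀ᶠ x in 𝓝 0, φ x = (x.1 0) ^ m * φ' x) ∧
    ¬ ∀ᶠ t in 𝓝 (0 : Fin k → ℝ), φ' (0, t) = 0

/-- **OneS.** Uses `SgQ`, `RDiv`, `NoMax`.

PROOF. `Q` from `SgQ`, `φ = Q ∘ b`, analytic at `0`, not identically zero near `0` (otherwise `Q = 0` near `c`, so on the ball). `m, φ'` from `RDiv`. `f z = φ' (0, (a z).2)` is analytic near `c`; if `f = 0` on `Pk A ∩ ball 0 r` near `c`, then by `dens` `φ' (0, t) = f (b (0, t)) = 0` for `t` near `0`, a contradiction. So there are points `c' ∈ Pk A ∩ ball 0 r ∩ O` arbitrarily close to `c` with `φ' (a c') ≠ 0`, `(a c').1 = 0`;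
take `c'` so close that the equation `φ x = x_0 ^ m φ' x` holds near `a c'`, `φ'` continuous there. Let `ρ z = (a z).1 0`: analytic near `c'`, `ρ c' = 0`, derivative not zero (`a` is a local diffeomorphism). There is a ball `D` around `a c'` on which `φ x ≠ 0` for `x_0 ≠ 0`. The sets `D+ = {x ∈ D | x_0 > 0}`, `D- = {x ∈ D | x_0 < 0}` are convex; `Q ≠ 0` on `b '' D±`, so membership in `A` is locally constant, hence constant, on
`b '' D+` and on `b '' D-`. `A` is open, `c' ∈ closure A`, and `{x_0 = 0}` has empty interior, so at least one of them is in `A`. If both were in `A`, then `closure A` would be a neighbourhood of `c'`, and the function `Φ` from `c' ∈ Pk A` would satisfy `Φ z ≤ Φ c'` for all `z` near `c'` (by continuity of `Φ` near `c'`), which contradicts `NoMax` and `Lv Φ c' v > 0` (`v ≠ 0` exists: `0 < n`, since `1 + k = 2 n`).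
So exactly one is in `A`, say `D-` (otherwise replace `ρ` by `-ρ`). Points with `x_0 = 0` near `a c'` are not in `A`: `A` is open, it would meet `b '' D+`. So `z ∈ A ↔ ρ z < 0` near `c'`. -/
def S_OneS : Prop := ∀ (n : ℕ) (A : Set (Cn n)) (r : ℝ), IsOpen A → Sgn A (ball 0 r) →
  ∀ (c : Cn n) (k : ℕ) (a : Cn n → (Fin 1 → ℝ) × (Fin k → ℝ))
    (b : (Fin 1 → ℝ) × (Fin k → ℝ) → Cn n) (O : Set (Cn n)) (δ : ℝ),
    SelData (Pk A ∩ ball 0 r) c 1 k a b O δ →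
    ∃ (c' : Cn n) (ρ : Cn n → ℝ), c' ∈ Pk A ∧ c' ∈ ball (0 : Cn n) r ∧ AnalyticAt ℝ ρ c' ∧
      ρ c' = 0 ∧ fderiv ℝ ρ c' ≠ 0 ∧ ∀ᶠ z in 𝓝 c', (z ∈ A ↔ ρ z < 0)

/-- **LevP.** The Levi form at a smooth peak point. Uses `Tay`.

PROOF. `Φ` for `c ∈ Pk A`: `Φ z ≤ Φ c` for `z` near `c` with `ρ z < 0`. (i) If `dρ v < 0` then `ρ (c + t v) < 0` for small `t > 0`, so `dΦ v ≤ 0`. So (linear algebra) `dΦ = λ dρ` with `λ ≥ 0`: choose `v0` with `dρ v0 = -1`; for `u ∈ ker dρ` and all real `s`: `dΦ (v0 + s u) ≤ 0`, so `dΦ u = 0`; `λ = -dΦ v0`. (ii) If `λ = 0`: for `dρ v < 0`, `Tay` gives `D2 Φ c v ≤ 0`; by continuity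
this holds for `dρ v ≤ 0`, and `D2 Φ c (-v) = D2 Φ c v`, so for all `v`; this contradicts `Lv Φ c v > 0` (`v ≠ 0` exists because `dρ ≠ 0`). (iii) `λ > 0`. Let `v ∈ ker dρ`, `w` with `dρ w < - D2 ρ c v`; `γ t = c + t v + (t²/2) w`: by `Tay` `ρ (γ t) = (t²/2) (D2 ρ c v + dρ w) + o(t²) < 0` for small `t ≠ 0`, so `0 ≥ Φ (γ t) - Φ c = (t²/2)(D2 Φ c v + λ dρ w) + o(t²)`; hence
`D2 Φ c v ≤ -λ dρ w`; let `dρ w → - D2 ρ c v`: `D2 Φ c v ≤ λ D2 ρ c v`. Apply this to `v` and `I • v` and add: `0 < Lv Φ c v ≤ λ Lv ρ c v`. -/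
def S_LevP : Prop := ∀ (n : ℕ) (A : Set (Cn n)) (c : Cn n) (ρ : Cn n → ℝ), c ∈ Pk A →
  ContDiffAt ℝ 2 ρ c → ρ c = 0 → fderiv ℝ ρ c ≠ 0 → (∀ᶠ z in 𝓝 c, (z ∈ A ↔ ρ z < 0)) →
  ∀ v ≠ 0, fderiv ℝ ρ c v = 0 → fderiv ℝ ρ c (Complex.I • v) = 0 → 0 < Lv ρ c v

/-- **NF1.** PROOF. `ℓ = fderiv ℝ ρ c`, `ℓ v = Re (α v_0)` for some `α ≠ 0`. `e = Chart.aff c L` restricted (composition with `Chart.idc`) to the open set of the `w` with `c + L w ∈ ball 0 r`, `L w = (I / α) w`: `ρ (c + L w) = Re (I w_0) + o(‖w‖) = - Im w_0 + o(‖w‖)`. `R = e.pre A ∩ ball 0 ρ'`, `ρ'` small (then `(e.pre A ∩ ball 0 ρ') \ R = ∅`). For `η > 0` and `‖w‖ < ρ(η) ≤ ρ'`: `|ρ (c + L w) + Im w_0| ≤ (η/2) ‖w‖`,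
so `w ∈ R` implies `Im w_0 ≥ -η ‖w_0‖`, and `η ‖w_0‖ < Im w_0` implies `ρ < 0` (if `w ≠ 0`; for `w = 0` the premise is false). -/
def S_NF1 : Prop := ∀ (A : Set (Cn 1)) (c : Cn 1) (ρ : Cn 1 → ℝ) (r : ℝ), IsOpen A →
  c ∈ ball (0 : Cn 1) r → c ∉ A → ContDiffAt ℝ 2 ρ c → ρ c = 0 → fderiv ℝ ρ c ≠ 0 →
  (∀ᶠ z in 𝓝 c, (z ∈ A ↔ ρ z < 0)) → LT TypeA1 A r

/-- **NF2.** Normal form of a smooth hypersurface with Levi form different from zero. Uses `Tay`.

PROOF. `ℓ = fderiv ℝ ρ p`, `ℓ z = Re (α z)`, `α z = α_0 z_0 + α_1 z_1` a complex linear form, not zero (`α z = ℓ z - I ℓ (I z)`); `α v = 0`. Choose `w0` with `α w0 = I`; `v`, `w0` is a basis of `Cn 2`. `κ = 2 / √|Lv ρ p v| > 0`, `L (u, w) = u κ v + w w0` (a linear isomorphism). `ρ (p + L (u, w)) = - Im w + q (u, w) + o(‖(u, w)‖²)`, `q x = D2 ρ p (L x) / 2` a real quadratic form (`Tay`). `q (u, 0) = a ‖u‖² + Re (b u²)`,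
with `a = (q (1, 0) + q (I, 0)) / 2 = κ² Lv ρ p v / 4 = ±1 =: s` (the sign of `Lv ρ p v`) and a suitable `b ∈ ℂ` (every real quadratic form on `ℂ` is of this form). `|q (u, w) - q (u, 0)| ≤ C ‖w‖ (‖u‖ + ‖w‖)`. `e.psi (u, w') = p + L (u, w' + I b u²)`, `e.pi z = (u, w - I b u²)` for `(u, w) = L⁻¹ (z - p)`, `e.O = ball p r`, `e.W = e.psi ⁻¹' ball p r`. `Im (I b u²) = Re (b u²)`, so `ρ (e.psi (u, w')) = - Im w' + s ‖u‖² + E`,
`|E| ≤ C ‖w‖ (‖u‖ + ‖w‖) + o(‖u‖² + ‖w‖²)` with `w = w' + I b u²`, `‖w‖ ≤ ‖w'‖ + |b| ‖u‖²`; so for every `η > 0`: `|E| ≤ (η/2) (‖u‖² + ‖w'‖)` on a small ball. `ρ'` small such that `R0 = {ρ < 0}` on `e.psi '' ball 0 ρ'`. If `s = 1`: `(u, w') ∈ R` implies `Im w' > ‖u‖² - η (‖u‖² + ‖w'‖)`; `(1 + η) ‖u‖² + η ‖w'‖ < Im w'` implies `ρ < 0`. If `s = -1`: `η ‖w'‖ - (1 - η) ‖u‖² < Im w'` implies `ρ < 0`. -/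
def S_NF2 : Prop := ∀ (R0 : Set (Cn 2)) (p : Cn 2) (ρ : Cn 2 → ℝ) (r : ℝ) (v : Cn 2), 0 < r →
  ContDiffAt ℝ 2 ρ p → ρ p = 0 → fderiv ℝ ρ p ≠ 0 → (∀ᶠ z in 𝓝 p, (z ∈ R0 ↔ ρ z < 0)) →
  fderiv ℝ ρ p v = 0 → fderiv ℝ ρ p (Complex.I • v) = 0 → Lv ρ p v ≠ 0 →
  ∃ (e : Chart (univ : Set (Cn 2)) 2) (ρ' : ℝ), MapsTo e.psi e.W (ball p r) ∧ (0 : Cn 2) ∈ e.W ∧
    e.psi 0 = p ∧ 0 < ρ' ∧ ball (0 : Cn 2) ρ' ⊆ e.W ∧
    (0 < Lv ρ p v → TypeA2 (e.pre R0 ∩ ball 0 ρ')) ∧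
    (Lv ρ p v < 0 → TypeB2 (e.pre R0 ∩ ball 0 ρ'))

/-- **LT1.** Uses `Sel`, `K0`, `KF`, `OneS`, `NF1`. PROOF. `Sel` for `T = Pk A ∩ ball 0 r` (`n = 1`, `l + k = 2`): `k = 0` is excluded by `K0`, `l = 0` by `KF`; `l = k = 1`: `OneS` and `NF1` (`AnalyticAt.contDiffAt`, restrict scalars are not needed: everything is real). -/
def S_LT1 : Prop := ∀ (A : Set (Cn 1)) (r : ℝ), 0 < r → IsOpen A → Sgn A (ball 0 r) →
  (0 : Cn 1) ∈ Pk A → LT TypeA1 A r

/-- **TR.** The totally real case (proved in block W). -/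
def S_TR : Prop := ∀ (A : Set (Cn 2)) (r : ℝ), 0 < r → IsOpen A → Sgn A (ball 0 r) →
  (0 : Cn 2) ∈ Pk A → (∀ w ∈ ball (0 : Cn 2) r, w ∈ Pk A → ∀ i, (w i).im = 0) → LT P2 A r

/-- **LT2.** Uses `Sel`, `K0`, `K1`, `KC`, `KF`, `OneS`, `LevP`, `NF2`, `Mv`, `LTE`, `TR`.

PROOF. `Sel` for `T = Pk A ∩ ball 0 r`, `l + k = 4`. `k = 0, 1`: `K0`, `K1`. `k = 4`: `KF`. `k = 3`: `OneS`: `c'`, `ρ`; a vector `v ≠ 0` with `dρ v = dρ (I v) = 0` (kernel of a complex linear form on `Cn 2`), `LevP`: `Lv ρ c' v > 0`; `NF2` with `R0 = A`, `p = c'` and a radius with `ball c' r1 ⊆ ball 0 r`: `R = e.pre A ∩ ball 0 ρ'`. `k = 2`: `KC` gives `e`, `ρ`; `Mv` gives `IsOpen (e.pre A)`, `0 ∈ Pk (e.pre A)`, a radius `ρ''`;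
with `r' = min ρ ρ''` (`Sgn` on a smaller ball) `TR` gives `LT P2 (e.pre A) r'` and `LTE` concludes. -/
def S_LT2 : Prop := ∀ (A : Set (Cn 2)) (r : ℝ), 0 < r → IsOpen A → Sgn A (ball 0 r) →
  (0 : Cn 2) ∈ Pk A → LT P2 A r

end KP
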