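import Pool.Agent.Lib.KP.SpecG

/-!
# KP (MP_64edc4_ag), block T: boundary types, model domains, scalings, Hartogs figures
-/

set_option autoImplicit false

open Set Filter Topology Metric

namespace KP

/-- The product of `n` upper half planes. -/
def HH (n : ℕ) : Set (Cn n) := {z | ∀ i, 0 < (z i).im}

/-- The Siegel domain (the unbounded realization of the unit ball of `ℂ²`). -/
def Sg : Set (Cn 2) := {z | ‖z 0‖ ^ 2 < (z 1).im}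

/-- The unit ball of `ℂ²`. -/
def B2 : Set (Cn 2) := {z | nsq z < 1}

/-- Smooth boundary point, dimension one. -/
def TypeA1 (R : Set (Cn 1)) : Prop := ∀ η > 0, ∃ ρ > 0, ∀ z ∈ ball (0 : Cn 1) ρ,
  (z ∈ R → -(η * ‖z 0‖) ≤ (z 0).im) ∧ (η * ‖z 0‖ < (z 0).im → z ∈ R)

/-- Strictly pseudoconvex boundary point, dimension two. -/
def TypeA2 (R : Set (Cn 2)) : Prop := ∀ η > 0, ∃ ρ > 0, ∀ z ∈ ball (0 : Cn 2) ρ,
  (z ∈ R → (1 - η) * ‖z 0‖ ^ 2 - η * ‖z 1‖ ≤ (z 1).im) ∧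
    ((1 + η) * ‖z 0‖ ^ 2 + η * ‖z 1‖ < (z 1).im → z ∈ R)

/-- Corner. -/
def TypeD (R : Set (Cn 2)) : Prop := ∀ η > 0, ∃ ρ > 0, ∀ z ∈ ball (0 : Cn 2) ρ,
  (z ∈ R → -(η * (|(z 0).im| + |(z 1).im|)) ≤ (z 0).im ∧
    -(η * (|(z 0).im| + |(z 1).im|)) ≤ (z 1).im) ∧
    (η * (|(z 0).im| + |(z 1).im|) < (z 0).im → η * (|(z 0).im| + |(z 1).im|) < (z 1).im → z ∈ R)

/-- Strictly pseudoconcave boundary point, dimension two. -/
def TypeB2 (R : Set (Cn 2)) : Prop := ∀ η > 0, ∃ ρ > 0, ∀ z ∈ ball (0 : Cn 2) ρ,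
  η * ‖z 1‖ - (1 - η) * ‖z 0‖ ^ 2 < (z 1).im → z ∈ R

/-- Every point is an isolated fixed point of an involution. -/
def SymP {n : ℕ} (D : Set (Cn n)) : Prop := ∀ p ∈ D, ∃ s : Cn n → Cn n, HolOn s D ∧
  MapsTo s D D ∧ (∀ x ∈ D, s (s x) = x) ∧ s p = p ∧ ∃ O ∈ 𝓝 p, ∀ x ∈ O ∩ D, s x = x → x = p

/-- **HP.** Holomorphic functions with nonnegative real part.

PROOF. First let `Re k > 0` on the ball. With `a = k 0` the function `h t = (k t - a) / (k t + conj a)` is holomorphic on `ball 0 ρ`, `‖h t‖ < 1` (because `‖k + conj a‖² - ‖k - a‖² = 4 Re k Re a > 0`), `h 0 = 0`; Schwarz: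
`‖h t‖ ≤ ‖t‖ / ρ` (`Complex.norm_le_norm_of_mapsTo_ball` or `Complex.dist_le_div_mul_dist_of_mapsTo_ball`). `k (1 - h) = a + conj a * h`, so `‖k t‖ (1 - ‖t‖/ρ) ≤ ‖a‖ (1 + ‖t‖/ρ)`. In general apply this to `k + ε`, `ε → 0+`. -/
def S_HP : Prop := ∀ (k : ℂ → ℂ) (ρ : ℝ), 0 < ρ → DifferentiableOn ℂ k (ball 0 ρ) →
  (∀ t ∈ ball (0 : ℂ) ρ, 0 ≤ (k t).re) →
  ∀ t ∈ ball (0 : ℂ) ρ, ‖k t‖ * (ρ - ‖t‖) ≤ ‖k 0‖ * (ρ + ‖t‖)

/-- **MinP.** PROOF. `exp (-F)` is holomorphic with norm `exp (-Re F) ≤ 1` and norm `1` at `t0`; maximum modulus principle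
(`Complex.eqOn_of_isPreconnected_of_isMaxOn_norm` or `Complex.norm_eqOn_of_isPreconnected_of_isMaxOn`): the norm is `1` everywhere. -/
def S_MinP : Prop := ∀ (F : ℂ → ℂ) (ρ : ℝ), DifferentiableOn ℂ F (ball 0 ρ) →
  (∀ t ∈ ball (0 : ℂ) ρ, 0 ≤ (F t).re) → ∀ t0 ∈ ball (0 : ℂ) ρ, (F t0).re = 0 →
  ∀ t ∈ ball (0 : ℂ) ρ, (F t).re = 0

/-- **NorS.** Uses `HP`.

PROOF. `-I * f t` is in `Complex.slitPlane`: its real part is `Im f t`, its imaginary part `-Re f t`; if `Re f t = 0` then `‖f t‖ = |Im f t|` and `Im f t ≥ - |Im f t| / 4`, `f t ≠ 0`, so `Im f t > 0`. Hence `k t = (-I * f t) ^ (1/2 : ℂ)` is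
holomorphic on the ball, `k t ^ 2 = -I * f t`, and `Re (k t) > 0` (`|arg| < π / 2`). `HP` gives `‖k t‖ * (1/2) ≤ ‖k 0‖ * (3/2)`, so `‖f t‖ = ‖k t‖² ≤ 9 ‖k 0‖²`. -/
def S_NorS : Prop := ∀ f : ℂ → ℂ, DifferentiableOn ℂ f (ball 0 1) →
  (∀ t ∈ ball (0 : ℂ) 1, f t ≠ 0 ∧ -(1 / 4 * ‖f t‖) ≤ (f t).im) →
  ∀ t : ℂ, ‖t‖ ≤ 1 / 2 → ‖f t‖ ≤ 9 * ‖f 0‖

/-- **PkS.** PROOF. By `AnalyticAt.eventually_constant_or_nhds_le_map_nhds` either `g` is constant near `0` (so `g = 0` near `0`), or `g` maps neighbourhoods of `0` onto neighbourhoods of `0`; in the second case there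
is `t` arbitrarily close to `0` with `g t = -I * δ`, `δ > 0`, for which `-(δ / 2) ≤ -δ` is false. -/
def S_PkS : Prop := ∀ g : ℂ → ℂ, AnalyticAt ℂ g 0 → g 0 = 0 →
  (∀ᶠ t in 𝓝 (0 : ℂ), -(1 / 2 * ‖g t‖) ≤ (g t).im) → ∀ᶠ t in 𝓝 (0 : ℂ), g t = 0

/-- **ScA1.** Uses `NorS`, `MinP`, `PkS`.

PROOF. `ρ1` from `TypeA1` with `η = 1/4`, `ε j = ρ1 / (j + 2)`, `A j z = ε j • z`, `B j z = (ε j)⁻¹ • z`. `HH 1` is open, convex. `0 ∉ R` (otherwise, `R` being open, `z = -I δ ∈ R` for small `δ > 0`, but `-δ/4 ≤ -δ` is false). `inside`: on the compact `Q`: `Im z ≥ δ > 0`, `‖z‖ ≤ M`; choose `η` with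
`η M < δ`, `ρ` for `η` from `TypeA1`; for `j` large `ε j M < min ρ ρ'` and `η ‖ε z‖ < Im (ε z)`. `start`: `η = 1/4`, `z = I ε j`. `normal`: `M' = 9 M`, `ρ' = ρ1`, `J = 0`: `f` satisfies `-(1/4) ‖f t 0‖ ≤ Im (f t 0)` (divide by `ε j`), `f t 0 ≠ 0` (`0 ∉ R`): `NorS`. `limit`: for every `η > 0` and `j` large
`-(η ‖f j t 0‖) ≤ Im (f j t 0)`, in the limit `0 ≤ Im (f' t 0)`; if it is `0` for some `t` then `MinP` for `-I * f' t 0` gives `Im (f' 0 0) = 0`, a contradiction. `peak`: `closure R ∩ ball 0 ρ1` satisfies the closed condition `-(1/4) ‖z 0‖ ≤ Im (z 0)`, so `f = 0` near `0` by `PkS`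
(continuity of `f`; `f t 0` is analytic at `0`), and `f = 0` on the ball by the identity theorem. -/
def S_ScA1 : Prop := ∀ R : Set (Cn 1), IsOpen R → TypeA1 R →
  ∃ A B : ℕ → Cn 1 → Cn 1, Scaling R (HH 1) (fun _ => Complex.I) A B

/-- **ScA2.** Uses `NorS`, `MinP`, `PkS`.

PROOF. `ρ1 ≤ 1` from `TypeA2` with `η = 1/4`, `ε j = ρ1 / (j + 2)`, `A j z = ![√(ε j) * z 0, ε j * z 1]`, `B j` the inverse. `Sg` is open and convex (`‖·‖²` is convex). `0 ∉ R` (otherwise `(0, -I δ) ∈ R`), and more: a point of `R ∩ ball 0 ρ1` with `z 1 = 0` has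
`(3/4) ‖z 0‖² ≤ 0`, so it is `0`; so `z 1 ≠ 0` on `R ∩ ball 0 ρ1`. `inside`: on `Q`: `Im (z 1) - ‖z 0‖² ≥ δ > 0`, `‖z‖ ≤ M`; `η (M² + M) < δ`; for `j` large `‖A j z‖ < min ρ(η) ρ'` and `(1 + η) ε ‖z 0‖² + η ε ‖z 1‖ < ε Im (z 1)`. `start`: `z = (0, I ε j)` with `η = 1/4`. `normal`: `ρ' = ρ1`: `f` satisfies
`(3/4) ‖f t 0‖² - (1/4) ‖f t 1‖ ≤ Im (f t 1)`, `f t 1 ≠ 0`; `NorS`: `‖f t 1‖ ≤ 9 M`, and `‖f t 0‖² ≤ (4/3)(5/4) 9 M = 15 M`, so `M' = 9 M + 15 M + 1` (`x² ≤ y → x ≤ y + 1`). `limit`: as `j → ∞`: for every `η > 0`: `(1 - η) ‖f' t 0‖² - η ‖f' t 1‖ ≤ Im (f' t 1)`, so `‖f' t 0‖² ≤ Im (f' t 1)`.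
If there is equality at `t0`, `a = f' t0 0`, then `F t = -I * f' t 1 - 2 * conj a * f' t 0 + ‖a‖²` has `Re F t = Im (f' t 1) - 2 Re (conj a * f' t 0) + ‖a‖² ≥ ‖f' t 0 - a‖² ≥ 0` and `Re F t0 = 0`; `MinP`: `Re F = 0` on the ball, so `f' t 0 = a` and `Im (f' t 1) = ‖a‖²` for all `t`, which
contradicts `f' 0 ∈ Sg`. `peak`: near `0` the closed condition `(3/4) ‖z 0‖² - (1/4) ‖z 1‖ ≤ Im (z 1)` holds on `closure R`; `PkS` for `f t 1` gives `f t 1 = 0` near `0`, then `f t 0 = 0`; identity theorem. -/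
def S_ScA2 : Prop := ∀ R : Set (Cn 2), IsOpen R → TypeA2 R →
  ∃ A B : ℕ → Cn 2 → Cn 2, Scaling R Sg ![0, Complex.I] A B

/-- **ScD.** Uses `HP`, `MinP`.

PROOF. Elementary fact (E): if `a, b` are real, `0 < η ≤ 1/8`, `-(η (|a| + |b|)) ≤ a` and `≤ b`, then `|a| + |b| ≤ 2 (a + b)` (if `a < 0` then `|a| ≤ η (|a| + |b|)`, ...). `ρ1` from `TypeD` with `η = 1/8`, `ε j = ρ1 / (j + 2)`, `A j z = ε j • z`. `HH 2` is open, convex. `inside`, `start` as in `ScA1` (`z = ε j • (I, I)`: `(1/8)(2 ε) < ε`). `normal`: `ρ' = ρ1`, `J = 0`.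
`a = Im (f t 0)`, `b = Im (f t 1)` satisfy the conditions with `η = 1/8`; `k = -I (f t 0 + f t 1)` has `Re k = a + b ≥ (|a| + |b|)/2 ≥ 0`; `HP` with `ρ = 1`: `‖k t‖ ≤ 7 ‖k 0‖ ≤ 14 M` for `‖t‖ ≤ 3/4`, so `|a|, |b| ≤ 28 M` there. `C = 28 M + 1`, `k_i = C + I * f t i` (real part `C - Im (f t i) ≥ 0` on `ball 0 (3/4)`); `HP` with `ρ = 3/4`, `‖t‖ ≤ 1/2`:
`‖k_i t‖ ≤ 5 ‖k_i 0‖ ≤ 5 (C + M)`. So `M' = 6 C + 5 M`. `limit`: in the limit `0 ≤ Im (f' t i)` for both `i`: from the conditions for all small `η`; `MinP` for `-I * f' t i` as in `ScA1`. `peak`: near `0`, on `closure R`, the conditions hold with `η = 1/8`; for `f` through `0` the function `k = -I (f t 0 + f t 1)` has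
`Re k ≥ 0` near `0`, `k 0 = 0`; `MinP` on a small ball: `Re k = 0`, so `Im (f t i) = 0` near `0` (E), so `f t i` is constant `= 0` near `0` (e.g. `MinP`/open mapping: a holomorphic function with real values on a ball is constant), identity theorem. -/
def S_ScD : Prop := ∀ R : Set (Cn 2), IsOpen R → TypeD R →
  ∃ A B : ℕ → Cn 2 → Cn 2, Scaling R (HH 2) (fun _ => Complex.I) A B

/-- **CayH.** PROOF. `f z i = (z i - I) / (z i + I)`, `g w i = I (1 + w i) / (1 - w i)`; `‖w i‖ < 1 ↔ ...`; `‖z + I‖² - ‖z - I‖² = 4 Im z`. (`pi_norm_lt_iff`, `holOn_iff`, `differentiableOn_pi`.) -/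
def S_CayH : Prop := ∀ n : ℕ, Biholo (HH n) (ball (0 : Cn n) 1)

/-- **CayS.** PROOF. `f z = ![2 * z 0 / (z 1 + I), (z 1 - I) / (z 1 + I)]`, `g w = ![I * w 0 / (1 - w 1), I * (1 + w 1) / (1 - w 1)]`. `‖z 1 - I‖² = ‖z 1 + I‖² - 4 Im (z 1)`, so `nsq (f z) < 1 ↔ 4 ‖z 0‖² < 4 Im (z 1)`. Conversely with `w ∈ B2`: `w 1 ≠ 1`,
`Im (I (1 + w 1)/(1 - w 1)) = (1 - ‖w 1‖²)/‖1 - w 1‖² > ‖w 0‖²/‖1 - w 1‖²`. -/
def S_CayS : Prop := Biholo Sg B2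

/-- **BihT.** PROOF. `HolOn.comp`. -/
def S_BihT : Prop := ∀ (N m k : ℕ) (U : Set (Cn N)) (D : Set (Cn m)) (D' : Set (Cn k)),
  Biholo U D → Biholo D D' → Biholo U D'

/-- **SymB.** PROOF. `f, g` as in `Biholo D D'`, `p' ∈ D'`, `s` for `p = g p' ∈ D`; `s' = f ∘ s ∘ g`. The isolation: `g` is continuous on the open set `D'` at `p'`, so `g` maps a neighbourhood of `p'` into `O`. -/
def S_SymB : Prop := ∀ (n m : ℕ) (D : Set (Cn n)) (D' : Set (Cn m)), IsOpen D' → Biholo D D' →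
  SymP D → SymP D'

/-- **BsdP.** PROOF. Convex, bounded. For `p ∈ ball 0 1` let `φ z i = (p i - z i) / (1 - conj (p i) * z i)`. `φ` maps the ball into itself (`‖1 - conj a * z‖² - ‖a - z‖² = (1 - ‖a‖²)(1 - ‖z‖²)`), `φ (φ z) = z`, `φ 0 = p`, `φ p = 0`. `s z = φ (- φ z)`: an involution with `s p = p`; `s x = x` gives `-φ x = φ x`, `φ x = 0`, `x = p`. -/
def S_BsdP : Prop := ∀ n : ℕ, IsBSD (ball (0 : Cn n) 1)

/-- **SymS.** PROOF. For `p = (a, b) ∈ Sg`, `λ > 0`, `λ² = Im b - ‖a‖²`: `τ z = ![λ z 0 + a, λ² z 1 + 2 I conj a λ z 0 + I ‖a‖² + Re b]` maps `Sg` onto `Sg` (`Im (τ z 1) - ‖τ z 0‖² = λ² (Im (z 1) - ‖z 0‖²)`), `(0, I)` to `p`, with the inverse `σ z = ![(z 0 - a)/λ, (z 1 - I ‖a‖² - Re b - 2 I conj a (z 0 - a))/λ²]`. `s0 z = ![-I z 0 / z 1, -1 / z 1]`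
maps `Sg` to `Sg` (`Im (-1/w) = Im w / ‖w‖²`), `s0 (s0 z) = z`, and its only fixed point in `Sg` is `(0, I)` (`w² = -1`, `Im w > 0`, `w = I`, `z 0 = - z 0`). `s = τ ∘ s0 ∘ σ`. -/
def S_SymS : Prop := SymP Sg

/-- **BsdS.** Uses `SymS`, `SymB`, `CayS`. PROOF. `B2` is open, convex (or star shaped at `0`), bounded (`‖z i‖² ≤ nsq z`). -/
def S_BsdS : Prop := IsBSD B2

/-- **Hart.** Extension by the Cauchy integral (scalar case).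

PROOF. `g z = (2 π I)⁻¹ ∮_{|ζ| = r} f (ζ, z 1) / (ζ - z 0) dζ` for `‖z 0‖ < r`, `‖z 1‖ < r² / 4`. On the circle (and near it) the points `(ζ, w)`, `‖w‖ < r²/4`, are in `R`: `(1/4) ‖w‖ - (3/4) r² < -‖w‖ ≤ Im w`. `g` is holomorphic (`Osgood.differentiableAt_circleIntegral`, with `k = 1`, `u + c s`: write the integrand as a holomorphic function of `(z 0, z 1, ζ)` in `Cn 3`...).
For `z` in the cone `(1/4) ‖z 1‖ < Im (z 1)`, `‖z 1‖ < r²/4`, `‖z 0‖ < r` the whole disc `‖ζ‖ ≤ r` at height `z 1` is in `R`, so `g z = f z` (Cauchy). Bound: for `k : ℕ` the function `g ^ k` is holomorphic and equal to `f ^ k` on the cone, and so is the Cauchy integral `g_k` of `f ^ k`; both are holomorphic on the convex set `{‖z 0‖ < r, ‖z 1‖ < r²/4}` and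
agree on the open non-empty cone, so `g ^ k = g_k` (identity theorem), `‖g z‖ ^ k ≤ M ^ k * r / (r - ‖z 0‖)` for all `k`, so `‖g z‖ ≤ M`. -/
def S_Hart : Prop := ∀ (R : Set (Cn 2)) (r : ℝ), IsOpen R → 0 < r →
  (∀ z : Cn 2, ‖z 0‖ ≤ r → ‖z 1‖ < r ^ 2 / 4 →
    1 / 4 * ‖z 1‖ - 3 / 4 * ‖z 0‖ ^ 2 < (z 1).im → z ∈ R) →
  ∀ (M : ℝ) (f : Cn 2 → ℂ), DifferentiableOn ℂ f R → (∀ w ∈ R, ‖f w‖ ≤ M) →
    ∃ g : Cn 2 → ℂ, DifferentiableOn ℂ g {z | ‖z 0‖ < r ∧ ‖z 1‖ < r ^ 2 / 4} ∧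
      (∀ z : Cn 2, ‖z 0‖ < r → ‖z 1‖ < r ^ 2 / 4 → ‖g z‖ ≤ M) ∧
      ∀ z : Cn 2, ‖z 0‖ < r → ‖z 1‖ < r ^ 2 / 4 → 1 / 4 * ‖z 1‖ < (z 1).im → g z = f z

/-- **End1.** Uses `ScA1`, `Scale`, `CayH`, `BsdP`, `BihT`. PROOF. `BdR.rad` gives `IsOpen R`. -/
def S_End1 : Prop := ∀ (N : ℕ) (I : Set (MvPolynomial (Fin N) ℂ)) (U : Set (Cn N))
  (G : Set (Cn N → Cn N)) (K : Set (Cn N)), IsDom I 1 U → CoCpt U G K →
    ∀ (c : Chart (zeroSet I) 1) (R : Set (Cn 1)), BdR c U R → TypeA1 R →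
    ∃ D : Set (Cn 1), IsBSD D ∧ Biholo U D

/-- **End2.** Uses `ScA2`, `ScD`, `Scale`, `CayH`, `CayS`, `BsdP`, `BsdS`, `BihT`. -/
def S_End2 : Prop := ∀ (N : ℕ) (I : Set (MvPolynomial (Fin N) ℂ)) (U : Set (Cn N))
  (G : Set (Cn N → Cn N)) (K : Set (Cn N)), IsDom I 2 U → CoCpt U G K →
    ∀ (c : Chart (zeroSet I) 2) (R : Set (Cn 2)), BdR c U R → (TypeA2 R ∨ TypeD R) →
    ∃ D : Set (Cn 2), IsBSD D ∧ Biholo U D

/-- **EndB.** Uses `Hart`, `LemH`.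

PROOF. `ρ1` from `TypeB2` with `η = 1/4`; `r < min ρ1 1` positive with `closedBall`-type domain `‖z 0‖ ≤ r`, `‖z 1‖ < r²/4` inside `ball 0 ρ1`. `LemH` with `R`, `R' = {z | ‖z‖ < r²/4 ∧ (1/4) ‖z 1‖ < Im (z 1)}`, `ρ = r² / 4`: `R' ⊆ R`, `0 ∈ closure R'` (points `(0, I δ)`). The extension of `f : Cn 2 → Cn N` is made
componentwise with `Hart` (if `R` is empty ... it is not; if `M < 0` then `R` is empty; the sup norm bound follows from the components, `pi_norm_le_iff_of_nonneg`). -/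
def S_EndB : Prop := ∀ (N : ℕ) (I : Set (MvPolynomial (Fin N) ℂ)) (U : Set (Cn N))
  (G : Set (Cn N → Cn N)) (K : Set (Cn N)), IsDom I 2 U → CoCpt U G K →
    ∀ (c : Chart (zeroSet I) 2) (R : Set (Cn 2)), (0 : Cn 2) ∈ c.W → c.psi 0 ∉ U → IsOpen R →
    R ⊆ c.pre U → TypeB2 R → False

/-- **Pt.** Dimension zero. PROOF. `z ∈ U`, chart `c` at `z`: `c.W ⊆ Cn 0` is the one point set, so `zeroSet I ∩ c.O = {z}`: every point of `U` is isolated in `U`; `U` is connected, so `U = {z}` (`IsPreconnected.subsingleton` of a discrete set, or directly). `f = fun _ => 0`, `g = fun _ => z`. `BsdP` for `n = 0`. -/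
def S_Pt : Prop := ∀ (N : ℕ) (I : Set (MvPolynomial (Fin N) ℂ)) (U : Set (Cn N)), IsDom I 0 U →
  ∃ D : Set (Cn 0), IsBSD D ∧ Biholo U D

end KP
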