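import Pool.Agent.Lib.KP.SpecS

/-!
# KP (MP_64edc4_ag), block W: the totally real case (walls, Puiseux expansions, corners, cusps)
-/

set_option autoImplicit false

open Set Filter Topology Metric

namespace KP

/-- The point `x + i y` of `ℂ²`. -/
noncomputable def cp (x y : Fin 2 → ℝ) : Cn 2 := fun i => (x i : ℂ) + (y i : ℂ) * Complex.I

/-- The real point `(x, y)` of the complexification `ℂ⁴` of `ℂ² = ℝ⁴`. -/
noncomputable def em (x y : Fin 2 → ℝ) : Cn 4 := ![(x 0 : ℂ), (x 1 : ℂ), (y 0 : ℂ), (y 1 : ℂ)]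

/-- The point `(w, t)`. -/
def ext (w : Cn 3) (t : ℂ) : Cn 4 := ![w 0, w 1, w 2, t]

/-- The affine coordinate change `(w_0, w_1) ↦ c + (w_0 + σ w_1, w_1)`. -/
noncomputable def sh (c : Fin 2 → ℝ) (σ : ℝ) : Chart (univ : Set (Cn 2)) 2 where
  W := univ
  O := univ
  psi := fun w => ![(c 0 : ℂ) + w 0 + σ * w 1, (c 1 : ℂ) + w 1]
  pi := fun z => ![z 0 - c 0 - σ * (z 1 - c 1), z 1 - c 1]
  hW := isOpen_univ
  hO := isOpen_univ
  hpsi := by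
    rw [differentiableOn_univ, differentiable_pi]
    intro i; fin_cases i <;> simp <;> fun_prop
  hpi := by
    rw [differentiableOn_univ, differentiable_pi]
    intro i; fin_cases i <;> simp <;> fun_prop
  img := by
    ext z
    refine ⟨fun _ => ⟨mem_univ _, mem_univ _⟩, fun _ =>
      ⟨![z 0 - c 0 - σ * (z 1 - c 1), z 1 - c 1], mem_univ _, ?_⟩⟩
    ext i
    fin_cases i
    · simp; ring
    · simp
  left := by
    intro w _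
    ext i
    fin_cases i
    · simp; ring
    · simp

/-- The same change on the complexification. -/
noncomputable def T4 (c : Fin 2 → ℝ) (σ : ℝ) (z : Cn 4) : Cn 4 :=
  ![(c 0 : ℂ) + z 0 + σ * z 1, (c 1 : ℂ) + z 1, z 2 + σ * z 3, z 3]

/-- The reflection `z ↦ -z`. -/
noncomputable def ng : Chart (univ : Set (Cn 2)) 2 where
  W := univ
  O := univ
  psi := fun w => -w
  pi := fun w => -w
  hW := isOpen_univ
  hO := isOpen_univ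
  hpsi := by fun_prop
  hpi := by fun_prop
  img := by
    ext z
    exact ⟨fun _ => ⟨mem_univ _, mem_univ _⟩, fun _ => ⟨-z, mem_univ _, neg_neg z⟩⟩
  left := by intro w _; simp

/-- The membership in `A` near `0` is determined by the signs of the (not identically zero) functions
`F k (x, y)`, which are given by their complexifications. -/
structure Def (A : Set (Cn 2)) (m : ℕ) (F : Fin m → Cn 4 → ℂ) (δ : ℝ) : Prop where
  hδ : 0 < δ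
  hδ1 : δ ≤ 1
  hol : ∀ k, DifferentiableOn ℂ (F k) (ball 0 δ)
  real : ∀ k, ∀ x y : Fin 2 → ℝ, ‖x‖ < δ → ‖y‖ < δ → (F k (em x y)).im = 0
  nz : ∀ k, ∃ z ∈ ball (0 : Cn 4) δ, F k z ≠ 0
  sgn : ∀ x y x' y' : Fin 2 → ℝ, ‖x‖ < δ → ‖y‖ < δ → ‖x'‖ < δ → ‖y'‖ < δ →
    (∀ k, SignType.sign (F k (em x y)).re = SignType.sign (F k (em x' y')).re) →
    (cp x y ∈ A ↔ cp x' y' ∈ A)

/-- Standard position: peak points near `0` are real, all the zero sets are transversal to the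
direction `y_1`, and the double cone around this direction is disjoint from `A`. -/
structure Std (A : Set (Cn 2)) (m : ℕ) (F : Fin m → Cn 4 → ℂ) (δ : ℝ) : Prop where
  opn : IsOpen A
  pk0 : (0 : Cn 2) ∈ Pk A
  pkR : ∀ w ∈ ball (0 : Cn 2) δ, w ∈ Pk A → ∀ i, (w i).im = 0
  df : Def A m F δ
  reg : ∀ z ∈ ball (0 : Cn 4) δ, z 3 ≠ 0 → ‖z 2‖ ≤ δ * ‖z 3‖ → ∀ k, F k z ≠ 0
  vx : ∀ x y : Fin 2 → ℝ, ‖x‖ < δ → ‖y‖ < δ → y 1 ≠ 0 → |y 0| ≤ δ * |y 1| → cp x y ∉ A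

/-- **RId.** PROOF. Let `z = x + i y`, `x`, `y` real vectors. `C = {ζ : ℂ | x + ζ y ∈ ball 0 δ}` is open and convex and contains `I`; it contains `0` because `‖x‖ ≤ ‖z‖ < δ` (`|x_i| ≤ ‖z_i‖`). `ζ ↦ F (x + ζ y)` is holomorphic on `C` and vanishes at the real `ζ` near `0`, so it vanishes on `C` (identity theorem), at `I` too. -/
def S_RId : Prop := ∀ (n : ℕ) (F : Cn n → ℂ) (δ : ℝ), DifferentiableOn ℂ F (ball 0 δ) →
  (∀ x : Fin n → ℝ, ‖x‖ < δ → F (fun i => (x i : ℂ)) = 0) → ∀ z ∈ ball (0 : Cn n) δ, F z = 0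

/-- **PT.** The tangent cone at a peak point. Uses `PkOf`, `LvO`, `LvH`, `D2A`, `D2N`.

PROOF. `Φ, η` for `c ∈ Pk A`; `r0 > 0` small: `closedBall c r0 ⊆ ball 0 r`, `Φ` is `C²` with `Lv Φ z v > 0` on it (`LvO`) and `Φ z + η nsq (z - c) ≤ Φ c` for `z ∈ X = closure A ∩ closedBall c r0` (continuity). `Im c = 0`. `β0 = η r0 / 4`. For real `γ_0, γ_1` with `|γ_i| ≤ β0` let `Ψ z = Φ z + γ_0 Im z_0 + γ_1 Im z_1` (the perturbation is `Re (-I (γ_0 z_0 + γ_1 z_1))`,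
`LvH`: it does not change `Lv`). `Ψ c = Φ c`; for `z ∈ X`, `‖z - c‖ = r0`: `Ψ z ≤ Φ c - η r0² + 2 β0 r0 < Φ c`. So the maximum point `c'` of `Ψ` on the compact set `X` (`c ∈ X`) is in `ball c r0`, and `PkOf` gives `c' ∈ Pk A`, hence `Im c' = 0` and `Ψ z ≤ Ψ c' = Φ c' ≤ Φ c` for all `z ∈ X`. With `γ_i = ± β0` according to the signs of `Im z_i`:
`Φ z - Φ c ≤ -β0 (|Im z_0| + |Im z_1|)` for `z ∈ A ∩ ball c r0`. For `z = c + i y`: `Φ z - Φ c = b·y + o(‖y‖)`, `b_i = fderiv ℝ Φ c (I e_i)`; so `b·y ≤ -β0 ‖y‖ + (β0/2) ‖y‖` for small `y`: `β = β0 / 2`. -/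
def S_PT : Prop := ∀ (A : Set (Cn 2)) (r : ℝ), IsOpen A →
  (∀ w ∈ ball (0 : Cn 2) r, w ∈ Pk A → ∀ i, (w i).im = 0) → ∀ c : Fin 2 → ℝ, ‖c‖ < r →
  cp c 0 ∈ Pk A → ∃ (b : Fin 2 → ℝ) (β ρ : ℝ), 0 < β ∧ 0 < ρ ∧
    ∀ y : Fin 2 → ℝ, ‖y‖ < ρ → cp c y ∈ A → β * ‖y‖ ≤ -(b 0 * y 0 + b 1 * y 1)

/-- **DirS.** Elementary. PROOF. If `b_0 ≠ 0` take a small interval around `-b_1/b_0`; if `b_0 = 0` an interval `(s, s + 1)` with `s ≥ 1`, `|b_1| < β s`. -/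
def S_DirS : Prop := ∀ (b : Fin 2 → ℝ) (β : ℝ), 0 < β → ∃ σ1 σ2 : ℝ, σ1 < σ2 ∧
  ∀ σ ∈ Ioo σ1 σ2, |b 0 * σ + b 1| < β * max 1 |σ|

/-- **DefE.** Existence of the complexified functions. Uses `Cplx`.

PROOF. `f k` from `Sgn A (ball 0 r)`; keep only the `f k` which do not vanish identically near `0` (the others vanish on `ball 0 r` by the identity theorem and do not matter for the sign vectors) and renumber them. `g k t = f k (t_0 + i t_2, t_1 + i t_3)`, `t : Fin 4 → ℝ`, is real analytic near `0`; `Cplx` (as a map to `Cn 1`) gives a holomorphic extension; `δ` = the minimum of the radii, `r`, `1`. -/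
def S_DefE : Prop := ∀ (A : Set (Cn 2)) (r : ℝ), 0 < r → Sgn A (ball 0 r) →
  ∃ (m : ℕ) (F : Fin m → Cn 4 → ℂ) (δ : ℝ), δ ≤ r ∧ Def A m F δ

/-- **DefT.** PROOF. `T4 c σ (em x y) = em x' y'` and `(sh c σ).psi (cp x y) = cp x' y'` with `x' = c + (x_0 + σ x_1, x_1)`, `y' = (y_0 + σ y_1, y_1)`; for `δ'` small `T4 c σ` maps `ball 0 δ'` into `ball 0 δ`. `nz`: `T4 c σ` is an affine isomorphism of `Cn 4`, so if `F k ∘ T4 c σ` vanishes on `ball 0 δ'` then `F k` vanishes on an open set, hence on `ball 0 δ`. -/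
def S_DefT : Prop := ∀ (A : Set (Cn 2)) (m : ℕ) (F : Fin m → Cn 4 → ℂ) (δ : ℝ), Def A m F δ →
  ∀ (c : Fin 2 → ℝ) (σ : ℝ), ‖c‖ < δ → ∀ ρ > 0, ∃ δ' > 0, δ' ≤ ρ ∧
    (∀ z ∈ ball (0 : Cn 4) δ', T4 c σ z ∈ ball (0 : Cn 4) δ) ∧
    ∀ δ'' > 0, δ'' ≤ δ' → Def ((sh c σ).pre A) m (fun k z => F k (T4 c σ z)) δ''

/-- **Ord.** The order in the direction of the edge. Uses `DivN`.

PROOF. For `K ≥ 1` the function `G_K z = H (z 0, z 1, z 3 * z 2 / δ, z 3 / K)` is holomorphic on `ball 0 δ` (`‖z 3 z 2 / δ‖ < δ`), and not identically zero (if it were, then `H` would vanish on the open set of the points `(X, s, t)`, `t ≠ 0`, `‖t‖ < δ / K`, `‖s‖ < K ‖t‖`). `DivN` (`k = 4`, `i = 3`, `c = 0`): `G_K z = z 3 ^ m * G' z`. With `E z = K ^ m * G' (z 0, z 1, δ z 2 / K, K z 3)`: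
`H (z 0, z 1, z 3 z 2, z 3) = z 3 ^ m * E z` on the polydisc, `E` is not identically zero on `{z 3 = 0}`. Let `m_1, E_1` be the data for `K = 1`, `E_1 z1 ≠ 0` for a point with `z1 3 = 0`; `h X = E_1 (X 0, X 1, z1 2, 0)`. For general `K`: on the common domain `t ^ (m_1) E_1 = t ^ (m_K) E_K`; both factors are not identically zero on `{t = 0}` (identity theorem on the connected polydisc), so `m_K = m_1` and `E_K = E_1` there. -/
def S_Ord : Prop := ∀ (H : Cn 4 → ℂ) (δ : ℝ), 0 < δ → δ ≤ 1 →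
  DifferentiableOn ℂ H (ball 0 δ) → (∃ z ∈ ball (0 : Cn 4) δ, H z ≠ 0) →
  ∃ (m : ℕ) (h : Cn 2 → ℂ), DifferentiableOn ℂ h (ball 0 δ) ∧
    (∃ X ∈ ball (0 : Cn 2) δ, h X ≠ 0) ∧ ∀ K : ℝ, 1 ≤ K → ∃ E : Cn 4 → ℂ,
      DifferentiableOn ℂ E {z | ‖z 0‖ < δ ∧ ‖z 1‖ < δ ∧ ‖z 2‖ < K ∧ ‖z 3‖ < δ / K} ∧
      (∀ z : Cn 4, ‖z 0‖ < δ → ‖z 1‖ < δ → ‖z 2‖ < K → ‖z 3‖ < δ / K →
        H ![z 0, z 1, z 3 * z 2, z 3] = z 3 ^ m * E z) ∧
      ∀ X ∈ ball (0 : Cn 2) δ, h X ≠ 0 → ∃ s : ℂ, ‖s‖ < 1 ∧ E ![X 0, X 1, s, 0] ≠ 0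

/-- The data of the choice of the centre `c` and of the direction `(σ, 1)`. -/
structure StD (A : Set (Cn 2)) (r : ℝ) (c : Fin 2 → ℝ) (σ : ℝ) (m : ℕ) (F : Fin m → Cn 4 → ℂ)
    (δ : ℝ) : Prop where
  df : Def A m F δ
  cr : ‖c‖ < r
  cδ : ‖c‖ < δ
  pk : cp c 0 ∈ Pk A
  cone : ∃ κ > 0, ∀ z ∈ ball (0 : Cn 4) κ, z 3 ≠ 0 → ‖z 2‖ ≤ κ * ‖z 3‖ → ∀ k, F k (T4 c σ z) ≠ 0
  axis : ∃ κ > 0, ∀ t : ℝ, t ≠ 0 → |t| < κ → cp c ![t * σ, t] ∉ A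

/-- **StA.** Choice of the centre and of the direction. Uses `DefE`, `Ord`, `PT`, `DirS`, `PkD`.

PROOF. `Def A m F δ` (`DefE`), `H = ∏ F k` (not identically zero: a product of finitely many not identically zero holomorphic functions on a ball). `Ord` gives `m', h`. `PkD` at `0`: a point of `Pk A`, of norm `< r`, `< δ`, with `h ≠ 0`; it is real (hypothesis), write it as `cp c 0`. `PT` at `c`: `b, β, ρ`; `DirS`: `σ1 < σ2`; `K ≥ 1 + |σ1| + |σ2|`, `E` from `Ord`. `E (c, ·, 0)` is holomorphic on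
`‖·‖ < K` and not identically zero, so there is a real `σ ∈ (σ1, σ2)` with `E (c, σ, 0) ≠ 0` (isolated zeros). `cone`: for `z 3 ≠ 0`: `∏ F k (T4 c σ z) = H (c_0 + z 0 + σ z 1, c_1 + z 1, z 2 + σ z 3, z 3) = z 3 ^ m' * E (c_0 + z 0 + σ z 1, c_1 + z 1, σ + z 2 / z 3, z 3)`, and `E ≠ 0` near `(c, σ, 0)`. `axis`: for `y = t (σ, 1)`, `t ≠ 0` small, `cp c y ∈ A` would give
`β |t| max 1 |σ| ≤ β ‖y‖ ≤ |t| |b_0 σ + b_1|` (`PT`), which contradicts `DirS`. -/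
def S_StA : Prop := ∀ (A : Set (Cn 2)) (r : ℝ), 0 < r → IsOpen A → Sgn A (ball 0 r) →
  (0 : Cn 2) ∈ Pk A → (∀ w ∈ ball (0 : Cn 2) r, w ∈ Pk A → ∀ i, (w i).im = 0) →
  ∃ (c : Fin 2 → ℝ) (σ : ℝ) (m : ℕ) (F : Fin m → Cn 4 → ℂ) (δ : ℝ), StD A r c σ m F δ

/-- **StB.** Standard position. Uses `DefT`, `PkC`.

PROOF. `opn`: continuity. `pk0`, `pkR`: `PkC` (`(sh c σ).psi 0 = cp c 0`; `psi w` real implies `w` real; choose `δ'` such that `psi` maps `ball 0 δ'` into `ball 0 r`). `df`: `DefT`. `reg`: `cone`, `δ' ≤ κ`. `vx`: on each of the two convex sets `{(x, y) | ‖x‖ < δ', ‖y‖ < δ', |y_0| ≤ δ' |y_1|, 0 < ± y_1}` the functions `F k (T4 c σ (em x y))` are real, continuous and have no zeros (`cone`), so their signs are constant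
(connectedness) and by `Def.sgn` the membership of `cp x y` in `(sh c σ).pre A` is constant; for `x = 0`, `y = (0, t)`: `(sh c σ).psi (cp 0 y) = cp c ![t * σ, t] ∉ A` (`axis`). -/
def S_StB : Prop := ∀ (A : Set (Cn 2)) (r : ℝ), 0 < r → IsOpen A →
  (∀ w ∈ ball (0 : Cn 2) r, w ∈ Pk A → ∀ i, (w i).im = 0) →
  ∀ (c : Fin 2 → ℝ) (σ : ℝ) (m : ℕ) (F : Fin m → Cn 4 → ℂ) (δ : ℝ), StD A r c σ m F δ →
  ∃ δ' > 0, MapsTo (sh c σ).psi (ball 0 δ') (ball 0 r) ∧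
    Std ((sh c σ).pre A) m (fun k z => F k (T4 c σ z)) δ'

/-- **StdT.** Translation. Uses `DefT`, `PkC`. PROOF. `reg`, `vx` are inherited: `T4 c 0 z = (c + (z 0, z 1), z 2, z 3)`, `(sh c 0).psi (cp x y) = cp (c + x) y`; take `δ' ≤ δ - ‖c‖`. -/
def S_StdT : Prop := ∀ (A : Set (Cn 2)) (m : ℕ) (F : Fin m → Cn 4 → ℂ) (δ : ℝ), Std A m F δ →
  ∀ c : Fin 2 → ℝ, ‖c‖ < δ → cp c 0 ∈ Pk A → ∃ δ' > 0,
    (∀ z ∈ ball (0 : Cn 4) δ', T4 c 0 z ∈ ball (0 : Cn 4) δ) ∧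
    ∀ δ'' > 0, δ'' ≤ δ' → Std ((sh c 0).pre A) m (fun k z => F k (T4 c 0 z)) δ''

/-! ## Puiseux expansions with parameters -/

/-- `H` is holomorphic on the ball and has no zeros in a cone around the direction `t = z 3`. -/
def Reg (H : Cn 4 → ℂ) (δ : ℝ) : Prop := DifferentiableOn ℂ H (ball 0 δ) ∧
  ∀ z ∈ ball (0 : Cn 4) δ, z 3 ≠ 0 → ‖z 2‖ ≤ δ * ‖z 3‖ → H z ≠ 0

/-- The zeros `t` of `H (w, t)`. -/
def Zr (H : Cn 4 → ℂ) (δ : ℝ) (w : Cn 3) : Set ℂ := {t | ‖t‖ < δ ∧ H (ext w t) = 0}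

/-- **Fac.** Zeros and power sums in one variable.

PROOF. The zeros of `f` in `ball 0 R` are in the compact set `closedBall 0 r` and isolated (`f` is not identically zero), so there are finitely many, with finite multiplicities; dividing them out one after the other (`f t = (t - a) f1 t`, `dslope`; induction on the sum of the orders, or on the finite set of zeros with `AnalyticAt.analyticOrderAt`): `f t = (Z.map (fun a => t - a)).prod * u t` on `ball 0 R`,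
`u` holomorphic without zeros. `f' / f = ∑_{a ∈ Z} 1 / (t - a) + u' / u`; `∮ t ^ k u'/u = 0` (Cauchy), `(2 π I)⁻¹ ∮ t ^ k / (t - a) = a ^ k` (Cauchy's formula). -/
def S_Fac : Prop := ∀ (f : ℂ → ℂ) (r R : ℝ), 0 < r → r < R → DifferentiableOn ℂ f (ball 0 R) →
  (∀ t : ℂ, r ≤ ‖t‖ → ‖t‖ < R → f t ≠ 0) → ∃ Z : Multiset ℂ, (∀ a ∈ Z, ‖a‖ < r) ∧
    (∀ t : ℂ, ‖t‖ < R → (f t = 0 ↔ t ∈ Z)) ∧
    ∀ k : ℕ, (2 * Real.pi * Complex.I : ℂ)⁻¹ * (∮ t in C(0, r), t ^ k * (deriv f t / f t)) =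
      (Z.map (fun a => a ^ k)).sum

/-- **Hank.** Hankel determinants of power sums.

PROOF. Let `S` be the finite set of the distinct elements, `μ a ≥ 1` the multiplicities. `M i j = ∑_{a ∈ S} μ a a^i a^j`, so `M = Vᵀ D V` with `V a i = a ^ i` (`S × Fin r`), `D = diag μ`. If `|S| = r` then (after an enumeration of `S`) `V` is a square Vandermonde matrix with nonzero determinant (`Matrix.det_vandermonde_ne_zero_iff`), `det M = (det V)² ∏ μ a ≠ 0`. If `|S| < r` then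
the rank of `M` is at most `|S| < r` (there is a vector `x ≠ 0` with `V x = 0`, so `M x = 0`: `Matrix.exists_mulVec_eq_zero_iff`). -/
def S_Hank : Prop := ∀ (Z : Multiset ℂ) (r : ℕ),
  (Z.toFinset.card = r → (Matrix.of fun (i j : Fin r) =>
    (Z.map (fun a => a ^ ((i : ℕ) + (j : ℕ)))).sum).det ≠ 0) ∧
  (Z.toFinset.card < r → (Matrix.of fun (i j : Fin r) =>
    (Z.map (fun a => a ^ ((i : ℕ) + (j : ℕ)))).sum).det = 0)

/-- **PSh.** Power sums are holomorphic in the parameters.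

PROOF. `deriv (fun s => H (ext w (c + s))) τ = fderiv ℂ H (ext w (c + τ)) (Pi.single 3 1)`; `q z = fderiv ℂ H z (Pi.single 3 1) / H z` is holomorphic on the open set `Ω' = {z ∈ Ω | H z ≠ 0}` (`H` is analytic, `Osgood.analyticOnNhd`). `ext w (c + τ) = ext w c + τ e_3`, so `Osgood.differentiableAt_circleIntegral` with `f = q`, `U = Ω'`, `k τ = τ ^ k`, `c τ = τ • Pi.single 3 1` shows that
`u ↦ ∮ τ^k • q (u + τ e_3)` is differentiable at `u = ext w0 c`; compose with `w ↦ ext w c`. -/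
def S_PSh : Prop := ∀ (H : Cn 4 → ℂ) (Ω : Set (Cn 4)), IsOpen Ω → DifferentiableOn ℂ H Ω →
  ∀ (w0 : Cn 3) (c : ℂ) (κ : ℝ), 0 ≤ κ →
  (∀ τ : ℂ, ‖τ‖ = κ → ext w0 (c + τ) ∈ Ω ∧ H (ext w0 (c + τ)) ≠ 0) → ∀ k : ℕ,
  DifferentiableAt ℂ (fun w => (2 * Real.pi * Complex.I : ℂ)⁻¹ * (∮ τ in C(0, κ),
    τ ^ k * (deriv (fun s => H (ext w (c + s))) τ / H (ext w (c + τ))))) w0

/-- **Disc.** The number of distinct zeros. Uses `Fac`, `Hank`, `PSh`.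

PROOF. For `w ∈ ball 0 (δ²/2)` the function `f t = H (ext w t)` on `ball 0 δ` has no zeros for `δ/2 ≤ ‖t‖ < δ` (`‖w 2‖ < δ²/2 ≤ δ ‖t‖`). Let `Z_w` be from `Fac` (`r = δ/2`, `R = δ`), `P_k w` the power sums, holomorphic on the ball (`PSh`, `c = 0`). `P_0 w = card Z_w` is continuous with values in `ℕ`, so it is a constant `m` (connectedness). Let `D_s w = det (P_(i+j) w)_(i,j<s)`. By `Hank`: `D_s w ≠ 0` if the number of distinct zeros is `s`, `D_s w = 0` if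
it is `< s`. `D_0 = 1`, `D_s = 0` identically for `s > m`. Let `r` be the largest `s ≤ m` such that `D_s` is not identically zero on the ball, `D = D_r`. For `s > r` the number of zeros is never `s`, so it is `≤ r` everywhere; if `D w ≠ 0` it is not `< r`. (`Zr H δ w` is the set of the elements of `Z_w`.) -/
def S_Disc : Prop := ∀ (H : Cn 4 → ℂ) (δ : ℝ), 0 < δ → δ ≤ 1 → Reg H δ →
  ∃ (r : ℕ) (D : Cn 3 → ℂ), DifferentiableOn ℂ D (ball 0 (δ ^ 2 / 2)) ∧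
    (∃ w ∈ ball (0 : Cn 3) (δ ^ 2 / 2), D w ≠ 0) ∧ ∀ w ∈ ball (0 : Cn 3) (δ ^ 2 / 2),
      (Zr H δ w).Finite ∧ (Zr H δ w).ncard ≤ r ∧ (D w ≠ 0 → (Zr H δ w).ncard = r)

/-- **LocB.** Local branches of the zeros. Uses `Fac`, `PSh`.

PROOF. Let `τ_i`, `i < r`, be the zeros at `w0` (`‖τ_i‖ < δ/2`). Choose `0 < κ < κ'` such that the closed discs of radius `κ'` around the `τ_i` are disjoint and contained in `ball 0 δ`. `H (ext w0 t) ≠ 0` on the compact annuli `κ ≤ ‖t - τ_i‖ ≤ κ'`, so there is `ε` with `ball w0 ε ⊆ W` and `H (ext w t) ≠ 0` on the annuli for `w ∈ ball w0 ε`. For fixed `i` and `w` apply `Fac` to `f t = H (ext w (τ_i + t))`, `r = κ`, `R = κ'`: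
`Z_i w`, with power sums `P_k^i w` holomorphic on the ball (`PSh`, centre `τ_i`). `card (Z_i w) = P_0^i w` is constant `= μ_i ≥ 1` (at `w0` the number `0` is in `Z_i`). So each disc contains a zero; there are exactly `r` zeros, so each disc contains exactly one distinct zero `ρ_i w` and there are no others, `Z_i w` consists of `μ_i` copies of `ρ_i w - τ_i`, and `ρ_i w = τ_i + P_1^i w / μ_i` is holomorphic. -/
def S_LocB : Prop := ∀ (H : Cn 4 → ℂ) (δ : ℝ) (r : ℕ) (W : Set (Cn 3)), 0 < δ → δ ≤ 1 →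
  Reg H δ → IsOpen W → W ⊆ ball 0 (δ ^ 2 / 2) →
  (∀ w ∈ W, (Zr H δ w).Finite ∧ (Zr H δ w).ncard = r) → ∀ w0 ∈ W, ∃ ε > 0,
    ∃ ρ : Fin r → Cn 3 → ℂ, ball w0 ε ⊆ W ∧ (∀ i, DifferentiableOn ℂ (ρ i) (ball w0 ε)) ∧
      ∀ w ∈ ball w0 ε, Function.Injective (fun i => ρ i w) ∧ Zr H δ w = range (fun i => ρ i w)

/-- **GlobB.** Global branches on a convex set.

PROOF. Call `(C, ρ)` a good pair if `C ⊆ Ω` is open and convex (or just open and connected) and `ρ : Fin r → Cn k → ℂ` has the stated properties on `C`. (U) If `t, t' : C → ℂ` are continuous with `t w, t' w ∈ Zs w` on a connected set `C ⊆ Ω` and `t w0 = t' w0` for one `w0 ∈ C`, then `t = t'` on `C` (the set where they agree is open and closed, because locally `t = ρ_i`, `t' = ρ_j` for fixed `i`, `j`, by injectivity and continuity).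
Fix `w0 ∈ Ω` and a labelling `a : Fin r → ℂ` of `Zs w0`. For `w ∈ Ω` the segment `[w0, w]` is compact; by a Lebesgue number there are `w0 = p_0, p_1, …, p_s = w` on the segment and balls `B_j ∋ p_j, p_(j+1)` around points of the segment with good pairs on `B_j ∩ Ω` (convex). Gluing successively (permute the labels of the pair on `B_(j+1)` such that they agree at `p_(j+1)` with those on `B_j`) gives for each `i` continuous functions on the `B_j ∩ Ω`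
which agree at the `p_j`; hence (U on the convex sets `B_j ∩ B_(j+1) ∩ Ω`) they define branches `t_i^w` on the neighbourhood `N_w = ⋃ B_j ∩ Ω` of the segment. Define `ρ_i w = t_i^w w`. For `w'` near `w` the segment `[w0, w']` is in `N_w`, and by (U) on the segment (starting value `a i`) `ρ_i w' = t_i^w w'`; so `ρ_i` is holomorphic near `w` and the properties hold. (Alternatively: `{(w, t) | t ∈ Zs w} → Ω` is a covering map and `Ω` is simply connected and locally path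
connected: Mathlib's lifting theorem for covering maps gives the sections.) -/
def S_GlobB : Prop := ∀ (k r : ℕ) (Ω : Set (Cn k)) (Zs : Cn k → Set ℂ), Convex ℝ Ω → IsOpen Ω →
  Ω.Nonempty → (∀ w0 ∈ Ω, ∃ ε > 0, ∃ ρ : Fin r → Cn k → ℂ,
    (∀ i, DifferentiableOn ℂ (ρ i) (ball w0 ε)) ∧ ∀ w ∈ ball w0 ε ∩ Ω,
      Function.Injective (fun i => ρ i w) ∧ Zs w = range (fun i => ρ i w)) →
  ∃ ρ : Fin r → Cn k → ℂ, (∀ i, DifferentiableOn ℂ (ρ i) Ω) ∧ ∀ w ∈ Ω,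
    Function.Injective (fun i => ρ i w) ∧ Zs w = range (fun i => ρ i w)

/-- **Rem.** Removable singularities.

PROOF. For fixed `z` in the ball the function `ζ ↦ G (update z i ζ)` is holomorphic and bounded on `0 < ‖ζ‖ < ρ`, so it extends holomorphically to `0` (one variable: `Complex.differentiableOn_update_limUnder_of_bddAbove` or similar), and for `0 < ‖z i‖ < s < ρ` Cauchy's formula gives `G z = (2 π I)⁻¹ ∮_{‖ζ‖ = s} G (update z i ζ) / (ζ - z i) dζ`. The right hand side is holomorphic in `z` for `‖z i‖ < s` (`Osgood.differentiableAt_circleIntegral`).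
`G' z = G z` if `z i ≠ 0`, and the integral with `s = ρ / 2` if `z i = 0`. -/
def S_Rem : Prop := ∀ (k : ℕ) (i : Fin k) (c : Cn k) (ρ : ℝ) (G : Cn k → ℂ), c i = 0 → 0 < ρ →
  DifferentiableOn ℂ G (ball c ρ ∩ {z | z i ≠ 0}) →
  (∃ C : ℝ, ∀ z ∈ ball c ρ, z i ≠ 0 → ‖G z‖ ≤ C) →
  ∃ G' : Cn k → ℂ, DifferentiableOn ℂ G' (ball c ρ) ∧ ∀ z ∈ ball c ρ, z i ≠ 0 → G' z = G z

/-- The domain of the branches. -/
def Lg (c : Cn 2) (ε1 : ℝ) : Set (Cn 3) :=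
  {w | ‖w 0 - c 0‖ < ε1 ∧ ‖w 1 - c 1‖ < ε1 ∧ (w 2).re < Real.log ε1}

/-- **MoP.** Periodicity.

PROOF. `Lg c ε1` is convex (hence connected; if it is empty take `N = 1`), open, and invariant under `w ↦ w' = ![w 0, w 1, w 2 + 2 π I]`; `Z ![w 0, w 1, exp (w 2)]` is the same for `w` and `w'`. So for every `w` there is a map `π` with `ρ_i w' = ρ_(π i) w` for all `i`; `π` is injective, hence a permutation of `Fin r`, and locally constant in `w` (continuity, distinct values), hence constant. With `N = r !` (or the order of `π`) `π ^ N = 1` and `ρ_i (w + 2 π I N e_2) = ρ_i w`. -/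
def S_MoP : Prop := ∀ (r : ℕ) (c : Cn 2) (ε1 : ℝ) (Z : Cn 3 → Set ℂ) (ρ : Fin r → Cn 3 → ℂ),
  0 < ε1 → (∀ i, DifferentiableOn ℂ (ρ i) (Lg c ε1)) →
  (∀ w ∈ Lg c ε1, Function.Injective (fun i => ρ i w) ∧
    Z ![w 0, w 1, Complex.exp (w 2)] = range (fun i => ρ i w)) →
  ∃ N : ℕ, 1 ≤ N ∧ ∀ i, ∀ w ∈ Lg c ε1,
    ρ i ![w 0, w 1, w 2 + 2 * Real.pi * Complex.I * N] = ρ i w

/-- **MoE.** From a periodic function to a holomorphic function of `σ`. Uses `Rem`.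

PROOF. For `z ∈ ball (c, 0) ε1`, `z 2 ≠ 0`: `N log ‖z 2‖ < log ε1` because `ε1 ≤ 1` and `N ≥ 1`, so `T z = ρ ![z 0, z 1, N * Complex.log (z 2)]` is defined. It is holomorphic on `{z 2 ≠ 0}`: near `σ0` choose a holomorphic branch `ℓ` of the logarithm near `σ0` (if `σ0` is in the slit plane `ℓ = log`, otherwise `ℓ σ = log (-σ) + π I`); `ℓ σ - log σ ∈ 2 π I ℤ`, so `T z = ρ ![z 0, z 1, N ℓ (z 2)]` near `σ0` by the
periodicity (in both directions: the set `Lg` is invariant under `w 2 ↦ w 2 ± 2 π I N`). `exp (N log (z 2)) = z 2 ^ N`, so `T z / z 2 ^ N` is bounded by `C`; `Rem` gives `G`. -/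
def S_MoE : Prop := ∀ (c : Cn 2) (ε1 C : ℝ) (N : ℕ) (ρ : Cn 3 → ℂ), 0 < ε1 → ε1 ≤ 1 → 1 ≤ N →
  DifferentiableOn ℂ ρ (Lg c ε1) →
  (∀ w ∈ Lg c ε1, ρ ![w 0, w 1, w 2 + 2 * Real.pi * Complex.I * N] = ρ w) →
  (∀ w ∈ Lg c ε1, ‖ρ w‖ ≤ C * ‖Complex.exp (w 2)‖) →
  ∃ G : Cn 3 → ℂ, DifferentiableOn ℂ G (ball ![c 0, c 1, 0] ε1) ∧
    ∀ z ∈ ball (![c 0, c 1, 0] : Cn 3) ε1, z 2 ≠ 0 →
      z 2 ^ N * G z = ρ ![z 0, z 1, N * Complex.log (z 2)]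

/-- **Puis.** Puiseux expansions of the zeros with parameters, at generic points. Uses `Disc`, `LocB`, `GlobB`, `MoP`, `MoE`, `DivN`.

PROOF. `δ' = δ²/2`; `r, D` from `Disc`; `DivN` (`k = 3`, `i = 2`, centre `0`): `D w = w 2 ^ κ * D' w`, `D'` not identically zero on `{w 2 = 0}`; `h X = D' (X, 0)`. Let `h c ≠ 0`: there is `0 < ε1 ≤ 1` with `ball (c, 0) ε1 ⊆ ball 0 δ'` and `D' ≠ 0` on it, so on `W = ball (c, 0) ε1 ∩ {w 2 ≠ 0}` there are exactly `r` zeros, and `LocB` applies. `Ω = {(X, ζ) | ‖X - c‖ < ε1, Re ζ < log ε1}` is open and convex; the map `(X, ζ) ↦ (X, exp ζ)` is holomorphic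
and maps `Ω` into `W`, so `Zs (X, ζ) = Zr H δ (X, exp ζ)` has local branches (compose; if necessary shrink the balls) and `GlobB` gives global branches `ρ_i` on `Ω`. A zero `t` of `H (w, t)`, `‖t‖ < δ`, satisfies `t = 0` or `δ ‖t‖ < ‖w 2‖`, so `‖t‖ ≤ (1/δ) ‖w 2‖`.
`MoP` with `Z = Zr H δ` gives `N`, `MoE` with `C = 1/δ` gives `G i`, and `Zr H δ (z 0, z 1, z 2 ^ N) = range (ρ_i (z 0, z 1, N log (z 2)))` (`exp (N log (z 2)) = z 2 ^ N`). -/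
def S_Puis : Prop := ∀ (H : Cn 4 → ℂ) (δ : ℝ), 0 < δ → δ ≤ 1 → Reg H δ →
  ∃ (δ' : ℝ) (h : Cn 2 → ℂ), 0 < δ' ∧ δ' ≤ δ ∧ DifferentiableOn ℂ h (ball 0 δ') ∧
    (∃ X ∈ ball (0 : Cn 2) δ', h X ≠ 0) ∧ ∀ c ∈ ball (0 : Cn 2) δ', h c ≠ 0 →
      ∃ (r N : ℕ) (G : Fin r → Cn 3 → ℂ) (ε : ℝ), 1 ≤ N ∧ 0 < ε ∧
        (∀ i, DifferentiableOn ℂ (G i) (ball ![c 0, c 1, 0] ε)) ∧
        ∀ z ∈ ball (![c 0, c 1, 0] : Cn 3) ε, z 2 ≠ 0 → Function.Injective (fun i => G i z) ∧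
          Zr H δ ![z 0, z 1, z 2 ^ N] = range (fun i => z 2 ^ N * G i z)

/-! ## Walls -/

/-- Standard position with Puiseux expansions of the zeros at `0`. -/
structure Wal (A : Set (Cn 2)) (m : ℕ) (F : Fin m → Cn 4 → ℂ) (δ : ℝ) (r N : ℕ)
    (G : Fin r → Cn 3 → ℂ) (ε : ℝ) : Prop where
  std : Std A m F δ
  hN : 1 ≤ N
  hε : 0 < ε
  hεδ : ε ≤ δ
  hG : ∀ i, DifferentiableOn ℂ (G i) (ball 0 ε)
  bdd : ∀ i, ∀ z ∈ ball (0 : Cn 3) ε, ‖z 2 ^ N * G i z‖ < δ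
  inj : ∀ z ∈ ball (0 : Cn 3) ε, z 2 ≠ 0 → Function.Injective (fun i => G i z)
  zer : ∀ z ∈ ball (0 : Cn 3) ε, z 2 ≠ 0 → ∀ t : ℂ, ‖t‖ < δ →
    ((∃ k, F k ![z 0, z 1, z 2 ^ N, t] = 0) ↔ ∃ i, t = z 2 ^ N * G i z)

/-- In addition: the differences of the `G i` and the values of the `F k` on the walls are powers of
`z 2` times functions without zeros. -/
structure Wal2 (A : Set (Cn 2)) (m : ℕ) (F : Fin m → Cn 4 → ℂ) (δ : ℝ) (r N : ℕ)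
    (G : Fin r → Cn 3 → ℂ) (ε : ℝ) : Prop where
  wal : Wal A m F δ r N G ε
  dif : ∀ i j, i ≠ j → ∃ (q : ℕ) (E : Cn 3 → ℂ), DifferentiableOn ℂ E (ball 0 ε) ∧
    (∀ z ∈ ball (0 : Cn 3) ε, E z ≠ 0) ∧ ∀ z ∈ ball (0 : Cn 3) ε, G i z - G j z = z 2 ^ q * E z
  sgw : ∀ k i, (∀ z ∈ ball (0 : Cn 3) ε, F k ![z 0, z 1, z 2 ^ N, z 2 ^ N * G i z] = 0) ∨
    ∃ (q : ℕ) (E : Cn 3 → ℂ), DifferentiableOn ℂ E (ball 0 ε) ∧
      (∀ z ∈ ball (0 : Cn 3) ε, E z ≠ 0) ∧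
      ∀ z ∈ ball (0 : Cn 3) ε, F k ![z 0, z 1, z 2 ^ N, z 2 ^ N * G i z] = z 2 ^ q * E z

/-- **W1.** First generic choice. Uses `Puis`, `PkD`, `StdT`.

PROOF. `H = ∏ F k` satisfies `Reg H δ`. `Puis`: `δ', h`; `PkD` at `0`: a point of `Pk A` in `ball 0 (min ρ δ')` with `h ≠ 0`; it is real by `pkR`, write it as `cp c 0`. `Puis` at `c` gives `r, N, G, ε`. `StdT` gives `Std` for `(sh c 0).pre A` with all radii `δ''` below some bound; choose such a `δ''` small, then `ε'` small. `G' i z = G i (z + (c_0, c_1, 0))`. `F' k z = F k (T4 c 0 z)`, so `F' k (z 0, z 1, z 2^N, t) = F k (c_0 + z 0, c_1 + z 1, z 2^N, t)` and `∃ k, F' k = 0` means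
`t ∈ Zr H δ (…)` (for `‖t‖ < δ'' ≤ δ`). `bdd`: `G'` is bounded near `0` and `z 2 ^ N` small: choose `ε'`. -/
def S_W1 : Prop := ∀ (A : Set (Cn 2)) (m : ℕ) (F : Fin m → Cn 4 → ℂ) (δ : ℝ), Std A m F δ →
  ∀ ρ > 0, ∃ c : Fin 2 → ℝ, ‖c‖ < ρ ∧ cp c 0 ∈ Pk A ∧ ∃ (δ' : ℝ) (r N : ℕ)
    (G : Fin r → Cn 3 → ℂ) (ε : ℝ),
    Wal ((sh c 0).pre A) m (fun k z => F k (T4 c 0 z)) δ' r N G ε

/-- **W2.** Second generic choice. Uses `DivN`, `PkD`, `StdT`.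

PROOF. For `i ≠ j` the function `G i - G j` is not identically zero on `ball 0 ε` (`inj`); `DivN` (`k = 3`, coordinate `2`, centre `0`): `G i - G j = z 2 ^ q * E_ij`, `E_ij` not identically zero on `{z 2 = 0}`. For `k, i` the function `φ z = F k (z 0, z 1, z 2^N, z 2^N * G i z)` is holomorphic on `ball 0 ε` (`bdd`, `ε ≤ δ`, `δ ≤ 1`); it is identically zero or `z 2 ^ q * E_ki` with `E_ki` not identically zero on `{z 2 = 0}`. Let `h X` be the product of all `E_ij (X, 0)` and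
`E_ki (X, 0)`: holomorphic on `ball 0 ε`, not identically zero. `PkD` at `0`: `cp c 0 ∈ Pk A`, `‖c‖ < min ρ (ε/2)`, `h c ≠ 0` (real by `pkR`). `StdT` gives `Std` at `c` for small `δ'`; `G' i z = G i (z + (c, 0))`, `E'_ij z = E_ij (z + (c, 0))`, … on a small ball `ball 0 ε'` on which the `E'` have no zeros, `ε' ≤ δ'`, `bdd` for `δ'` (make `ε'` small). `zer`: for `‖t‖ < δ' ≤ δ`. -/
def S_W2 : Prop := ∀ (A : Set (Cn 2)) (m : ℕ) (F : Fin m → Cn 4 → ℂ) (δ : ℝ) (r N : ℕ)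
  (G : Fin r → Cn 3 → ℂ) (ε : ℝ), Wal A m F δ r N G ε → ∀ ρ > 0, ∃ c : Fin 2 → ℝ, ‖c‖ < ρ ∧
    cp c 0 ∈ Pk A ∧ ∃ (δ' ε' : ℝ) (G' : Fin r → Cn 3 → ℂ),
      Wal2 ((sh c 0).pre A) m (fun k z => F k (T4 c 0 z)) δ' r N G' ε'

/-- **WR.** Reflection. Uses `PkC`.

PROOF. `F' k z = F k (-z)`, `ω = exp (π I / N)`, `ω ^ N = -1`, `‖ω‖ = 1`, `G' i z = G i (-z 0, -z 1, ω * z 2)`. `Std`: `ng.psi = -id` maps `cp x y` to `cp (-x) (-y)`; `Pk (ng.pre A)` by `PkC`; the conditions of `Def`, `reg`, `vx` are invariant under `z ↦ -z`. `zer`: `F' k (z 0, z 1, z 2^N, t) = F k (-z 0, -z 1, (ω z 2)^N, -t)`, and `-t = (ω z 2)^N * G i (…) ↔ t = z 2^N * G' i z`. `dif`, `sgw`: `(ω z 2)^q * E (-z 0, -z 1, ω z 2) = z 2^q * (ω^q E (…))`. -/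
def S_WR : Prop := ∀ (A : Set (Cn 2)) (m : ℕ) (F : Fin m → Cn 4 → ℂ) (δ : ℝ) (r N : ℕ)
  (G : Fin r → Cn 3 → ℂ) (ε : ℝ), Wal2 A m F δ r N G ε →
    ∃ (F' : Fin m → Cn 4 → ℂ) (G' : Fin r → Cn 3 → ℂ), Wal2 (ng.pre A) m F' δ r N G' ε

/-- Near `0` there are points of `A` with `y_0 > 0`. -/
def Pos (A : Set (Cn 2)) : Prop := ∀ ρ > 0, ∃ x y : Fin 2 → ℝ, ‖x‖ < ρ ∧ ‖y‖ < ρ ∧ 0 < y 0 ∧
  cp x y ∈ A

/-- **PosD.** PROOF. `0 ∈ closure A`. A point `cp x y ∈ A` near `0` has `y 0 ≠ 0`: if `y 0 = 0`, `y 1 ≠ 0`, then `vx` (`0 ≤ δ |y 1|`); if `y = 0` then, `A` being open, `cp x (0, t) ∈ A` for small `t ≠ 0`, which contradicts `vx`. So there are such points arbitrarily close to `0` with `y 0 > 0`, or with `y 0 < 0`, and in the second case `cp (-x) (-y) ∈ ng.pre A`. -/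
def S_PosD : Prop := ∀ (A : Set (Cn 2)) (m : ℕ) (F : Fin m → Cn 4 → ℂ) (δ : ℝ), Std A m F δ →
  Pos A ∨ Pos (ng.pre A)

/-- The real point `(x, σ)` of `ℂ³`. -/
noncomputable def e3 (x : Fin 2 → ℝ) (σ : ℝ) : Cn 3 := ![(x 0 : ℂ), (x 1 : ℂ), (σ : ℂ)]

/-- The real walls `y_1 = y_0 G_i (x, y_0^(1/N))`, `y_0 > 0`. -/
structure Wl (A : Set (Cn 2)) (r N : ℕ) (G : Fin r → Cn 3 → ℂ) (ε δ : ℝ) : Prop where
  opn : IsOpen A
  hN : 1 ≤ N
  hε : 0 < ε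
  hεδ : ε ≤ δ ^ 2
  hδ : 0 < δ
  hδ1 : δ ≤ 1
  hG : ∀ i, DifferentiableOn ℂ (G i) (ball 0 ε)
  bdd : ∀ i, ∀ z ∈ ball (0 : Cn 3) ε, ‖z 2 ^ N * G i z‖ < δ
  real : ∀ i, ∀ (x : Fin 2 → ℝ) (σ : ℝ), ‖x‖ < ε → 0 ≤ σ → σ < ε → (G i (e3 x σ)).im = 0
  dist : ∀ i j, i ≠ j → ∃ (q : ℕ) (E : Cn 3 → ℂ), DifferentiableOn ℂ E (ball 0 ε) ∧
    (∀ z ∈ ball (0 : Cn 3) ε, E z ≠ 0) ∧ ∀ z ∈ ball (0 : Cn 3) ε, G i z - G j z = z 2 ^ q * E z
  wal : ∀ i, (∀ (x : Fin 2 → ℝ) (σ : ℝ), ‖x‖ < ε → 0 < σ → σ < ε →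
      cp x ![σ ^ N, σ ^ N * (G i (e3 x σ)).re] ∈ A) ∨
    (∀ (x : Fin 2 → ℝ) (σ : ℝ), ‖x‖ < ε → 0 < σ → σ < ε →
      cp x ![σ ^ N, σ ^ N * (G i (e3 x σ)).re] ∉ A)
  bd : ∀ (x : Fin 2 → ℝ) (σ t : ℝ), ‖x‖ < ε → 0 < σ → σ < ε → |t| < δ →
    cp x ![σ ^ N, t] ∈ frontier A → ∃ i, t = σ ^ N * (G i (e3 x σ)).re
  vx : ∀ x y : Fin 2 → ℝ, ‖x‖ < δ → ‖y‖ < δ → y 1 ≠ 0 → |y 0| ≤ δ * |y 1| → cp x y ∉ A

/-- **RSa.** Each `G i` is real at all real points with `σ > 0`, or at none. Uses `RId`.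

PROOF. `F k (conj z) = conj (F k z)` on `ball 0 δ` (componentwise conjugation): `z ↦ conj (F k (conj z)) - F k z` is holomorphic and vanishes at the real points (`Def.real`), `RId`. For real `x`, `0 < σ < ε`, the number `t = σ^N G i (e3 x σ)`, `‖t‖ < δ`, is a zero of some `F k (x, σ^N, ·)`, so is `conj t`, hence `conj (G i (e3 x σ)) = G j (e3 x σ)` for a unique `j` (`zer`, `inj`); `j` is locally constant (continuity, distinct values),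
so constant on the convex set of the `(x, σ)`. If `j = i` then `G i` is real everywhere; if `j ≠ i` then nowhere (`inj`). -/
def S_RSa : Prop := ∀ (A : Set (Cn 2)) (m : ℕ) (F : Fin m → Cn 4 → ℂ) (δ : ℝ) (r N : ℕ)
  (G : Fin r → Cn 3 → ℂ) (ε : ℝ), Wal A m F δ r N G ε → ∀ i,
    (∀ (x : Fin 2 → ℝ) (σ : ℝ), ‖x‖ < ε → 0 < σ → σ < ε → (G i (e3 x σ)).im = 0) ∨
    (∀ (x : Fin 2 → ℝ) (σ : ℝ), ‖x‖ < ε → 0 < σ → σ < ε → (G i (e3 x σ)).im ≠ 0)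

/-- **RSw.** A real wall is in `A` or disjoint from `A`.

PROOF. For every `k` the number `F k (em x (σ^N, σ^N G i))` is real (`Def.real`, `bdd`) and is identically `0` or `σ^q E` with `E` without zeros (`sgw`), so `E (e3 x σ)` is real and not `0` on the convex set of the `(x, σ)`, `0 < σ < ε`, `‖x‖ < ε`, and its sign is constant (connectedness). So all signs are constant along the wall; `Def.sgn`. -/
def S_RSw : Prop := ∀ (A : Set (Cn 2)) (m : ℕ) (F : Fin m → Cn 4 → ℂ) (δ : ℝ) (r N : ℕ)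
  (G : Fin r → Cn 3 → ℂ) (ε : ℝ), Wal2 A m F δ r N G ε → ∀ i,
    (∀ (x : Fin 2 → ℝ) (σ : ℝ), ‖x‖ < ε → 0 < σ → σ < ε → (G i (e3 x σ)).im = 0) →
    (∀ (x : Fin 2 → ℝ) (σ : ℝ), ‖x‖ < ε → 0 < σ → σ < ε →
      cp x ![σ ^ N, σ ^ N * (G i (e3 x σ)).re] ∈ A) ∨
    (∀ (x : Fin 2 → ℝ) (σ : ℝ), ‖x‖ < ε → 0 < σ → σ < ε →
      cp x ![σ ^ N, σ ^ N * (G i (e3 x σ)).re] ∉ A)

/-- **RS.** The real walls. Uses `RSa`, `RSw`.

PROOF. `ε' = min ε (δ²)`. Let `J` be the set of the `i` for which `G i` is real (first alternative of `RSa`), enumerate it: `G' : Fin r' → …` (`Finset.equivFin` or `Finset.orderEmbOfFin`). `real` for `σ = 0` by continuity. `dist` from `dif`, `wal` from `RSw`. `bd`: if no `F k` vanishes at `em x (σ^N, t)` then the signs of all `F k` are constant near this point, and the membership in `A` is constant near `cp x ![σ^N, t]` (a neighbourhood of it consists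 of the points `cp x' y'` with `(x', y')` near),
so the point is not in `frontier A`. Otherwise `t = σ^N G i` for some `i` (`zer`), `t` is real, so `G i` is real at this point and `i ∈ J` (`RSa`). -/
def S_RS : Prop := ∀ (A : Set (Cn 2)) (m : ℕ) (F : Fin m → Cn 4 → ℂ) (δ : ℝ) (r N : ℕ)
  (G : Fin r → Cn 3 → ℂ) (ε : ℝ), Wal2 A m F δ r N G ε →
    ∃ (r' : ℕ) (G' : Fin r' → Cn 3 → ℂ) (ε' : ℝ), Wl A r' N G' ε' δ

/-- The point `(Re z_0, Re z_1, (Im z_0)^(1/N))`. -/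
noncomputable def w3 (N : ℕ) (z : Cn 2) : Cn 3 :=
  e3 (fun i => (z i).re) ((z 0).im ^ ((1 : ℝ) / (N : ℝ)))

/-- The band between two walls. -/
def Bd (N : ℕ) (ga gb : Cn 3 → ℂ) (ε : ℝ) : Set (Cn 2) :=
  {z | (∀ i, |(z i).re| < ε) ∧ 0 < (z 0).im ∧ (z 0).im < ε ^ N ∧
    (z 0).im * (ga (w3 N z)).re < (z 1).im ∧ (z 1).im < (z 0).im * (gb (w3 N z)).re}

/-- The band is a local component of `A`, bounded by two walls which are not in `A`. -/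
structure Band (A : Set (Cn 2)) (N : ℕ) (ga gb : Cn 3 → ℂ) (ε : ℝ) : Prop where
  opn : IsOpen A
  zero : (0 : Cn 2) ∉ A
  hN : 1 ≤ N
  hε : 0 < ε
  hε1 : ε ≤ 1
  ha : DifferentiableOn ℂ ga (ball 0 ε)
  hb : DifferentiableOn ℂ gb (ball 0 ε)
  ra : ∀ (x : Fin 2 → ℝ) (σ : ℝ), ‖x‖ < ε → 0 ≤ σ → σ < ε → (ga (e3 x σ)).im = 0
  rb : ∀ (x : Fin 2 → ℝ) (σ : ℝ), ‖x‖ < ε → 0 ≤ σ → σ < ε → (gb (e3 x σ)).im = 0
  lt : ∀ (x : Fin 2 → ℝ) (σ : ℝ), ‖x‖ < ε → 0 < σ → σ < ε →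
    (ga (e3 x σ)).re < (gb (e3 x σ)).re
  dist : ∃ (q : ℕ) (E : Cn 3 → ℂ), DifferentiableOn ℂ E (ball 0 ε) ∧
    (∀ z ∈ ball (0 : Cn 3) ε, E z ≠ 0) ∧ ∀ z ∈ ball (0 : Cn 3) ε, gb z - ga z = z 2 ^ q * E z
  wa : ∀ (x : Fin 2 → ℝ) (σ : ℝ), ‖x‖ < ε → 0 < σ → σ < ε →
    cp x ![σ ^ N, σ ^ N * (ga (e3 x σ)).re] ∉ A
  wb : ∀ (x : Fin 2 → ℝ) (σ : ℝ), ‖x‖ < ε → 0 < σ → σ < ε →
    cp x ![σ ^ N, σ ^ N * (gb (e3 x σ)).re] ∉ A
  sub : Bd N ga gb ε ⊆ A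
  bopn : IsOpen (Bd N ga gb ε)
  comp : ∃ ρ > 0, IsOpen ((A ∩ ball 0 ρ) \ Bd N ga gb ε)

/-- The wall `y_1 = y_0 g` is disjoint from `A`. -/
def WDis (A : Set (Cn 2)) (N : ℕ) (g : Cn 3 → ℂ) (ε : ℝ) : Prop :=
  ∀ (x : Fin 2 → ℝ) (σ : ℝ), ‖x‖ < ε → 0 < σ → σ < ε →
    cp x ![σ ^ N, σ ^ N * (g (e3 x σ)).re] ∉ A

/-- **ExO.** The order of the walls is constant. PROOF. On the convex set `{(x, σ) | ‖x‖ < ε, 0 < σ < ε}` the continuous function `Re G i - Re G j = G i - G j = σ^q E` (`real`, `dist`) has no zeros. -/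
def S_ExO : Prop := ∀ (A : Set (Cn 2)) (r N : ℕ) (G : Fin r → Cn 3 → ℂ) (ε δ : ℝ),
  Wl A r N G ε δ → ∀ i j, i ≠ j →
    (∀ (x : Fin 2 → ℝ) (σ : ℝ), ‖x‖ < ε → 0 < σ → σ < ε →
      (G i (e3 x σ)).re < (G j (e3 x σ)).re) ∨
    (∀ (x : Fin 2 → ℝ) (σ : ℝ), ‖x‖ < ε → 0 < σ → σ < ε →
      (G j (e3 x σ)).re < (G i (e3 x σ)).re)

/-- **ExA.** Choice of two walls.

PROOF. By `Pos` (with a small `ρ`, `ρ ≤ ε ^ N`, `ρ ≤ δ`; `ε ^ N ≤ ε` because `ε ≤ δ² ≤ 1`) there is `cp x0 ![σ0 ^ N, t0] ∈ A`, `‖x0‖ < ε`, `0 < σ0 < ε`, `|t0| < δ` (`σ0` = the `N`-th root of `y 0`). `S = {t | cp x0 ![σ0^N, t] ∈ A}` is open, `t0 ∈ S`; by `vx` the numbers `t ≠ 0` with `σ0^N ≤ δ |t|`, `|t| < δ` are not in `S`, in particular `t = ± σ0^N / δ` (`σ0^N / δ < δ` because `σ0^N ≤ σ0 < ε ≤ δ²`), and `|t0| < σ0^N / δ`. Let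
`t1 < t0` be the infimum of the `t` with `[t, t0] ⊆ S`: `|t1| ≤ σ0^N/δ < δ`, `t1 ∉ S`, `t1 ∈ closure S`, so `cp x0 ![σ0^N, t1] ∈ frontier A`, so `t1 = σ0^N Re G i` for some `i` (`bd`), and the wall `i` contains a point not in `A`, so it is disjoint from `A` (`wal`). So the set of the `i` with `WDis` and `σ0^N Re G i (e3 x0 σ0) < t0` is not empty; let `a` be the one with the largest value. Similarly `b`: above `t0`, with the smallest value. If `WDis i`, then `σ0^N Re G i ≠ t0`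
(the point is in `A`), so `i` is in one of the two sets. -/
def S_ExA : Prop := ∀ (A : Set (Cn 2)) (r N : ℕ) (G : Fin r → Cn 3 → ℂ) (ε δ : ℝ),
  Wl A r N G ε δ → Pos A → ∃ (a b : Fin r) (x0 : Fin 2 → ℝ) (σ0 t0 : ℝ), ‖x0‖ < ε ∧ 0 < σ0 ∧
    σ0 < ε ∧ cp x0 ![σ0 ^ N, t0] ∈ A ∧ σ0 ^ N * (G a (e3 x0 σ0)).re < t0 ∧
    t0 < σ0 ^ N * (G b (e3 x0 σ0)).re ∧ WDis A N (G a) ε ∧ WDis A N (G b) ε ∧
    ∀ i, WDis A N (G i) ε → (G i (e3 x0 σ0)).re ≤ (G a (e3 x0 σ0)).re ∨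
      (G b (e3 x0 σ0)).re ≤ (G i (e3 x0 σ0)).re

/-- **ExB.** The band is contained in `A`. Uses `ExO`.

PROOF. `G a < G b` at `(x0, σ0)`, so everywhere (`ExO`). `R = Bd N (G a) (G b) ε` consists of the points `cp x ![σ^N, t]`, `‖x‖ < ε`, `0 < σ < ε`, `σ^N Re G a < t < σ^N Re G b`; it is connected: the continuous image of the convex set of the `(x, σ, θ)`, `0 < θ < 1`, under `(x, σ, θ) ↦ cp x ![σ^N, σ^N ((1-θ) Re G a + θ Re G b)]`. `R ∩ frontier A = ∅`: a point `cp x ![σ^N, t]` of it has `|t| < δ` (`bdd`), so `t = σ^N Re G i (e3 x σ)` for some `i` (`bd`); `i ≠ a, b`;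
the wall `i` contains a point not in `A` (the open set `A` is disjoint from `frontier A`), so `WDis` (`wal`); `Re G a < Re G i < Re G b` at `(x, σ)`, hence at `(x0, σ0)` (`ExO`), which contradicts the last hypothesis. The point `cp x0 ![σ0^N, t0]` is in `R ∩ A`. A connected set which meets `A` but not `frontier A` is contained in `A` (`IsPreconnected.inter_frontier_nonempty` or similar). -/
def S_ExB : Prop := ∀ (A : Set (Cn 2)) (r N : ℕ) (G : Fin r → Cn 3 → ℂ) (ε δ : ℝ),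
  Wl A r N G ε δ → ∀ (a b : Fin r) (x0 : Fin 2 → ℝ) (σ0 t0 : ℝ), ‖x0‖ < ε → 0 < σ0 →
    σ0 < ε → cp x0 ![σ0 ^ N, t0] ∈ A → σ0 ^ N * (G a (e3 x0 σ0)).re < t0 →
    t0 < σ0 ^ N * (G b (e3 x0 σ0)).re →
    (∀ i, WDis A N (G i) ε → (G i (e3 x0 σ0)).re ≤ (G a (e3 x0 σ0)).re ∨
      (G b (e3 x0 σ0)).re ≤ (G i (e3 x0 σ0)).re) → Bd N (G a) (G b) ε ⊆ A

/-- **ExC.** The band is a local component.

PROOF. `Bd` is open: on the open set `{z | |Re z_i| < ε, 0 < Im z_0 < ε^N}` the map `w3 N` is continuous with values in `ball 0 ε`, where `G a`, `G b` are continuous. `ρ = ε ^ N` (`≤ ε ≤ 1`). It suffices: if `z ∈ A ∩ ball 0 ρ` and `z ∈ closure (Bd …)` then `z ∈ Bd …`. `0 ≤ Im z_0`. If `Im z_0 = 0`: near `z` the points `z'` of the band satisfy `|Im z'_1| ≤ C Im z'_0` (`G a`, `G b` are bounded on the compact ball of radius `s < ε`, `‖z‖ < s`), so `Im z_1 = 0`, `z = cp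 x 0` is a real
point of the open set `A`, and `cp x (0, t) ∈ A` for small `t ≠ 0`, against `vx`. If `Im z_0 > 0`: by continuity `Im z_0 Re G a ≤ Im z_1 ≤ Im z_0 Re G b` at `w3 N z`; equality is impossible (`z` would be on a wall disjoint from `A`), so `z ∈ Bd …`. -/
def S_ExC : Prop := ∀ (A : Set (Cn 2)) (r N : ℕ) (G : Fin r → Cn 3 → ℂ) (ε δ : ℝ),
  Wl A r N G ε δ → ∀ a b : Fin r, WDis A N (G a) ε → WDis A N (G b) ε →
    IsOpen (Bd N (G a) (G b) ε) ∧ ∃ ρ > 0, IsOpen ((A ∩ ball 0 ρ) \ Bd N (G a) (G b) ε)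

/-- **Ext.** Extraction of a band. Uses `ExO`, `ExA`, `ExB`, `ExC`. PROOF. Assembly. `zero`: `0 ∈ A` would imply `cp 0 (0, t) ∈ A` for small `t ≠ 0`, against `vx`. `lt` from `ExO`; `dist` from `Wl.dist b a`. -/
def S_Ext : Prop := ∀ (A : Set (Cn 2)) (r N : ℕ) (G : Fin r → Cn 3 → ℂ) (ε δ : ℝ),
  Wl A r N G ε δ → Pos A → ∃ a b : Fin r, Band A N (G a) (G b) ε

/-- **TDw.** A band with different slopes is a corner.

PROOF. `q = 0` in `dist`, so `λ = ga 0 < μ = gb 0` (real numbers; `lt` gives `≤` in the limit, and `E 0 ≠ 0`). `Δ = μ - λ`. `e`: `psi w = ![(w 0 + w 1)/Δ, (μ w 0 + λ w 1)/Δ]`, `pi z = ![z 1 - λ z 0, μ z 0 - z 1]`, `O = ball 0 s`, `W = psi ⁻¹' O` with `s ≤ r0`, `s ≤ ρ` (from `comp`), `s ≤ ε`, `s ≤ ε ^ N`. `R = e.pre (Bd N ga gb ε) ∩ ball 0 ρ'`, `ball 0 ρ' ⊆ W`. `(e.pre A ∩ ball 0 ρ') \ R` is the preimage of the open set `(A ∩ ball 0 ρ) \ Bd …`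 in the ball, so it is open. `TypeD R`: for
`z = psi w`, `y_i = Im z_i`: `Im w_0 = y_1 - λ y_0`, `Im w_1 = μ y_0 - y_1`, `y_0 = (Im w_0 + Im w_1)/Δ`. Given `η`, by continuity `|ga (w3 N z) - λ| < η Δ`, `|gb (w3 N z) - μ| < η Δ` if `‖w‖` is small and `y_0 > 0`. If `w ∈ R`: `y_0 > 0`, `y_1 > y_0 ga ≥ y_0 (λ - η Δ)`, so `Im w_0 ≥ -η Δ y_0 ≥ -η (|Im w_0| + |Im w_1|)`, the same for `Im w_1`. Conversely, if `Im w_0, Im w_1 > η (|Im w_0| + |Im w_1|)` then `y_0 > 0`,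
`y_1 - λ y_0 = Im w_0 > η Δ y_0` (both imaginary parts are positive, so `|Im w_0| + |Im w_1| = Δ y_0`), so `y_1 > y_0 ga`, similarly `y_1 < y_0 gb`, and `z ∈ Bd N ga gb ε`. -/
def S_TDw : Prop := ∀ (A : Set (Cn 2)) (N : ℕ) (ga gb : Cn 3 → ℂ) (ε : ℝ), Band A N ga gb ε →
  ga 0 ≠ gb 0 → ∀ r0 > 0, LT P2 A r0

/-- `p_2 ^ a * Re G (p_0, p_1, p_2^(1/N))`. -/
noncomputable def qf (a : ℝ) (N : ℕ) (G : Cn 3 → ℂ) (p : Fin 3 → ℝ) : ℝ :=
  p 2 ^ a * (G (e3 ![p 0, p 1] (p 2 ^ ((1 : ℝ) / (N : ℝ))))).re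

/-- The partial derivative. -/
noncomputable def dG (j : Fin 3) (G : Cn 3 → ℂ) : Cn 3 → ℂ :=
  fun z => fderiv ℂ G z (Pi.single j 1)

/-- The operator which describes the derivative with respect to `p_2`. -/
noncomputable def tG (a : ℝ) (N : ℕ) (G : Cn 3 → ℂ) : Cn 3 → ℂ :=
  fun z => (a : ℂ) * G z + z 2 / (N : ℂ) * dG 2 G z

/-- **QD.** Derivatives. PROOF. Chain rule: `d/dp_2 p_2^(1/N) = (1/N) p_2^(1/N - 1)`, `d/dp_2 p_2^a = a p_2^(a-1)` (`Real.hasDerivAt_rpow_const`), `Re G` has the real derivative `v ↦ Re (fderiv ℂ G z v)`; the point `e3 …` is in `ball 0 ε` (`p_2^(1/N) < ε`). `p_2^a * (1/N) p_2^(1/N - 1) = p_2^(a-1) * (1/N) p_2^(1/N)`. -/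
def S_QD : Prop := ∀ (a : ℝ) (N : ℕ) (G : Cn 3 → ℂ) (ε : ℝ), 1 ≤ N → 0 < ε →
  DifferentiableOn ℂ G (ball 0 ε) →
  (∀ j, DifferentiableOn ℂ (dG j G) (ball 0 ε)) ∧ DifferentiableOn ℂ (tG a N G) (ball 0 ε) ∧
  ∀ p : Fin 3 → ℝ, |p 0| < ε → |p 1| < ε → 0 < p 2 → p 2 < ε ^ N →
    DifferentiableAt ℝ (qf a N G) p ∧ ∀ v : Fin 3 → ℝ, fderiv ℝ (qf a N G) p v =
      v 0 * qf a N (dG 0 G) p + v 1 * qf a N (dG 1 G) p + v 2 * qf (a - 1) N (tG a N G) p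

/-- The coefficients of the complex tangent vector of the graph `y_1 = g (x_0, x_1, y_0)`. -/
noncomputable def k1 (g : (Fin 3 → ℝ) → ℝ) (p : Fin 3 → ℝ) : ℝ :=
  (fderiv ℝ g p (Pi.single 2 1) - fderiv ℝ g p (Pi.single 0 1) * fderiv ℝ g p (Pi.single 1 1)) /
    (1 + fderiv ℝ g p (Pi.single 1 1) ^ 2)

/-- See `k1`. -/
noncomputable def k2 (g : (Fin 3 → ℝ) → ℝ) (p : Fin 3 → ℝ) : ℝ :=
  (fderiv ℝ g p (Pi.single 0 1) + fderiv ℝ g p (Pi.single 1 1) * fderiv ℝ g p (Pi.single 2 1)) /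
    (1 + fderiv ℝ g p (Pi.single 1 1) ^ 2)

/-- The Levi form of the graph of `g`. -/
noncomputable def LL (g : (Fin 3 → ℝ) → ℝ) (p : Fin 3 → ℝ) : ℝ :=
  fderiv ℝ (fderiv ℝ g) p ![1, k1 g p, 0] ![1, k1 g p, 0] +
    fderiv ℝ (fderiv ℝ g) p ![0, -k2 g p, 1] ![0, -k2 g p, 1]

/-- **LLq.** Second derivatives of `g = qf a N G`. Uses `QD`.

PROOF. Near `p` the derivative of `g` is `v ↦ v 0 g_0 + v 1 g_1 + v 2 g_2` with the functions `g_0 = qf a N (dG 0 G)`, `g_1 = qf a N (dG 1 G)`, `g_2 = qf (a-1) N (tG a N G)` (`QD`), which are differentiable by `QD`; so `fderiv ℝ g` is differentiable at `p` (a finite sum of scalar functions times constant linear forms) and `fderiv (fderiv g) p u v = ∑_j v j (fderiv g_j p u)`; use `QD` for the `g_j`. -/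
def S_LLq : Prop := ∀ (a : ℝ) (N : ℕ) (G : Cn 3 → ℂ) (ε : ℝ), 1 ≤ N → 0 < ε →
  DifferentiableOn ℂ G (ball 0 ε) →
  ∀ p : Fin 3 → ℝ, |p 0| < ε → |p 1| < ε → 0 < p 2 → p 2 < ε ^ N →
    ContDiffAt ℝ 2 (qf a N G) p ∧ ∀ u v : Fin 3 → ℝ, fderiv ℝ (fderiv ℝ (qf a N G)) p u v =
      v 0 * (u 0 * qf a N (dG 0 (dG 0 G)) p + u 1 * qf a N (dG 1 (dG 0 G)) p +
        u 2 * qf (a - 1) N (tG a N (dG 0 G)) p) +
      v 1 * (u 0 * qf a N (dG 0 (dG 1 G)) p + u 1 * qf a N (dG 1 (dG 1 G)) p +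
        u 2 * qf (a - 1) N (tG a N (dG 1 G)) p) +
      v 2 * (u 0 * qf (a - 1) N (dG 0 (tG a N G)) p + u 1 * qf (a - 1) N (dG 1 (tG a N G)) p +
        u 2 * qf (a - 1 - 1) N (tG (a - 1) N (tG a N G)) p)

/-- **Cusp.** Two walls with the same slopes are not both Levi flat. Uses `QD`, `LLq`.

PROOF. `g = qf 1 N ga`, `h = qf 1 N gb`, `p = (0, 0, s)`, `s → 0+`, `σ = s^(1/N)`. `h - g = qf P N E` near `p` with `P = 1 + q/N > 1` (`s Re (σ^q E) = s^(1 + q/N) Re E`), so all derivatives of `D = h - g` are given by `QD`, `LLq` for `qf P N E`. In the following `O(·)` is for `s → 0+`; `qf b N G p = O(s^b)` for `G` holomorphic near `0` (continuity at `0`). Indices: derivatives. `g_0, g_1, g_00, g_01, g_11 = O(s)`, the same for `h`; `g_2, h_2 = O(1)`; `g_12, h_12 = O(1)`; `D_0, D_1 = O(s^P)`, `D_2 = O(s^(P-1))`,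
`D_00, D_01, D_11 = O(s^P)`, `D_12 = O(s^(P-1))`, and `D_22 = s^(P-2) Re (tG (P-1) N (tG P N E)) (e3 0 σ)`, where the last factor tends to `P (P-1) Re (E 0)` (the terms with `z 2` tend to `0`), `E 0` is real (a limit of real numbers) and not `0`. `k1`, `k2` are smooth functions of the first derivatives (which are bounded), so `k1 h - k1 g, k2 h - k2 g = O(s^(P-1))`; `k2 g, k2 h = O(s)`; `k1 = O(1)`.
`LL g = g_00 + 2 k1 g_01 + k1² g_11 + g_22 - 2 k2 g_12 + k2² g_11`, so `LL h - LL g = D_22 + D_00 + [2 k1(h) D_01 + 2 (k1(h) - k1(g)) g_01] + [(k1(h)² + k2(h)²) D_11 + (k1(h)² - k1(g)² + k2(h)² - k2(g)²) g_11] - [2 k2(h) D_12 + 2 (k2(h) - k2(g)) g_12] = D_22 + O(s^(P-1))`. Multiplied by `s^(2-P)` this tends to `P (P-1) Re (E 0) ≠ 0`. So for small `s` not both `LL g`, `LL h` vanish. -/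
def S_Cusp : Prop := ∀ (N q : ℕ) (ga gb E : Cn 3 → ℂ) (ε : ℝ), 1 ≤ N → 1 ≤ q → 0 < ε →
  DifferentiableOn ℂ ga (ball 0 ε) → DifferentiableOn ℂ gb (ball 0 ε) →
  DifferentiableOn ℂ E (ball 0 ε) → E 0 ≠ 0 →
  (∀ (x : Fin 2 → ℝ) (σ : ℝ), ‖x‖ < ε → 0 ≤ σ → σ < ε → (ga (e3 x σ)).im = 0) →
  (∀ (x : Fin 2 → ℝ) (σ : ℝ), ‖x‖ < ε → 0 ≤ σ → σ < ε → (gb (e3 x σ)).im = 0) →
  (∀ z ∈ ball (0 : Cn 3) ε, gb z - ga z = z 2 ^ q * E z) →
  ∀ ρ > 0, ∃ s : ℝ, 0 < s ∧ s < ρ ∧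
    (LL (qf 1 N ga) ![0, 0, s] ≠ 0 ∨ LL (qf 1 N gb) ![0, 0, s] ≠ 0)

/-- **LvG.** The Levi form of a graph.

PROOF. `Λ : Cn 2 → (Fin 3 → ℝ)`, `Λ z = (Re z_0, Re z_1, Im z_0)` is real linear, `ρ = g ∘ Λ - Im z_1`. `fderiv ρ z v = fderiv g p (Λ v) - Im v_1`, `D2 ρ z v = fderiv (fderiv g) p (Λ v) (Λ v)`. With `v = ![1, k1 + k2 I]`: `Λ v = ![1, k1, 0]`, `Λ (I v) = ![0, -k2, 1]` (`I v = ![I, -k2 + k1 I]`). `fderiv ρ v = g_0 + k1 g_1 - k2 = 0`, `fderiv ρ (I v) = g_2 - k2 g_1 - k1 = 0` (definitions of `k1`, `k2`, `field_simp`). `fderiv ρ ≠ 0`: the value at `![0, I]` is `fderiv g p 0 - 1 = -1`. -/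
def S_LvG : Prop := ∀ (g : (Fin 3 → ℝ) → ℝ) (z : Cn 2), let p := ![(z 0).re, (z 1).re, (z 0).im]
  ContDiffAt ℝ 2 g p →
  let ρ : Cn 2 → ℝ := fun z => g ![(z 0).re, (z 1).re, (z 0).im] - (z 1).im
  let v : Cn 2 := ![1, (k1 g p : ℂ) + (k2 g p : ℂ) * Complex.I]
  ContDiffAt ℝ 2 ρ z ∧ fderiv ℝ ρ z ≠ 0 ∧ fderiv ℝ ρ z v = 0 ∧
    fderiv ℝ ρ z (Complex.I • v) = 0 ∧ Lv ρ z v = LL g p

/-- **WP0.** From a boundary point with Levi form different from zero to the conclusion. Uses `NF2`.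

PROOF. Choose `r > 0` with `ball p r ⊆ ball 0 (min r0 ρ0)`; `NF2` gives `e`, `ρ'`. `R = e.pre R0 ∩ ball 0 ρ'` has `TypeA2` or `TypeB2`, so `P2`; it is open (`R0` open). `(e.pre A ∩ ball 0 ρ') \ R = ball 0 ρ' ∩ e.W ∩ e.psi ⁻¹' ((A ∩ ball 0 ρ0) \ R0)` is open. -/
def S_WP0 : Prop := ∀ (A R0 : Set (Cn 2)) (p : Cn 2) (ρ : Cn 2 → ℝ) (r0 ρ0 : ℝ) (v : Cn 2),
  IsOpen R0 → R0 ⊆ A → IsOpen ((A ∩ ball 0 ρ0) \ R0) → p ∉ A → p ∈ ball (0 : Cn 2) r0 →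
  p ∈ ball (0 : Cn 2) ρ0 → ContDiffAt ℝ 2 ρ p → ρ p = 0 → fderiv ℝ ρ p ≠ 0 →
  (∀ᶠ z in 𝓝 p, (z ∈ R0 ↔ ρ z < 0)) → fderiv ℝ ρ p v = 0 → fderiv ℝ ρ p (Complex.I • v) = 0 →
  Lv ρ p v ≠ 0 → LT P2 A r0

/-- **WPt.** A point of a wall with Levi form different from zero. Uses `WP0`, `LvG`, `LLq`, `D2A`.

PROOF. Let `g = qf 1 N ga` (first case), `P = ![0, 0, s]`, `LL g P ≠ 0`, `p = cp 0 ![s, g P]` (a point of the wall `a`, `s = σ^N`: `g P = s Re (ga (e3 0 σ))`; `p ∉ A` by `wa`; `‖p‖ < r0` and `< ρ` (from `comp`) if `s < s1`: `ga` is bounded near `0`). `ρ z = g (Re z_0, Re z_1, Im z_0) - Im z_1`, `ρ p = 0`. Near `p`: `z ∈ Bd N ga gb ε ↔ ρ z < 0` (the inequality with `gb` holds near `p` because of `lt` and continuity). `LvG`, `LLq` (for `ContDiffAt`): the hypotheses of `WP0` hold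
with `R0 = Bd N ga gb ε`. Second case: `g = qf 1 N gb`, `p = cp 0 ![s, g P]`, `ρ z = Im z_1 - g (…)`, the negative of the function of `LvG` (`fderiv_neg`; `Lv` changes the sign, `D2A`); `z ∈ R0 ↔ ρ z < 0` near `p`. -/
def S_WPt : Prop := ∀ (A : Set (Cn 2)) (N : ℕ) (ga gb : Cn 3 → ℂ) (ε : ℝ), Band A N ga gb ε →
  ∀ r0 > 0, ∃ s1 > 0, ∀ s : ℝ, 0 < s → s < s1 →
    (LL (qf 1 N ga) ![0, 0, s] ≠ 0 ∨ LL (qf 1 N gb) ![0, 0, s] ≠ 0) → LT P2 A r0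

/-- **TRa.** The totally real case. Uses `StA`, `StB`, `W1`, `W2`, `WR`, `PosD`, `RS`, `Ext`, `TDw`, `Cusp`, `WPt`, `LTE`.

PROOF. `StA`, `StB` give `c0, σ`, `A1 = (sh c0 σ).pre A`, `δ`; `W1`: `c1` small (with `ball` radii such that `(sh c1 0).psi = c1 + id` maps a small ball into `ball 0 δ`), `A2 = (sh c1 0).pre A1`; `W2`: `c2` small, `A3 = (sh c2 0).pre A2` with `Wal2`. `PosD` for `A3`: if `Pos A3` let `B = A3`, otherwise `B = ng.pre A3` (`WR`), `Pos B`. `RS`, `Ext`: `Band B N ga gb ε`. If `ga 0 ≠ gb 0`: `TDw`; otherwise `dist` has `q ≥ 1` (for `q = 0`: `gb 0 - ga 0 = E 0 ≠ 0`), `Cusp` and `WPt`: `LT P2 B r0` for every `r0 > 0`.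
`LTE` for the charts `ng`, `sh c2 0`, `sh c1 0`, `sh c0 σ` (with small radii; all have `W = univ`) gives `LT P2 A r`. -/
def S_TRa : Prop := S_StA → S_StB → S_W1 → S_W2 → S_WR → S_PosD → S_RS → S_Ext → S_TDw → S_Cusp → S_WPt →
  S_LTE → S_TR

end KP
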